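import Pool.Agent.MP217LB2.Defs

set_option autoImplicit false

/-!
# Histories and worlds
-/

namespace Pool.Agent.MP217LB2

open Pool.Agent.MP217Upper.Model
open scoped Classical

variable {n : ℕ} {nx : Prot n}

/-- **Module BA1.**  Induction on `S`. -/
theorem wr_of_mem {f : List (Option ℕ) → Act n} {z : Fin n} {E : Fin n → ℕ → ℕ} {S : ℕ}
    {r : Fin n} {k : ℕ} (h : mem f (hst f z E S) r k ≠ 0) :
    ∃ q, q < S ∧ ∃ v, f (hst f z E q) = .write r k v := by
  induction S with
  | zero => exact absurd rfl h
  | succ S ih =>
    have key : mem f (hst f z E S) r k ≠ 0 →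
        ∃ q, q < S + 1 ∧ ∃ v, f (hst f z E q) = .write r k v := by
      intro h1
      obtain ⟨q, hq, v, hv⟩ := ih h1
      exact ⟨q, by omega, v, hv⟩
    rw [hst] at h
    cases hf : f (hst f z E S) with
    | read w' k' =>
      rw [hf] at h
      dsimp only at h
      rw [mem, hf] at h
      exact key h
    | write r' k' v' =>
      rw [hf] at h
      dsimp only at h
      rw [mem, hf] at h
      dsimp only at h
      by_cases h1 : r = r' ∧ k = k'
      · obtain ⟨rfl, rfl⟩ := h1
        exact ⟨S, by omega, v', hf⟩
      · rw [if_neg h1] at h
        exact key h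
    | output o =>
      rw [hf] at h
      exact key h

/-- **Module BA1.**  Induction on `q`: the first step after which the histories differ is a read. -/
theorem hst_diff {f : List (Option ℕ) → Act n} {z : Fin n} {E E' : Fin n → ℕ → ℕ} {q : ℕ}
    (h : hst f z E q ≠ hst f z E' q) :
    ∃ p, p < q ∧ hst f z E p = hst f z E' p ∧
      ∃ w k, f (hst f z E p) = .read w k ∧ w ≠ z ∧ E w k ≠ E' w k := by
  induction q with
  | zero => exact absurd rfl h
  | succ q ih =>
    by_cases h1 : hst f z E q = hst f z E' q
    · rw [hst, hst, h1] at h
      cases hf : f (hst f z E' q) with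
      | read w k =>
        rw [hf] at h
        dsimp only at h
        refine ⟨q, by omega, h1, w, k, by rw [h1, hf], ?_, ?_⟩
        · intro hw
          apply h
          rw [if_pos hw, if_pos hw]
        · intro hE
          apply h
          rw [hE]
      | write r k v =>
        rw [hf] at h
        exact absurd rfl h
      | output o =>
        rw [hf] at h
        exact absurd rfl h
    · obtain ⟨p, hp, h2⟩ := ih h1
      exact ⟨p, by omega, h2⟩

/-- **Module BA1.**  As long as there is no output, every step is counted; an output stays. -/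
theorem hst_length {f : List (Option ℕ) → Act n} {z : Fin n} {E : Fin n → ℕ → ℕ} {q : ℕ}
    (h : ¬ ∃ o, f (hst f z E q) = .output o) : (hst f z E q).length = q := by
  induction q with
  | zero => rfl
  | succ q ih =>
    cases hf : f (hst f z E q) with
    | read w k =>
      have e : hst f z E (q + 1) =
          some (if w = z then mem f (hst f z E q) z k else E w k) :: hst f z E q := by
        rw [hst, hf]
      rw [e, List.length_cons, ih]
      rintro ⟨o, ho⟩
      rw [hf] at ho
      cases ho
    | write r k v =>
      have e : hst f z E (q + 1) = none :: hst f z E q := by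
        rw [hst, hf]
      rw [e, List.length_cons, ih]
      rintro ⟨o, ho⟩
      rw [hf] at ho
      cases ho
    | output o =>
      exfalso
      apply h
      have e : hst f z E (q + 1) = hst f z E q := by
        rw [hst, hf]
      exact ⟨o, by rw [e, hf]⟩

/-- **Module BA2.** -/
theorem mw_congr {R R' : List ℕ} {P : List (Slot n)}
    (h : ∀ j, j < P.length → (j ∈ R ↔ j ∈ R')) : mw nx R P = mw nx R' P := by
  induction P with
  | nil => rfl
  | cons y P ih =>
    have ih := ih fun j hj => h j (by rw [List.length_cons]; omega)
    have h1 := h P.length (by rw [List.length_cons]; omega)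
    rw [mw, mw]
    by_cases h2 : P.length ∈ R
    · rw [if_pos h2, if_pos (h1.1 h2), ih]
    · rw [if_neg h2, if_neg fun h3 => h2 (h1.2 h3), ih]

/-- **Module BA2.** -/
theorem hh_congr {R R' : List ℕ} {P : List (Slot n)} {z : Fin n} {q : ℕ}
    (h : ∀ j, j < P.length → (j ∈ R ↔ j ∈ R')) : hh nx R P z q = hh nx R' P z q := by
  unfold hh
  rw [mw_congr h]

/-- **Module BA2.**  The number of names written (read) is at most the effort: the set is contained in
the image of `range y.2` under a function of `q`. -/
theorem card_Wr (R : List ℕ) (P : List (Slot n)) (y : Slot n) :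
    (Finset.univ.filter (fun z => Wr nx R P y z)).card ≤ y.2 := by
  have h1 : (Finset.univ.filter (fun z => Wr nx R P y z)) ⊆
      (Finset.range y.2).image fun q => match nx y.1 (hh nx R P y.1 q) with
        | .write z _ _ => z
        | _ => y.1 := by
    intro z hz
    rw [Finset.mem_filter] at hz
    obtain ⟨-, q, hq, k, v, hv⟩ := hz
    rw [Finset.mem_image]
    refine ⟨q, Finset.mem_range.2 hq, ?_⟩
    rw [hv]
  refine (Finset.card_le_card h1).trans (Finset.card_image_le.trans ?_)
  rw [Finset.card_range]

/-- **Module BA2.** -/
theorem card_Rd (R : List ℕ) (P : List (Slot n)) (y : Slot n) :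
    (Finset.univ.filter (fun z => Rd nx R P y z)).card ≤ y.2 := by
  have h1 : (Finset.univ.filter (fun z => Rd nx R P y z)) ⊆
      (Finset.range y.2).image fun q => match nx y.1 (hh nx R P y.1 q) with
        | .read z _ => z
        | _ => y.1 := by
    intro z hz
    rw [Finset.mem_filter] at hz
    obtain ⟨-, q, hq, k, hv⟩ := hz
    rw [Finset.mem_image]
    refine ⟨q, Finset.mem_range.2 hq, ?_⟩
    rw [hv]
  refine (Finset.card_le_card h1).trans (Finset.card_image_le.trans ?_)
  rw [Finset.card_range]

/-- **Module BA2.** -/
theorem Rd_mono {R : List ℕ} {P : List (Slot n)} {z w : Fin n} {s s' : ℕ} (hs : s ≤ s')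
    (h : Rd nx R P (z, s) w) : Rd nx R P (z, s') w := by
  obtain ⟨q, hq, k, hk⟩ := h
  exact ⟨q, lt_of_lt_of_le hq hs, k, hk⟩

/-- **Module BA3.**  Induction on `P`.  (Contents which differ in the worlds `c` and `j0 :: c`: the
slot with the position `j0` contributes, or the contributions of another slot differ.) -/
theorem diff_mw {j0 : ℕ} {c : List ℕ} {P : List (Slot n)} {w r : Fin n} {k : ℕ}
    (h : mw nx c P w r k ≠ mw nx (j0 :: c) P w r k) :
    (∃ y P', (y :: P') <:+ P ∧ P'.length = j0 ∧ j0 ∉ c ∧ y.1 = w ∧
      mem (nx w) (hh nx c P' w y.2) r k ≠ 0) ∨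
    (∃ y P', (y :: P') <:+ P ∧ P'.length ∉ j0 :: c ∧ y.1 = w ∧
      mem (nx w) (hh nx c P' w y.2) r k ≠ mem (nx w) (hh nx (j0 :: c) P' w y.2) r k) := by
  induction P with
  | nil => exact absurd rfl h
  | cons y P ih =>
    have key : mw nx c P w r k ≠ mw nx (j0 :: c) P w r k →
        (∃ y' P', (y' :: P') <:+ (y :: P) ∧ P'.length = j0 ∧ j0 ∉ c ∧ y'.1 = w ∧
          mem (nx w) (hh nx c P' w y'.2) r k ≠ 0) ∨
        (∃ y' P', (y' :: P') <:+ (y :: P) ∧ P'.length ∉ j0 :: c ∧ y'.1 = w ∧
          mem (nx w) (hh nx c P' w y'.2) r k ≠ mem (nx w) (hh nx (j0 :: c) P' w y'.2) r k) := by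
      intro h1
      rcases ih h1 with ⟨y', P', h2, h3⟩ | ⟨y', P', h2, h3⟩
      · exact Or.inl ⟨y', P', h2.trans (List.suffix_cons y P), h3⟩
      · exact Or.inr ⟨y', P', h2.trans (List.suffix_cons y P), h3⟩
    by_cases h0 : mw nx c P w r k ≠ mw nx (j0 :: c) P w r k
    · exact key h0
    · rw [ne_eq, not_not] at h0
      rw [mw, mw] at h
      by_cases h1 : P.length ∈ c
      · rw [if_pos h1, if_pos (List.mem_cons_of_mem j0 h1)] at h
        exact absurd h0 h
      · rw [if_neg h1] at h
        by_cases h2 : P.length = j0
        · have h6 : P.length ∈ j0 :: c := by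
            rw [h2]
            exact List.mem_cons_self
          rw [if_pos h6] at h
          rw [← h0] at h
          by_cases h3 : w = y.1
          · rw [if_pos h3] at h
            refine Or.inl ⟨y, P, List.suffix_refl _, h2, h2 ▸ h1, h3.symm, ?_⟩
            intro h4
            apply h
            rw [h3] at h4
            unfold hh at h4
            rw [← h3] at h4 ⊢
            rw [h4, add_zero]
          · rw [if_neg h3, add_zero] at h
            exact absurd rfl h
        · have h5 : P.length ∉ j0 :: c := by
            rw [List.mem_cons]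
            rintro (h6 | h6)
            · exact h2 h6
            · exact h1 h6
          rw [if_neg h5] at h
          rw [← h0] at h
          by_cases h3 : w = y.1
          · rw [if_pos h3, if_pos h3] at h
            refine Or.inr ⟨y, P, List.suffix_refl _, h5, h3.symm, ?_⟩
            intro h4
            apply h
            unfold hh at h4
            rw [h3] at h4 ⊢
            rw [h4]
          · rw [if_neg h3, if_neg h3] at h
            exact absurd rfl h

/-- **Module BA4.**  A world in which a set of slots closed under hearing takes place: their histories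
do not change.  Strong induction on `P'.length`, then on `q`.  If the action after `q` steps is the read
of `(w, y.1, k)`, `w ≠ y.1`, then `mw nx R P' w y.1 k = mw nx [] P' w y.1 k`: induction over the
suffixes of `P'`; a slot `(y'', P'')` of `P'` with the name `w` contributes the same amount in both
worlds: if it is not removed, by the induction hypothesis; if it is removed, its contribution in the
world `[]` is `0`, as otherwise it is heard. -/
theorem closed_world {R : List ℕ} {P : List (Slot n)}
    (hT : ∀ y P', (y :: P') <:+ P → P'.length ∉ R → ∀ y'' P'', (y'' :: P'') <:+ P' →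
      Hr nx y'' P'' y P' → P''.length ∉ R) :
    ∀ y P', (y :: P') <:+ P → P'.length ∉ R → ∀ q, q ≤ y.2 →
      hh nx R P' y.1 q = hh nx [] P' y.1 q := by
  have main : ∀ N : ℕ, ∀ y P', P'.length = N → (y :: P') <:+ P → P'.length ∉ R →
      ∀ q, q ≤ y.2 → hh nx R P' y.1 q = hh nx [] P' y.1 q := by
    intro N
    induction N using Nat.strong_induction_on with
    | _ N ih =>
      intro y P' hN hs hR q hq
      by_contra hne
      obtain ⟨p, hp, h1, w, k, h2, h3, h4⟩ := hst_diff (f := nx y.1) (z := y.1)
        (E := fun w k => mw nx R P' w y.1 k) (E' := fun w k => mw nx [] P' w y.1 k) hne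
      apply h4
      have h5 : ∀ P0, P0 <:+ P' → mw nx R P0 w y.1 k = mw nx [] P0 w y.1 k := by
        intro P0
        induction P0 with
        | nil => exact fun _ => rfl
        | cons y0 P0 ih0 =>
          intro hs0
          have hs1 : P0 <:+ P' := (List.suffix_cons y0 P0).trans hs0
          have e0 := ih0 hs1
          have hlt : P0.length < N := by
            have := hs0.length_le
            rw [List.length_cons] at this
            omega
          have hs2 : (y0 :: P0) <:+ P := hs0.trans ((List.suffix_cons y P').trans hs)
          rw [mw, mw, if_neg (List.not_mem_nil)]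
          by_cases h6 : P0.length ∈ R
          · rw [if_pos h6, e0]
            by_cases h7 : w = y0.1
            · rw [if_pos h7]
              by_cases h8 : mem (nx y0.1) (hst (nx y0.1) y0.1
                  (fun w' k' => mw nx [] P0 w' y0.1 k') y0.2) y.1 k = 0
              · rw [h8, add_zero]
              · exfalso
                refine hT y P' hs hR y0 P0 hs0 ?_ h6
                refine ⟨p, lt_of_lt_of_le hp hq, k, ?_, h8⟩
                show nx y.1 (hst (nx y.1) y.1 (fun w k => mw nx [] P' w y.1 k) p) = _
                rw [← h1, h2, h7]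
            · rw [if_neg h7, add_zero]
          · rw [if_neg h6]
            rw [e0]
            congr 1
            by_cases h7 : w = y0.1
            · rw [if_pos h7, if_pos h7]
              congr 1
              exact ih P0.length hlt y0 P0 rfl hs2 h6 y0.2 le_rfl
            · rw [if_neg h7, if_neg h7]
      exact h5 P' (List.suffix_refl P')
  intro y P' h1 h2 q h3
  exact main P'.length y P' rfl h1 h2 q h3

/-! ### Positions -/

/-- **Module BA5.** -/
theorem eff_suffix {y : Slot n} {P' P : List (Slot n)} (h : (y :: P') <:+ P) :
    eff P P'.length = y.2 := by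
  induction P with
  | nil =>
    have h1 := h.length_le
    simp at h1
  | cons y0 P ih =>
    rcases List.suffix_cons_iff.1 h with h1 | h1
    · rw [List.cons.injEq] at h1
      rw [h1.1, h1.2, eff, if_pos rfl]
    · have h2 := h1.length_le
      rw [List.length_cons] at h2
      rw [eff, if_neg (by omega)]
      exact ih h1

/-- **Module BA5.** -/
theorem eff_of_suffix {P' P : List (Slot n)} (h : P' <:+ P) {a : ℕ} (ha : a < P'.length) :
    eff P a = eff P' a := by
  induction P with
  | nil =>
    rw [List.suffix_nil] at h
    rw [h]
  | cons y0 P ih =>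
    rcases List.suffix_cons_iff.1 h with h1 | h1
    · rw [h1]
    · have h2 := h1.length_le
      rw [eff, if_neg (by omega)]
      exact ih h1

/-- **Module BA5.** -/
theorem InT.le {a : ℕ} {y : Slot n} {P : List (Slot n)} (h : InT nx a y P) : a ≤ P.length := by
  induction h with
  | self y P h => exact h.ge
  | hear y P y' P' hs _ _ ih =>
    have h1 := hs.length_le
    rw [List.length_cons] at h1
    omega

/-- **Module BA5.**  A slot which is heard has written. -/
theorem InT.eff_pos {a : ℕ} {y : Slot n} {P : List (Slot n)} (h : InT nx a y P)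
    (ha : a ≠ P.length) : 1 ≤ eff P a := by
  induction h with
  | self y P h => exact absurd h.symm ha
  | hear y P y' P' hs hH hI ih =>
    have h1 := hI.le
    have h2 := hs.length_le
    rw [List.length_cons] at h2
    by_cases h3 : a = P'.length
    · rw [h3, eff_suffix hs]
      obtain ⟨q, _, k, _, h4⟩ := hH
      obtain ⟨q', h5, _⟩ := wr_of_mem h4
      omega
    · rw [eff_of_suffix ((List.suffix_cons y' P').trans hs) (by omega)]
      exact ih h3

end Pool.Agent.MP217LB2
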