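import Pool.Agent.MP217LB2.Basic

set_option autoImplicit false

/-!
# The cleaning lemma
-/

namespace Pool.Agent.MP217LB2

open Pool.Agent.MP217Upper.Model
open scoped Classical

variable {n : ℕ} {nx : Prot n} {a : ℕ}

/-- The invariants of the chains. -/
structure Inv (a : ℕ) (P : List (Slot n)) (σ : St n) : Prop where
  suf : (σ.u :: σ.Pu) <:+ P
  hd : σ.c = σ.Pu.length :: σ.c.tail
  tl : ∀ j ∈ σ.c.tail, j < σ.Pu.length
  w : σ.w = eff P a
  lt : a < P.length

/-- **Module CL1.**  Induction. -/
theorem Rch.inv {P : List (Slot n)} {σ : St n} (h : Rch nx a P σ) : Inv a P σ := by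
  induction h with
  | start y P hP =>
    refine ⟨List.suffix_refl _, rfl, ?_, ?_, ?_⟩
    · intro j hj
      simp [MP217LB2.start] at hj
    · simp [MP217LB2.start, eff, hP]
    · simp [hP]
  | skip y P σ h ih =>
    refine ⟨ih.suf.trans (List.suffix_cons y P), ih.hd, ih.tl, ?_, ?_⟩
    · have h1 := ih.lt
      have h2 : P.length ≠ a := by omega
      simp only [eff, h2, if_false]
      exact ih.w
    · have h1 := ih.lt
      simp only [List.length_cons]
      omega
  | take y P σ i h hi hok ih =>
    have h1 := ih.lt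
    refine ⟨List.suffix_refl _, rfl, ?_, ?_, ?_⟩
    · intro j hj
      have h2 : j ∈ σ.c := hj
      have h3 := ih.suf.length_le
      simp only [List.length_cons] at h3
      have h4 : σ.Pu.length < P.length := by omega
      show j < P.length
      rw [ih.hd] at h2
      rcases List.mem_cons.mp h2 with h5 | h5
      · omega
      · have := ih.tl j h5
        omega
    · have h2 : P.length ≠ a := by omega
      show σ.w = eff (y :: P) a
      simp only [eff, h2, if_false]
      exact ih.w
    · simp only [List.length_cons]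
      omega

/-- **Module CL1.** -/
theorem Rch.mono {P P' : List (Slot n)} {σ : St n} (h : Rch nx a P σ) (hP : P <:+ P') :
    Rch nx a P' σ := by
  obtain ⟨t, rfl⟩ := hP
  induction t with
  | nil => exact h
  | cons y t ih => exact Rch.skip y (t ++ P) σ ih

/-- **Module CL1.**  Induction on `h`. -/
theorem Rch.of_lt {P P' : List (Slot n)} {σ : St n} (h : Rch nx a P σ) (hP : P' <:+ P)
    (hl : σ.Pu.length < P'.length) : Rch nx a P' σ := by
  induction h with
  | start y P ha =>
    have h1 : P' = y :: P := by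
      apply hP.eq_of_length_le
      have h2 : P.length < P'.length := hl
      simpa using h2
    rw [h1]
    exact Rch.start y P ha
  | skip y P σ h ih =>
    rcases List.suffix_cons_iff.mp hP with h1 | h1
    · rw [h1]
      exact Rch.skip y P σ h
    · exact ih h1 hl
  | take y P σ i h hi hok ih =>
    have h1 : P' = y :: P := by
      apply hP.eq_of_length_le
      have h2 : P.length < P'.length := hl
      simpa using h2
    rw [h1]
    exact Rch.take y P σ i h hi hok

/-- **Module CL1.**  A chain whose last slot is the last slot of the list. -/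
theorem Rch.last {P : List (Slot n)} {y : Slot n} {σ' : St n} (h : Rch nx a (y :: P) σ')
    (hl : σ'.Pu.length = P.length) (ha : a ≠ P.length) :
    ∃ σ i, Rch nx a P σ ∧ i.1 ≤ σ.st.length ∧ Ok nx σ i P y ∧ σ.w = σ'.w := by
  cases h with
  | start _ _ h1 => exact absurd h1.symm ha
  | skip _ _ _ h1 =>
    have h2 := h1.inv.suf.length_le
    simp only [List.length_cons] at h2
    omega
  | take _ _ σ i h1 h2 h3 => exact ⟨σ, i, h1, h2, h3, rfl⟩

/-- All nonempty initial parts `e'` (suffixes, as the last position comes first) of the extension `e`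
of the chain `c` are chains in `P`, and their stacks have the suffix `τ`. -/
def Ext (nx : Prot n) (a : ℕ) (P : List (Slot n)) (c : List ℕ) (τ : List (List ℕ))
    (e : List ℕ) : Prop :=
  ∀ e', e' <:+ e → e' ≠ [] → ∃ σ, Rch nx a P σ ∧ σ.c = e' ++ c ∧ τ <:+ σ.st

/-- **Module CL2.** -/
theorem Ext.mono {P P' : List (Slot n)} {c : List ℕ} {τ : List (List ℕ)} {e : List ℕ}
    (h : Ext nx a P c τ e) (hP : P <:+ P') : Ext nx a P' c τ e := by
  intro e' h1 h2
  obtain ⟨σ, h3, h4, h5⟩ := h e' h1 h2
  exact ⟨σ, h3.mono hP, h4, h5⟩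

/-- **Module CL2.**  Append one link.  `σ` is the chain with all of `e`; pop until the stack is `τ`. -/
theorem Ext.take {P : List (Slot n)} {c : List ℕ} {τ : List (List ℕ)} {e : List ℕ} {y : Slot n}
    (h : Ext nx a P c τ e) {σ : St n} {i : Ins} (hσ : Rch nx a P σ) (hc : σ.c = e ++ c)
    (hi : i.1 ≤ σ.st.length) (hok : Ok nx σ i P y) (hτ : τ <:+ st2 σ i) :
    Ext nx a (y :: P) c τ (P.length :: e) := by
  intro e' h1 h2
  rcases List.suffix_cons_iff.mp h1 with h3 | h3
  · refine ⟨nxt σ i P y, Rch.take y P σ i hσ hi hok, ?_, hτ⟩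
    rw [h3]
    show P.length :: σ.c = _
    rw [hc]
    rfl
  · obtain ⟨σ', h4, h5, h6⟩ := h e' h3 h2
    exact ⟨σ', Rch.skip y P σ' h4, h5, h6⟩

/-- **Module CL2.**  Composition of extensions. -/
theorem Ext.comp {P : List (Slot n)} {c : List ℕ} {τ : List (List ℕ)} {e e1 : List ℕ}
    (h : Ext nx a P c τ e) (h1 : Ext nx a P (e ++ c) ((e ++ c) :: τ) e1) :
    Ext nx a P c τ (e1 ++ e) := by
  intro e' h2 h3
  by_cases hle : e'.length ≤ e.length
  · have h4 : e' <:+ e := List.suffix_of_suffix_length_le h2 (List.suffix_append e1 e) hle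
    exact h e' h4 h3
  · obtain ⟨t, ht⟩ := h2
    have h4 : e <:+ e' := by
      refine List.suffix_of_suffix_length_le (List.suffix_append e1 e) ⟨t, ht⟩ (by omega)
    obtain ⟨f, rfl⟩ := h4
    have h5 : f <:+ e1 := by
      refine ⟨t, ?_⟩
      have : (t ++ f) ++ e = e1 ++ e := by
        rw [List.append_assoc]
        exact ht
      exact List.append_cancel_right this
    have h6 : f ≠ [] := by
      rintro rfl
      simp at hle
    obtain ⟨σ, h7, h8, h9⟩ := h1 f h5 h6
    refine ⟨σ, h7, ?_, (List.suffix_cons _ _).trans h9⟩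
    rw [h8, List.append_assoc]

/-- **Module CL2.**  A suffix `e'` of `e` where the history changes. -/
theorem exists_change {P : List (Slot n)} {c e : List ℕ} {z : Fin n} {q : ℕ}
    (h : hh nx (e ++ c) P z q ≠ hh nx c P z q) :
    ∃ e', e' <:+ e ∧ e' ≠ [] ∧ hh nx (e'.tail ++ c) P z q ≠ hh nx (e' ++ c) P z q := by
  induction e with
  | nil => exact absurd rfl h
  | cons x e ih =>
    by_cases h1 : hh nx (e ++ c) P z q = hh nx c P z q
    · refine ⟨x :: e, List.suffix_refl _, by simp, ?_⟩
      rw [List.tail_cons, h1]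
      exact h.symm
    · obtain ⟨e', h2, h3, h4⟩ := ih h1
      exact ⟨e', h2.trans (List.suffix_cons x e), h3, h4⟩

private theorem CL3_suffix_eq {α : Type*} {l1 l2 l : List α} (h1 : l1 <:+ l) (h2 : l2 <:+ l)
    (h : l1.length = l2.length) : l1 = l2 :=
  (List.suffix_of_suffix_length_le h1 h2 h.le).eq_of_length h

private theorem CL3_drop {α : Type*} {τ l : List α} (h : τ <:+ l) :
    l.drop (l.length - τ.length) = τ := by
  obtain ⟨t, rfl⟩ := h
  simp

private theorem CL3_ext_suffix {P : List (Slot n)} {c : List ℕ} {τ : List (List ℕ)}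
    {e e' : List ℕ} (h : Ext nx a P c τ e) (he : e' <:+ e) : Ext nx a P c τ e' :=
  fun f hf hne => h f (hf.trans he) hne

/-- **Module CL3.**  The cleaning lemma.  Proof: section 2 of the text (Lemma P).  Strong induction on
`P.length`, then on `q`, for all `σ`, `k`, `y`.

By `hst_diff` there is `p < q` with a common history and the read of `(w, y.1, κ)`, `w ≠ y.1`, whose
contents differ; use `diff_mw` with `j0 = σ.Pu.length`, `c = σ.c.tail` (`Rch.inv`).

(A) The slot with the position `j0` is `(σ.u, σ.Pu)` (two suffixes of `P` of the same length):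
`Ext.take` with `e = []` and `i = (k, true, false)`: `rmv σ i = σ.c.tail`.

(B) `(y' :: P') <:+ P`, `P'.length ∉ σ.c`: the histories of `y'` in the worlds `σ.c.tail` and `σ.c`
differ, so `σ.Pu.length < P'.length` (`hh_congr`), `Rch nx a P' σ` (`Rch.of_lt`), and the induction
hypothesis gives `Ext nx a (y' :: P') σ.c τ E` with `τ = σ.c :: σ.st.drop k`, `E = P'.length :: e`,
hence `Ext nx a P σ.c τ E`.  (B1) If `hh nx (E ++ σ.c) P y.1 p = hh nx σ.c P y.1 p`: `Ext.take` with the
chain `σy` for `E`, `σy.u :: σy.Pu = y' :: P'`, and `i = (σy.st.length - τ.length, false, ?)`, where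
`?` chooses the world in which `y'` writes.  (B2) Otherwise `exists_change`, and the induction
hypothesis for `p < q` for the chain `σ'` of `e'` with `k' = σ'.st.length - τ.length`; `Ext.comp`. -/
theorem cleanP {P : List (Slot n)} (σ : St n) (hσ : Rch nx a P σ) (k : ℕ)
    (hk : k ≤ σ.st.length) (y : Slot n) (q : ℕ) (hq : q ≤ y.2)
    (hne : hh nx σ.c.tail P y.1 q ≠ hh nx σ.c P y.1 q) :
    ∃ e, Ext nx a (y :: P) σ.c (σ.c :: σ.st.drop k) (P.length :: e) := by
  obtain ⟨L, hL⟩ : ∃ L, P.length = L := ⟨_, rfl⟩
  induction L using Nat.strong_induction_on generalizing P σ k y q with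
  | _ L ihL =>
  induction q using Nat.strong_induction_on generalizing σ k with
  | _ q ihq =>
  have hinv := hσ.inv
  obtain ⟨p, hpq, hcom, w, κ, hact, hwz, hE⟩ := hst_diff hne
  have hc : σ.c = σ.Pu.length :: σ.c.tail := hinv.hd
  have hE' : mw nx σ.c.tail P w y.1 κ ≠ mw nx (σ.Pu.length :: σ.c.tail) P w y.1 κ := by
    rw [← hc]
    exact hE
  have hcom' : hh nx σ.c.tail P y.1 p = hh nx σ.c P y.1 p := hcom
  have hact' : nx y.1 (hh nx σ.c P y.1 p) = .read w κ := by
    rw [← hcom']
    exact hact
  rcases diff_mw hE' with ⟨y', P', hs, hlen, hj, hw, hm⟩ | ⟨y', P', hs, hlen, hw, hm⟩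
  · -- case A
    have h1 : y' :: P' = σ.u :: σ.Pu := by
      apply CL3_suffix_eq hs hinv.suf
      simp [hlen]
    obtain ⟨rfl, rfl⟩ : y' = σ.u ∧ P' = σ.Pu := by
      simpa using h1
    refine ⟨[], ?_⟩
    have hrmv : rmv σ (k, true, false) = σ.c.tail := by
      simp [rmv, st2]
    refine Ext.take (e := []) (τ := σ.c :: σ.st.drop k) (i := (k, true, false)) ?_ hσ (by simp) hk
      ?_ ?_
    · intro e' he' hne'
      exact absurd (List.suffix_nil.mp he') hne'
    · refine ⟨?_, p, by omega, κ, ?_⟩
      · rw [hrmv]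
        obtain ⟨q', hq', v, hv⟩ := wr_of_mem hm
        refine ⟨q', hq', κ, v, ?_⟩
        rw [hw]
        exact hv
      · rw [hact', hw]
    · simp [st2]
  · -- case B
    have hc' : ∀ {R : List ℕ}, hh nx R P' w y'.2 = hh nx R P' y'.1 y'.2 := by
      intro R
      rw [hw]
    have hdiff : hh nx σ.c.tail P' y'.1 y'.2 ≠ hh nx σ.c P' y'.1 y'.2 := by
      intro h
      apply hm
      rw [← hc, hc', hc', h]
    have hPlt : P'.length < P.length := by
      have := hs.length_le
      simpa using this
    have hlt : σ.Pu.length < P'.length := by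
      by_contra hcon
      apply hdiff
      apply hh_congr
      intro j hj
      rw [hc]
      simp only [List.mem_cons, List.tail_cons]
      constructor
      · exact fun h => Or.inr h
      · rintro (h | h)
        · exfalso
          have h2 : P'.length ≠ σ.Pu.length := by
            intro h3
            apply hlen
            rw [h3]
            exact List.mem_cons_self
          omega
        · exact h
    have hσ' : Rch nx a P' σ :=
      hσ.of_lt ((List.suffix_cons y' P').trans hs) hlt
    obtain ⟨e, he⟩ := ihL P'.length (by omega) σ hσ' k hk y' y'.2 le_rfl hdiff rfl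
    obtain ⟨E, hEdef⟩ : ∃ E, E = P'.length :: e := ⟨_, rfl⟩
    rw [← hEdef] at he
    have heP : Ext nx a P σ.c (σ.c :: σ.st.drop k) E := he.mono hs
    have hEne : E ≠ [] := by
      rw [hEdef]
      simp
    by_cases hB : hh nx (E ++ σ.c) P y.1 p = hh nx σ.c P y.1 p
    · -- case B1
      obtain ⟨σy, hy1, hy2, hy3⟩ := heP E (List.suffix_refl E) hEne
      have hyinv := hy1.inv
      have hyl : σy.Pu.length = P'.length := by
        have h1 := hyinv.hd
        rw [hy2, hEdef, List.cons_append] at h1
        exact (List.cons.inj h1).1.symm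
      have h1 : σy.u :: σy.Pu = y' :: P' := by
        apply CL3_suffix_eq hyinv.suf hs
        simp [hyl]
      obtain ⟨hyu, hyP⟩ : σy.u = y' ∧ σy.Pu = P' := by
        simpa using h1
      -- the world in which `y'` writes
      obtain ⟨b, hb⟩ : ∃ b : Bool, Wr nx (if b then σ.c else σ.c.tail) P' y' y.1 := by
        by_cases h0 : mem (nx w) (hh nx σ.c.tail P' w y'.2) y.1 κ = 0
        · refine ⟨true, ?_⟩
          have h1 : mem (nx w) (hh nx σ.c P' w y'.2) y.1 κ ≠ 0 := by
            rw [← hc] at hm
            rw [h0] at hm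
            exact hm.symm
          obtain ⟨q', hq', v, hv⟩ := wr_of_mem h1
          refine ⟨q', hq', κ, v, ?_⟩
          rw [hw]
          exact hv
        · refine ⟨false, ?_⟩
          obtain ⟨q', hq', v, hv⟩ := wr_of_mem h0
          refine ⟨q', hq', κ, v, ?_⟩
          rw [hw]
          exact hv
      obtain ⟨i, hi⟩ : ∃ i : Ins, i = (σy.st.length - (σ.c :: σ.st.drop k).length, false, b) :=
        ⟨_, rfl⟩
      have hst : st2 σy i = σ.c :: σ.st.drop k := by
        rw [hi]
        unfold st2
        simp only [Bool.false_eq_true, if_false]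
        exact CL3_drop hy3
      have hrmv : rmv σy i = if b then σ.c else σ.c.tail := by
        unfold rmv
        rw [hst, hi]
      refine ⟨E, ?_⟩
      refine Ext.take (i := i) heP hy1 hy2 ?_ ⟨?_, p, by omega, κ, ?_⟩ ?_
      · rw [hi]
        exact Nat.sub_le _ _
      · rw [hrmv, hyu, hyP]
        exact hb
      · rw [hy2, hB, hact', hyu, hw]
      · rw [hst]
    · -- case B2
      obtain ⟨e', he1, he2, he3⟩ := exists_change hB
      obtain ⟨σ', h1, h2, h3⟩ := heP e' he1 he2
      have htail : σ'.c.tail = e'.tail ++ σ.c := by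
        rw [h2]
        cases e' with
        | nil => exact absurd rfl he2
        | cons x l => rfl
      have hk' : σ'.st.length - (σ.c :: σ.st.drop k).length ≤ σ'.st.length := Nat.sub_le _ _
      obtain ⟨e2, he⟩ := ihq p hpq σ' h1 (σ'.st.length - (σ.c :: σ.st.drop k).length) hk' (by omega)
        (by rw [htail, h2]; exact he3)
      rw [CL3_drop h3, h2] at he
      refine ⟨e2 ++ e', ?_⟩
      have := Ext.comp (CL3_ext_suffix (heP.mono (List.suffix_cons y P)) he1) he
      simpa using this

/-- **Module CL4.**  Section 2 of the text, Lemma Q.  Induction on `h`.  `self`: `e = []`,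
`Rch.start`.  `hear`: let `E = P'.length :: e` be the chain to `y'`; if `hh nx E P y.1 q = hh nx [] P y.1 q`
for the step `q` at which `y` hears `y'`: `Ext.take` with `i = (σy.st.length, false, false)`,
`rmv = []`.  Otherwise `exists_change` with `c = []`, `cleanP` with `k = 0` for the chain of `e'`, and
`Ext.comp`. -/
theorem cleanQ {y : Slot n} {P : List (Slot n)} (h : InT nx a y P) :
    ∃ e, Ext nx a (y :: P) [] [] (P.length :: e) := by
  induction h with
  | self y P h =>
    refine ⟨[], ?_⟩
    intro e' h1 h2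
    have h3 : e' = [P.length] := by
      rcases List.suffix_cons_iff.mp h1 with h3 | h3
      · exact h3
      · exact absurd (List.suffix_nil.mp h3) h2
    exact ⟨start y P, Rch.start y P h, by rw [h3]; rfl, List.nil_suffix⟩
  | hear y P y' P' hs hHr _ ih =>
    obtain ⟨e, he⟩ := ih
    obtain ⟨E, hEdef⟩ : ∃ E, E = P'.length :: e := ⟨_, rfl⟩
    rw [← hEdef] at he
    have heP : Ext nx a P [] [] E := he.mono hs
    have hEne : E ≠ [] := by
      rw [hEdef]
      simp
    obtain ⟨p, hp, κ, hact, hm⟩ := hHr
    by_cases hB : hh nx (E ++ []) P y.1 p = hh nx [] P y.1 p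
    · obtain ⟨σy, hy1, hy2, hy3⟩ := heP E (List.suffix_refl E) hEne
      have hyinv := hy1.inv
      have hyl : σy.Pu.length = P'.length := by
        have h1 := hyinv.hd
        rw [hy2, hEdef, List.cons_append] at h1
        exact (List.cons.inj h1).1.symm
      have h1 : σy.u :: σy.Pu = y' :: P' := by
        apply CL3_suffix_eq hyinv.suf hs
        simp [hyl]
      obtain ⟨hyu, hyP⟩ : σy.u = y' ∧ σy.Pu = P' := by
        simpa using h1
      obtain ⟨i, hi⟩ : ∃ i : Ins, i = (σy.st.length, false, false) := ⟨_, rfl⟩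
      have hst : st2 σy i = [] := by
        rw [hi]
        simp [st2]
      have hrmv : rmv σy i = [] := by
        unfold rmv
        rw [hst]
      refine ⟨E, ?_⟩
      refine Ext.take (i := i) heP hy1 hy2 ?_ ⟨?_, p, hp, κ, ?_⟩ ?_
      · rw [hi]
      · rw [hrmv, hyu, hyP]
        obtain ⟨q', hq', v, hv⟩ := wr_of_mem hm
        exact ⟨q', hq', κ, v, hv⟩
      · rw [hy2, hB, hact, hyu]
      · exact List.nil_suffix
    · obtain ⟨e', he1, he2, he3⟩ := exists_change hB
      obtain ⟨σ', h1, h2, h3⟩ := heP e' he1 he2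
      have htail : σ'.c.tail = e'.tail ++ [] := by
        rw [h2]
        cases e' with
        | nil => exact absurd rfl he2
        | cons x l => rfl
      obtain ⟨e2, he⟩ := cleanP σ' h1 σ'.st.length le_rfl y p hp.le
        (by rw [htail, h2]; exact he3)
      rw [List.drop_length, h2] at he
      refine ⟨e2 ++ e', ?_⟩
      have := Ext.comp (CL3_ext_suffix (heP.mono (List.suffix_cons y P)) he1) he
      simpa using this

/-- **Module CL5.**  Induction on `h`, generalizing `f`. -/
theorem cnt_ge {P : List (Slot n)} {σ : St n} (h : Rch nx a P σ) {f : St n → ℝ}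
    (hf : ∀ σ, 0 ≤ f σ) : f σ ≤ cnt nx a P f := by
  have hsum : ∀ (g : St n → ℝ), (∀ σ, 0 ≤ g σ) → ∀ (y : Slot n) (P : List (Slot n)) (σ : St n),
      0 ≤ ∑ i ∈ ins σ, if Ok nx σ i P y then g (nxt σ i P y) else 0 := by
    intro g hg y P σ
    refine Finset.sum_nonneg fun i _ => ?_
    split_ifs
    · exact hg _
    · exact le_rfl
  have hnn : ∀ (P : List (Slot n)) (g : St n → ℝ), (∀ σ, 0 ≤ g σ) → 0 ≤ cnt nx a P g := by
    intro P
    induction P with
    | nil => intro g _; exact le_rfl
    | cons y P ih =>
      intro g hg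
      unfold cnt
      have h1 : (0 : ℝ) ≤ if P.length = a then g (start y P) else 0 := by
        split_ifs
        · exact hg _
        · exact le_rfl
      have h2 := ih (fun σ => g σ + ∑ i ∈ ins σ, if Ok nx σ i P y then g (nxt σ i P y) else 0)
        (fun σ => add_nonneg (hg σ) (hsum g hg y P σ))
      linarith
  induction h generalizing f with
  | start y P hP =>
    unfold cnt
    rw [if_pos hP]
    have h2 := hnn P (fun σ => f σ + ∑ i ∈ ins σ, if Ok nx σ i P y then f (nxt σ i P y) else 0)
      (fun σ => add_nonneg (hf σ) (hsum f hf y P σ))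
    linarith
  | skip y P σ h ih =>
    unfold cnt
    have h1 : (0 : ℝ) ≤ if P.length = a then f (start y P) else 0 := by
      split_ifs
      · exact hf _
      · exact le_rfl
    have h2 := ih (f := fun σ => f σ + ∑ i ∈ ins σ, if Ok nx σ i P y then f (nxt σ i P y) else 0)
      (fun σ => add_nonneg (hf σ) (hsum f hf y P σ))
    have h3 := hsum f hf y P σ
    linarith
  | take y P σ i h hi hok ih =>
    unfold cnt
    have h1 : (0 : ℝ) ≤ if P.length = a then f (start y P) else 0 := by
      split_ifs
      · exact hf _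
      · exact le_rfl
    have h2 := ih (f := fun σ => f σ + ∑ i ∈ ins σ, if Ok nx σ i P y then f (nxt σ i P y) else 0)
      (fun σ => add_nonneg (hf σ) (hsum f hf y P σ))
    have h3 : f (nxt σ i P y) ≤
        ∑ i ∈ ins σ, if Ok nx σ i P y then f (nxt σ i P y) else 0 := by
      have hi' : i ∈ ins σ := by
        unfold ins
        simp only [Finset.mem_product, Finset.mem_range, Finset.mem_univ, and_true]
        omega
      refine le_trans ?_ (Finset.single_le_sum
        (f := fun i => if Ok nx σ i P y then f (nxt σ i P y) else 0) ?_ hi')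
      · rw [if_pos hok]
      · intro j _
        split_ifs
        · exact hf _
        · exact le_rfl
    have h4 := hf σ
    linarith

/-- **Module CL5.**  `cleanQ`, `Rch.last`, `cnt_ge`. -/
theorem eff_le_cnt {y : Slot n} {P : List (Slot n)} (h : InT nx a y P) (ha : a ≠ P.length) :
    (eff P a : ℝ) ≤ cnt nx a P (fun σ => σ.w * ∑ i ∈ ins σ, if Ok nx σ i P y then 1 else 0) := by
  obtain ⟨e, he⟩ := cleanQ h
  obtain ⟨σ', h1, h2, -⟩ := he (P.length :: e) (List.suffix_refl _) (by simp)
  have h3 : σ'.Pu.length = P.length := by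
    have h4 := h1.inv.hd
    rw [h2, List.cons_append] at h4
    exact (List.cons.inj h4).1.symm
  obtain ⟨σ, i, h4, h5, h6, h7⟩ := h1.last h3 ha
  have h8 : ∀ σ : St n, (0 : ℝ) ≤ ∑ i ∈ ins σ, if Ok nx σ i P y then (1 : ℝ) else 0 := by
    intro σ
    refine Finset.sum_nonneg fun i _ => ?_
    split_ifs
    · exact zero_le_one
    · exact le_rfl
  refine le_trans ?_ (cnt_ge h4 (f := fun σ => σ.w * ∑ i ∈ ins σ, if Ok nx σ i P y then 1 else 0)
    (fun σ => mul_nonneg (Nat.cast_nonneg _) (h8 σ)))
  have h9 : (1 : ℝ) ≤ ∑ i ∈ ins σ, if Ok nx σ i P y then (1 : ℝ) else 0 := by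
    have hi' : i ∈ ins σ := by
      unfold ins
      simp only [Finset.mem_product, Finset.mem_range, Finset.mem_univ, and_true]
      omega
    refine le_trans ?_ (Finset.single_le_sum
      (f := fun i => if Ok nx σ i P y then (1 : ℝ) else 0) ?_ hi')
    · rw [if_pos h6]
    · intro j _
      split_ifs
      · exact zero_le_one
      · exact le_rfl
  rw [← h4.inv.w]
  nlinarith [Nat.cast_nonneg (α := ℝ) σ.w]

end Pool.Agent.MP217LB2
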