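import Pool.Agent.MP217LB2.Energy
import Pool.Agent.MP217LB2.Basic

set_option autoImplicit false

/-!
# Sums over chains and over random slots
-/

namespace Pool.Agent.MP217LB2

open Finset
open Pool.Agent.MP217Upper.Model
open scoped Classical

variable {n : ℕ} {nx : Prot n} {a : ℕ}

/-! ### `cnt` (module CN1) -/

theorem cnt_add (P : List (Slot n)) (f g : St n → ℝ) :
    cnt nx a P (fun σ => f σ + g σ) = cnt nx a P f + cnt nx a P g := by
  induction P generalizing f g with
  | nil => simp [cnt]
  | cons y P ih =>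
    simp only [cnt]
    have e : (fun σ : St n => f σ + g σ + ∑ i ∈ ins σ,
        if Ok nx σ i P y then f (nxt σ i P y) + g (nxt σ i P y) else 0) =
        (fun σ => (f σ + ∑ i ∈ ins σ, if Ok nx σ i P y then f (nxt σ i P y) else 0) +
          (g σ + ∑ i ∈ ins σ, if Ok nx σ i P y then g (nxt σ i P y) else 0)) := by
      funext σ
      have h : ∑ i ∈ ins σ, (if Ok nx σ i P y then f (nxt σ i P y) + g (nxt σ i P y) else 0) =
          ∑ i ∈ ins σ, (if Ok nx σ i P y then f (nxt σ i P y) else 0) +
          ∑ i ∈ ins σ, (if Ok nx σ i P y then g (nxt σ i P y) else 0) := by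
        rw [← sum_add_distrib]
        refine sum_congr rfl fun i _ => ?_
        split_ifs <;> simp
      rw [h]
      ring
    rw [e, ih]
    split_ifs <;> ring

theorem cnt_mul (P : List (Slot n)) (x : ℝ) (f : St n → ℝ) :
    cnt nx a P (fun σ => x * f σ) = x * cnt nx a P f := by
  induction P generalizing f with
  | nil => simp [cnt]
  | cons y P ih =>
    simp only [cnt]
    have e : (fun σ : St n => x * f σ + ∑ i ∈ ins σ,
        if Ok nx σ i P y then x * f (nxt σ i P y) else 0) =
        (fun σ => x * (f σ + ∑ i ∈ ins σ, if Ok nx σ i P y then f (nxt σ i P y) else 0)) := by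
      funext σ
      rw [mul_add, mul_sum]
      congr 1
      refine sum_congr rfl fun i _ => ?_
      split_ifs <;> simp
    rw [e, ih]
    split_ifs <;> ring

theorem cnt_sum {κ : Type*} (s : Finset κ) (P : List (Slot n)) (f : κ → St n → ℝ) :
    cnt nx a P (fun σ => ∑ j ∈ s, f j σ) = ∑ j ∈ s, cnt nx a P (f j) := by
  induction s using Finset.induction_on with
  | empty =>
    simp only [sum_empty]
    have h := cnt_mul (nx := nx) (a := a) P 0 (fun _ => 0)
    simpa using h
  | insert j s hj ih =>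
    simp only [sum_insert hj]
    rw [cnt_add, ih]

theorem cnt_of_le {P : List (Slot n)} (h : P.length ≤ a) (f : St n → ℝ) : cnt nx a P f = 0 := by
  induction P generalizing f with
  | nil => rfl
  | cons y P ih =>
    simp only [List.length_cons] at h
    simp only [cnt]
    rw [if_neg (by omega), ih (by omega), add_zero]

/-! ### `Fut` (module FU1) -/

theorem Fut_add (s0 K r : ℕ) (f g : List (Slot n) → ℝ) (P : List (Slot n)) :
    Fut s0 K r (fun P => f P + g P) P = Fut s0 K r f P + Fut s0 K r g P := by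
  induction r generalizing P with
  | zero => rfl
  | succ r ih =>
    simp only [Fut, ih, mul_add, sum_add_distrib]

theorem Fut_mul (s0 K r : ℕ) (x : ℝ) (f : List (Slot n) → ℝ) (P : List (Slot n)) :
    Fut s0 K r (fun P => x * f P) P = x * Fut s0 K r f P := by
  induction r generalizing P with
  | zero => rfl
  | succ r ih =>
    simp only [Fut, ih, mul_sum]
    refine sum_congr rfl fun z _ => sum_congr rfl fun k _ => ?_
    ring

theorem Fut_sum {κ : Type*} (s : Finset κ) (s0 K r : ℕ) (f : κ → List (Slot n) → ℝ)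
    (P : List (Slot n)) :
    Fut s0 K r (fun P => ∑ j ∈ s, f j P) P = ∑ j ∈ s, Fut s0 K r (f j) P := by
  induction s using Finset.induction_on with
  | empty =>
    simp only [sum_empty]
    have h := Fut_mul s0 K r 0 (fun _ => 0) P
    simpa using h
  | insert j s hj ih =>
    simp only [sum_insert hj]
    rw [Fut_add, ih]

/-- Monotonicity; only the lists of the right length matter. -/
theorem Fut_mono {s0 K r : ℕ} {f g : List (Slot n) → ℝ} {P : List (Slot n)}
    (h : ∀ P' : List (Slot n), P'.length = P.length + r → f P' ≤ g P') :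
    Fut s0 K r f P ≤ Fut s0 K r g P := by
  induction r generalizing P with
  | zero => exact h P rfl
  | succ r ih =>
    simp only [Fut]
    refine sum_le_sum fun z _ => sum_le_sum fun k _ => mul_le_mul_of_nonneg_left ?_ (rho_nonneg s0 K k)
    refine ih fun P' hP' => h P' ?_
    rw [hP', List.length_cons]
    omega

theorem Fut_const {s0 K : ℕ} (hn : 0 < n) (hs0 : 1 ≤ s0) (hK : 1 ≤ K) (r : ℕ) (x : ℝ)
    (P : List (Slot n)) : Fut s0 K r (fun _ => x) P = x := by
  induction r generalizing P with
  | zero => rfl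
  | succ r ih =>
    simp only [Fut, ih]
    have h := sum_rho s0 K hn hs0 hK
    calc ∑ _z : Fin n, ∑ k ∈ range K, rho n s0 K k * x
        = (∑ _z : Fin n, ∑ k ∈ range K, rho n s0 K k) * x := by
          rw [sum_mul]
          refine sum_congr rfl fun z _ => ?_
          rw [sum_mul]
      _ = x := by rw [h, one_mul]

/-- A sum over the slots: if `f (y :: P) = f P + g y P`, the expectation of `f` is the sum of the
expectations of `g`.  Induction on `r`. -/
theorem Fut_step {s0 K : ℕ} (hn : 0 < n) (hs0 : 1 ≤ s0) (hK : 1 ≤ K) (f : List (Slot n) → ℝ)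
    (g : Slot n → List (Slot n) → ℝ) (hf : ∀ y P, f (y :: P) = f P + g y P) (r : ℕ)
    (P : List (Slot n)) :
    Fut s0 K r f P = f P + ∑ t ∈ range r, Fut s0 K t (fun P' => ∑ z : Fin n, ∑ k ∈ range K,
      rho n s0 K k * g (z, sc s0 k) P') P := by
  induction r generalizing P with
  | zero => simp [Fut]
  | succ r ih =>
    rw [sum_range_succ']
    show ∑ z : Fin n, ∑ k ∈ range K, rho n s0 K k * Fut s0 K r f ((z, sc s0 k) :: P) =
      f P + (∑ t ∈ range r, (∑ z' : Fin n, ∑ k' ∈ range K, rho n s0 K k' *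
        Fut s0 K t (fun P' => ∑ z : Fin n, ∑ k ∈ range K, rho n s0 K k * g (z, sc s0 k) P')
          ((z', sc s0 k') :: P)) +
        ∑ z : Fin n, ∑ k ∈ range K, rho n s0 K k * g (z, sc s0 k) P)
    have h1 : ∀ (z : Fin n) (k : ℕ), rho n s0 K k * Fut s0 K r f ((z, sc s0 k) :: P) =
        rho n s0 K k * f P + (∑ t ∈ range r, rho n s0 K k *
          Fut s0 K t (fun P' => ∑ z : Fin n, ∑ k ∈ range K, rho n s0 K k * g (z, sc s0 k) P')
          ((z, sc s0 k) :: P)) + rho n s0 K k * g (z, sc s0 k) P := by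
      intro z k
      rw [ih, hf, ← mul_sum]
      ring
    have h2 : ∑ z : Fin n, ∑ k ∈ range K, rho n s0 K k * f P = f P := by
      have h := sum_rho (n := n) s0 K hn hs0 hK
      calc ∑ _z : Fin n, ∑ k ∈ range K, rho n s0 K k * f P
          = (∑ _z : Fin n, ∑ k ∈ range K, rho n s0 K k) * f P := by
            rw [sum_mul]
            refine sum_congr rfl fun z _ => ?_
            rw [sum_mul]
        _ = f P := by rw [h, one_mul]
    simp only [h1, sum_add_distrib]
    rw [h2]
    have h3 : ∑ z : Fin n, ∑ k ∈ range K, ∑ t ∈ range r, rho n s0 K k *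
          Fut s0 K t (fun P' => ∑ z : Fin n, ∑ k ∈ range K, rho n s0 K k * g (z, sc s0 k) P')
          ((z, sc s0 k) :: P) = ∑ t ∈ range r, ∑ z' : Fin n, ∑ k' ∈ range K, rho n s0 K k' *
        Fut s0 K t (fun P' => ∑ z : Fin n, ∑ k ∈ range K, rho n s0 K k * g (z, sc s0 k) P')
          ((z', sc s0 k') :: P) := by
      rw [sum_comm (s := range r)]
      refine sum_congr rfl fun z _ => ?_
      rw [sum_comm]
    rw [h3]
    ring

/-! ### Total effort and collisions (module FU2) -/

theorem tot_nonneg (P : List (Slot n)) : 0 ≤ tot P := by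
  induction P with
  | nil => exact le_refl _
  | cons y P ih =>
    simp only [tot]
    positivity

theorem nd_nonneg (P : List (Slot n)) : 0 ≤ nd P := by
  induction P with
  | nil => exact le_refl _
  | cons y P ih =>
    simp only [nd]
    positivity

theorem one_le_nd {P : List (Slot n)} (h : ¬ (P.map Prod.fst).Nodup) : 1 ≤ nd P := by
  induction P with
  | nil => exact absurd List.nodup_nil h
  | cons y P ih =>
    simp only [nd]
    by_cases hP : (P.map Prod.fst).Nodup
    · have h1 : y.1 ∈ P.map Prod.fst := by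
        by_contra h2
        apply h
        rw [List.map_cons, List.nodup_cons]
        exact ⟨h2, hP⟩
      have h3 : 1 ≤ (P.map Prod.fst).count y.1 := List.one_le_count_iff.mpr h1
      have h4 : (1 : ℝ) ≤ ((P.map Prod.fst).count y.1 : ℝ) := by exact_mod_cast h3
      have h5 := nd_nonneg P
      linarith
    · have h3 := ih hP
      have h4 : (0 : ℝ) ≤ ((P.map Prod.fst).count y.1 : ℝ) := Nat.cast_nonneg _
      linarith

theorem Fut_tot {s0 K : ℕ} (hn : 0 < n) (hs0 : 1 ≤ s0) (hK : 1 ≤ K) (r : ℕ) :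
    Fut (n := n) s0 K r tot [] = r * (c0 s0 K * K) := by
  rw [Fut_step hn hs0 hK tot (fun y _ => (y.2 : ℝ)) (fun y P => rfl)]
  have h := sum_rho_sc (n := n) s0 K hn hs0
  have e : (fun P' : List (Slot n) => ∑ z : Fin n, ∑ k ∈ range K, rho n s0 K k *
      (((z, sc s0 k) : Slot n).2 : ℝ)) = (fun _ => c0 s0 K * K) := by
    funext P'
    exact h
  rw [e]
  simp only [Fut_const hn hs0 hK, sum_const, card_range, nsmul_eq_mul]
  simp [tot]

private theorem FU2_count (l : List (Fin n)) : ∑ z : Fin n, (l.count z : ℝ) = l.length := by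
  induction l with
  | nil => simp
  | cons x l ih =>
    simp only [List.count_cons, Nat.cast_add, sum_add_distrib, ih, List.length_cons]
    simp

private theorem FU2_gen {s0 K : ℕ} (hn : 0 < n) (hs0 : 1 ≤ s0) (hK : 1 ≤ K) (r : ℕ)
    (P : List (Slot n)) : Fut (n := n) s0 K r (fun P => tot P * nd P) P =
      (tot P + r * (c0 s0 K * K)) * (nd P + r * P.length / n + r * (r - 1) / (2 * n)) := by
  have hn' : (n : ℝ) ≠ 0 := by positivity
  have a1 : ∑ k ∈ range K, rho n s0 K k = 1 / n := by
    have h := sum_rho (n := n) s0 K hn hs0 hK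
    rw [sum_const, card_univ, Fintype.card_fin, nsmul_eq_mul] at h
    field_simp
    linarith
  have a2 : ∑ k ∈ range K, rho n s0 K k * sc s0 k = c0 s0 K * K / n := by
    have h := sum_rho_sc (n := n) s0 K hn hs0
    rw [sum_const, card_univ, Fintype.card_fin, nsmul_eq_mul] at h
    field_simp
    linarith
  induction r generalizing P with
  | zero => simp [Fut]
  | succ r ih =>
    simp only [Fut, ih]
    have e : ∀ (z : Fin n) (k : ℕ), rho n s0 K k * ((tot ((z, sc s0 k) :: P) + r * (c0 s0 K * K)) *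
        (nd ((z, sc s0 k) :: P) + r * (((z, sc s0 k) :: P).length : ℝ) / n +
          r * (r - 1) / (2 * n))) =
        (nd P + ((P.map Prod.fst).count z : ℝ) + r * (P.length + 1) / n + r * (r - 1) / (2 * n)) *
        (rho n s0 K k * (tot P + r * (c0 s0 K * K)) + rho n s0 K k * sc s0 k) := by
      intro z k
      simp only [tot, nd, List.length_cons, Nat.cast_add, Nat.cast_one]
      ring
    simp only [e, ← mul_sum, sum_add_distrib, ← sum_mul, a1, a2]
    rw [FU2_count]
    simp only [sum_const, card_univ, Fintype.card_fin, nsmul_eq_mul, List.length_map]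
    push_cast
    field_simp
    ring

/-- By induction on `r`, for all `P`: `Fut s0 K r (tot * nd) P =
(tot P + r * (c0 * K)) * (nd P + r * P.length / n + r * (r - 1) / (2 * n))`. -/
theorem Fut_tot_nd {s0 K : ℕ} (hn : 0 < n) (hs0 : 1 ≤ s0) (hK : 1 ≤ K) (r : ℕ) :
    Fut (n := n) s0 K r (fun P => tot P * nd P) [] ≤
      (r * (c0 s0 K * K)) * ((r : ℝ) ^ 2 / (2 * n)) := by
  rw [FU2_gen hn hs0 hK]
  have h0 := c0_nonneg s0 K
  simp only [tot, nd, List.length_nil, Nat.cast_zero, mul_zero, zero_div, zero_add, add_zero]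
  refine mul_le_mul_of_nonneg_left ?_ (by positivity)
  gcongr
  nlinarith [(Nat.cast_nonneg r : (0 : ℝ) ≤ r)]

/-! ### The expected number of chains -/

/-- **Module FA1.**  Induction on `r`; linearity of `cnt`. -/
theorem Fut_cnt {s0 K s : ℕ} (r : ℕ) (P : List (Slot n)) (ha : a < P.length) :
    Fut s0 K r (fun P' => cnt nx a P' (fun σ => σ.w * V nx s0 K s 0 σ P')) P =
      cnt nx a P (fun σ => σ.w * V nx s0 K s r σ P) := by
  induction r generalizing P with
  | zero => rfl
  | succ r ih =>
    simp only [Fut]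
    have e1 : ∀ (z : Fin n) (k : ℕ), Fut s0 K r (fun P' => cnt nx a P'
        (fun σ => σ.w * V nx s0 K s 0 σ P')) ((z, sc s0 k) :: P) =
        cnt nx a P (fun σ => σ.w * V nx s0 K s r σ ((z, sc s0 k) :: P) +
          ∑ i ∈ ins σ, if Ok nx σ i P (z, sc s0 k) then
            σ.w * V nx s0 K s r (nxt σ i P (z, sc s0 k)) ((z, sc s0 k) :: P) else 0) := by
      intro z k
      rw [ih _ (by rw [List.length_cons]; omega)]
      simp only [cnt]
      rw [if_neg (by omega), zero_add]
      rfl
    simp only [e1]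
    have e2 : (fun σ : St n => (σ.w : ℝ) * V nx s0 K s (r + 1) σ P) =
        (fun σ => ∑ z : Fin n, ∑ k ∈ range K, rho n s0 K k *
          (σ.w * V nx s0 K s r σ ((z, sc s0 k) :: P) +
          ∑ i ∈ ins σ, if Ok nx σ i P (z, sc s0 k) then
            σ.w * V nx s0 K s r (nxt σ i P (z, sc s0 k)) ((z, sc s0 k) :: P) else 0)) := by
      funext σ
      simp only [V]
      rw [mul_sum]
      refine sum_congr rfl fun z _ => ?_
      rw [mul_sum]
      refine sum_congr rfl fun k _ => ?_
      have e3 : ∑ i ∈ ins σ, (if Ok nx σ i P (z, sc s0 k) then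
            σ.w * V nx s0 K s r (nxt σ i P (z, sc s0 k)) ((z, sc s0 k) :: P) else 0) =
          (σ.w : ℝ) * ∑ i ∈ ins σ, (if Ok nx σ i P (z, sc s0 k) then
            V nx s0 K s r (nxt σ i P (z, sc s0 k)) ((z, sc s0 k) :: P) else 0) := by
        rw [mul_sum]
        refine sum_congr rfl fun i _ => ?_
        split_ifs <;> simp
      rw [e3]
      ring
    rw [e2, cnt_sum]
    refine sum_congr rfl fun z _ => ?_
    rw [cnt_sum]
    refine sum_congr rfl fun k _ => ?_
    rw [cnt_mul]

private theorem FA2_Rd (c : List ℕ) (P P' : List (Slot n)) (h : mw nx c P = mw nx c P')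
    (y : Slot n) (ζ : Fin n) : Rd nx c P y ζ ↔ Rd nx c P' y ζ := by
  unfold Rd hh
  rw [h]

private theorem FA2_pow (m : ℕ) : m + 1 ≤ 2 ^ m := Nat.lt_two_pow_self

/-- **Module FA2.**  The case `r = 0` of the next theorem.  For a fixed instruction `i` use
`energy_last` with `W h = {w | Wr nx (rmv (σ h) i) (σ h).Pu (σ h).u w}` and
`R w = {ζ | Rd nx c (P h) (w, s) ζ}` (independent of `h` by `hμ`; `card_Rd`), and there are at most
`4 * (st.length + 1) ≤ 12 * 2 ^ st.length` instructions. -/
theorem fam_zero {ι : Type} [Fintype ι] (s0 K s : ℕ) (hn : 0 < n) (u : ι → ℝ)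
    (hu : ∀ h, 0 ≤ u h) (P : ι → List (Slot n)) (σ : ι → St n) (c : List ℕ) (st : List (List ℕ))
    (μ : Fin n → Fin n → ℕ → ℕ) (hc : ∀ h, (σ h).c = c) (hst : ∀ h, (σ h).st = st)
    (hμ : ∀ h, mw nx c (P h) = μ) :
    ∑ h, u h * V nx s0 K s 0 (σ h) (P h) ≤ 12 * 2 ^ st.length *
      (1 / n * √((n : ℝ) * s)) * √(Qf u (fun h => (σ h).u.1) (fun h => (σ h).u.2)) := by
  have hQ := Qf_nonneg hu (fun h => (σ h).u.1) (fun h => (σ h).u.2)
  rcases isEmpty_or_nonempty ι with hE | ⟨⟨h0⟩⟩
  · rw [Finset.univ_eq_empty, sum_empty]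
    positivity
  have hins : ∀ h, ins (σ h) = Finset.range (st.length + 1) ×ˢ
      ((Finset.univ : Finset Bool) ×ˢ (Finset.univ : Finset Bool)) := fun h => by
    unfold ins
    rw [hst h]
  have h1 : ∑ h, u h * V nx s0 K s 0 (σ h) (P h) = (1 / n : ℝ) *
      ∑ i ∈ Finset.range (st.length + 1) ×ˢ
        ((Finset.univ : Finset Bool) ×ˢ (Finset.univ : Finset Bool)),
        ∑ w : Fin n, ∑ h, (if Ok nx (σ h) i (P h) (w, s) then u h else 0) := by
    calc ∑ h, u h * V nx s0 K s 0 (σ h) (P h) = ∑ h, (1 / n : ℝ) * ∑ w : Fin n,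
          ∑ i ∈ Finset.range (st.length + 1) ×ˢ
          ((Finset.univ : Finset Bool) ×ˢ (Finset.univ : Finset Bool)),
          (if Ok nx (σ h) i (P h) (w, s) then u h else 0) := by
          refine sum_congr rfl fun h _ => ?_
          simp only [V, hins]
          rw [← mul_assoc, mul_comm (u h), mul_assoc, mul_sum]
          congr 1
          refine sum_congr rfl fun w _ => ?_
          rw [mul_sum]
          refine sum_congr rfl fun i _ => ?_
          split_ifs <;> simp
      _ = _ := by
          rw [← mul_sum]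
          congr 1
          rw [sum_comm]
          calc _ = ∑ w : Fin n, ∑ i ∈ Finset.range (st.length + 1) ×ˢ
                ((Finset.univ : Finset Bool) ×ˢ (Finset.univ : Finset Bool)),
                ∑ h, (if Ok nx (σ h) i (P h) (w, s) then u h else 0) := by
                refine sum_congr rfl fun w _ => ?_
                rw [sum_comm]
            _ = _ := by rw [sum_comm]
  have h2 : ∀ i : Ins, ∑ w : Fin n, ∑ h, (if Ok nx (σ h) i (P h) (w, s) then u h else 0) ≤
      √((n : ℝ) * s) * √(Qf u (fun h => (σ h).u.1) (fun h => (σ h).u.2)) := by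
    intro i
    have h3 := energy_last u hu (fun h => (σ h).u.1) (fun h => (σ h).u.2)
      (fun h => univ.filter (fun w => Wr nx (rmv (σ h) i) (σ h).Pu (σ h).u w))
      (fun h => card_Wr (rmv (σ h) i) (σ h).Pu (σ h).u)
      (fun w => univ.filter (fun ζ => Rd nx c (P h0) (w, s) ζ)) s
      (fun w => card_Rd c (P h0) (w, s))
    refine le_trans (le_of_eq ?_) h3
    refine sum_congr rfl fun w _ => sum_congr rfl fun h _ => ?_
    have e : (w ∈ univ.filter (fun w => Wr nx (rmv (σ h) i) (σ h).Pu (σ h).u w) ∧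
        (σ h).u.1 ∈ univ.filter (fun ζ => Rd nx c (P h0) (w, s) ζ)) ↔
        Ok nx (σ h) i (P h) (w, s) := by
      simp only [mem_filter, mem_univ, true_and]
      unfold Ok
      rw [hc h, FA2_Rd c (P h) (P h0) ((hμ h).trans (hμ h0).symm)]
    by_cases hO : Ok nx (σ h) i (P h) (w, s)
    · rw [if_pos hO, if_pos (e.mpr hO)]
    · rw [if_neg hO, if_neg (fun hh => hO (e.mp hh))]
  rw [h1]
  have h4 : ∑ i ∈ Finset.range (st.length + 1) ×ˢ
        ((Finset.univ : Finset Bool) ×ˢ (Finset.univ : Finset Bool)),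
        ∑ w : Fin n, ∑ h, (if Ok nx (σ h) i (P h) (w, s) then u h else 0) ≤
      (12 * 2 ^ st.length) * (√((n : ℝ) * s) *
        √(Qf u (fun h => (σ h).u.1) (fun h => (σ h).u.2))) := by
    refine (sum_le_card_nsmul _ _ _ (fun i _ => h2 i)).trans ?_
    rw [nsmul_eq_mul]
    refine mul_le_mul_of_nonneg_right ?_ (by positivity)
    have h5 : (Finset.range (st.length + 1) ×ˢ
        ((Finset.univ : Finset Bool) ×ˢ (Finset.univ : Finset Bool))).card ≤
        12 * 2 ^ st.length := by
      rw [card_product, card_product, card_range, card_univ, Fintype.card_bool]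
      have := FA2_pow st.length
      omega
    exact_mod_cast h5
  calc (1 / n : ℝ) * _ ≤ (1 / n : ℝ) * ((12 * 2 ^ st.length) * (√((n : ℝ) * s) *
        √(Qf u (fun h => (σ h).u.1) (fun h => (σ h).u.2)))) :=
        mul_le_mul_of_nonneg_left h4 (by positivity)
    _ = _ := by ring

private theorem FA3_card_read (g : ℕ → Act n) (s : ℕ) :
    (Finset.univ.filter (fun ζ : Fin n => ∃ q, q < s ∧ ∃ k, g q = .read ζ k)).card ≤ s := by
  have h : Finset.univ.filter (fun ζ : Fin n => ∃ q, q < s ∧ ∃ k, g q = .read ζ k) ⊆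
      (Finset.range s).biUnion (fun q => match g q with
        | .read ζ _ => {ζ}
        | _ => ∅) := by
    intro ζ hζ
    simp only [Finset.mem_filter, Finset.mem_univ, true_and] at hζ
    obtain ⟨q, hq, k, hk⟩ := hζ
    rw [Finset.mem_biUnion]
    refine ⟨q, Finset.mem_range.mpr hq, ?_⟩
    rw [hk]
    simp
  refine (Finset.card_le_card h).trans ?_
  refine Finset.card_biUnion_le.trans ?_
  calc ∑ q ∈ Finset.range s, (match g q with
        | .read ζ _ => ({ζ} : Finset (Fin n))
        | _ => ∅).card ≤ ∑ _q ∈ Finset.range s, 1 := by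
        refine Finset.sum_le_sum fun q _ => ?_
        cases g q <;> simp
    _ = s := by simp

private theorem FA3_rho (s0 K k : ℕ) : rho n s0 K k = (c0 s0 K / n) / (sc s0 k : ℝ) := by
  unfold rho
  rw [div_div, mul_comm (n : ℝ)]

private theorem FA3_pow_sum (L : ℕ) :
    ∑ i ∈ Finset.range (L + 1) ×ˢ ((Finset.univ : Finset Bool) ×ˢ (Finset.univ : Finset Bool)),
      (2 : ℝ) ^ ((L - i.1) + if i.2.1 then 1 else 0) ≤ 12 * 2 ^ L := by
  rw [Finset.sum_product]
  have h1 : ∀ p ∈ Finset.range (L + 1), ∑ y ∈ (Finset.univ : Finset Bool) ×ˢ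
      (Finset.univ : Finset Bool), (2 : ℝ) ^ ((L - p) + if y.1 then 1 else 0) =
      6 * 2 ^ (L - p) := by
    intro p _
    rw [Finset.sum_product]
    simp
    ring
  simp only
  rw [Finset.sum_congr rfl h1, ← Finset.mul_sum]
  have h2 : ∑ p ∈ Finset.range (L + 1), (2 : ℝ) ^ (L - p) = 2 ^ (L + 1) - 1 := by
    have h3 := Finset.sum_range_reflect (fun p => (2 : ℝ) ^ p) (L + 1)
    have h4 : ∑ p ∈ Finset.range (L + 1), (2 : ℝ) ^ (L - p) =
        ∑ p ∈ Finset.range (L + 1), (2 : ℝ) ^ (L + 1 - 1 - p) := by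
      refine Finset.sum_congr rfl fun p _ => ?_
      simp
    rw [h4, h3]
    have := geom_sum_eq (x := (2 : ℝ)) (by norm_num) (L + 1)
    rw [this]
    norm_num
  rw [h2, pow_succ]
  have : (0 : ℝ) < 2 ^ L := by positivity
  linarith

/-- **Module FA3.**  The family bound.  Induction on `r`.  `r + 1`: the sum is
`∑ z k, rho k * ∑ h, u h * V r (σ h) ((z, s k) :: P h)`, to which the induction hypothesis applies
(`mw nx c ((z, s k) :: P h)` does not depend on `h`: unfold `mw`, `L ∉ c`), plus, for every instruction `i`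
(with `i.1 ≤ st.length`), the sum over the family `ι × Fin n × Fin K` with the weights
`if Ok .. then u h * rho k else 0`, the lists `(z, s k) :: P h`, the chains `nxt (σ h) i (P h) (z, s k)`,
`L :: c`, the stack `st2` of length at most `st.length - i.1 + [i.2.1]`; its energy is at most
`12 * (c0 / n) ^ 2 * Qf ..` by `energy_take` with `x = c0 / n`, `√12 ≤ 4`.  Finally
`∑ i, 2 ^ (length of the new stack) ≤ 12 * 2 ^ st.length`, so the factor is `1 + 12 * 4 * c0 / n`. -/
theorem fam {ι : Type} [Fintype ι] (s0 K s : ℕ) (hn : 0 < n) (hs0 : 1 ≤ s0) (hK : 1 ≤ K) (r : ℕ)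
    (u : ι → ℝ) (hu : ∀ h, 0 ≤ u h) (P : ι → List (Slot n)) (σ : ι → St n) (L : ℕ) (c : List ℕ)
    (st : List (List ℕ)) (μ : Fin n → Fin n → ℕ → ℕ) (hL : ∀ h, (P h).length = L)
    (hc : ∀ h, (σ h).c = c) (hst : ∀ h, (σ h).st = st) (hcL : ∀ j ∈ c, j < L)
    (hμ : ∀ h, mw nx c (P h) = μ) :
    ∑ h, u h * V nx s0 K s r (σ h) (P h) ≤ 12 * 2 ^ st.length *
      (1 + 48 * c0 s0 K / n) ^ r * (1 / n * √((n : ℝ) * s)) *
        √(Qf u (fun h => (σ h).u.1) (fun h => (σ h).u.2)) := by
  revert ι
  induction r generalizing L c st μ with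
  | zero =>
    intro ι _ u hu P σ hL hc hst hμ
    have := fam_zero s0 K s hn u hu P σ c st μ hc hst hμ
    simpa using this
  | succ r ih =>
    intro ι _ u hu P σ hL hc hst hμ
    have hc0 := c0_nonneg s0 K
    have hn' : (0 : ℝ) < n := by exact_mod_cast hn
    obtain ⟨Q, hQ⟩ : ∃ Q, Q = √(Qf u (fun h => (σ h).u.1) (fun h => (σ h).u.2)) := ⟨_, rfl⟩
    obtain ⟨D, hD⟩ : ∃ D, D = (1 + 48 * c0 s0 K / n) ^ r * (1 / (n : ℝ) * √((n : ℝ) * s)) :=
      ⟨_, rfl⟩
    have hD0 : 0 ≤ D := by
      rw [hD]
      positivity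
    have hQ0 : 0 ≤ Q := by
      rw [hQ]
      positivity
    -- the skipped slots
    have hskip : ∀ (z : Fin n) (k : ℕ), ∑ h, u h * V nx s0 K s r (σ h) ((z, sc s0 k) :: P h) ≤
        12 * 2 ^ st.length * D * Q := by
      intro z k
      have h1 := ih (L + 1) c st (fun w r' k' => μ w r' k' + (if w = z then
        mem (nx z) (MP217LB2.hst (nx z) z (fun w' k' => μ w' z k') (sc s0 k)) r' k' else 0))
        (fun j hj => Nat.lt_succ_of_lt (hcL j hj)) u hu (fun h => (z, sc s0 k) :: P h) σ
        (fun h => by simp [hL h]) hc hst (by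
          intro h
          have h2 : (P h).length ∉ c := by
            intro h3
            have := hcL _ h3
            have := hL h
            omega
          rw [mw, if_neg h2, hμ h])
      rw [hD, hQ]
      simpa [mul_assoc] using h1
    -- the slots which are taken
    obtain ⟨I, hI⟩ : ∃ I : Finset Ins, I = Finset.range (st.length + 1) ×ˢ
      ((Finset.univ : Finset Bool) ×ˢ (Finset.univ : Finset Bool)) := ⟨_, rfl⟩
    have hins : ∀ h, ins (σ h) = I := by
      intro h
      rw [hI, ins, hst h]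
    have htake : ∀ i ∈ I, ∑ p : ι × Fin n × Fin K,
        (if Ok nx (σ p.1) i (P p.1) (p.2.1, sc s0 p.2.2) then u p.1 * rho n s0 K p.2.2 else 0) *
          V nx s0 K s r (nxt (σ p.1) i (P p.1) (p.2.1, sc s0 p.2.2))
            ((p.2.1, sc s0 p.2.2) :: P p.1) ≤
        12 * 2 ^ ((st.length - i.1) + if i.2.1 then 1 else 0) * D * (4 * (c0 s0 K / n) * Q) := by
      intro i hi
      obtain ⟨st', hst'⟩ : ∃ st', st' = if i.2.1 then c :: st.drop i.1 else st.drop i.1 :=
        ⟨_, rfl⟩
      have hlen : st'.length = (st.length - i.1) + if i.2.1 then 1 else 0 := by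
        rw [hst']
        split_ifs <;> simp
      have h1 := ih (L + 1) (L :: c) st' μ (by
          intro j hj
          rcases List.mem_cons.mp hj with h2 | h2
          · omega
          · exact Nat.lt_succ_of_lt (hcL j h2))
        (fun p : ι × Fin n × Fin K => if Ok nx (σ p.1) i (P p.1) (p.2.1, sc s0 p.2.2) then
          u p.1 * rho n s0 K p.2.2 else 0)
        (by
          intro p
          split_ifs
          · exact mul_nonneg (hu _) (rho_nonneg _ _ _)
          · exact le_rfl)
        (fun p => (p.2.1, sc s0 p.2.2) :: P p.1)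
        (fun p => nxt (σ p.1) i (P p.1) (p.2.1, sc s0 p.2.2))
        (fun p => by simp [hL p.1])
        (fun p => by
          show (P p.1).length :: (σ p.1).c = L :: c
          rw [hL, hc])
        (fun p => by
          show st2 (σ p.1) i = st'
          rw [st2, hst', hc, hst])
        (by
          intro p
          have h2 : (P p.1).length ∈ L :: c := by
            rw [hL]
            exact List.mem_cons_self
          rw [mw, if_pos h2, ← hμ p.1]
          apply mw_congr
          intro j hj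
          rw [hL] at hj
          constructor
          · intro h3
            rcases List.mem_cons.mp h3 with h4 | h4
            · omega
            · exact h4
          · exact fun h3 => List.mem_cons_of_mem _ h3)
      refine h1.trans ?_
      rw [hlen]
      -- the energy of the new family
      have hE := energy_take (n := n) s0 K hs0 u hu (fun h => (σ h).u.1) (fun h => (σ h).u.2)
        (fun h => Finset.univ.filter (fun z => Wr nx (rmv (σ h) i) (σ h).Pu (σ h).u z))
        (fun h => card_Wr _ _ _)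
        (fun w k => Finset.univ.filter (fun ζ => ∃ q, q < sc s0 k ∧ ∃ k',
          nx w (MP217LB2.hst (nx w) w (fun w' k' => μ w' w k') q) = .read ζ k'))
        (fun w k _ => FA3_card_read _ _)
        (fun w k l hkl => by
          intro ζ hζ
          simp only [Finset.mem_filter, Finset.mem_univ, true_and] at hζ ⊢
          obtain ⟨q, hq, k', hk'⟩ := hζ
          refine ⟨q, lt_of_lt_of_le hq ?_, k', hk'⟩
          unfold sc
          exact Nat.mul_le_mul_left _ (Nat.pow_le_pow_right (by norm_num) hkl))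
        (c0 s0 K / n) (by positivity)
      have hfun : (fun p : ι × Fin n × Fin K =>
          if Ok nx (σ p.1) i (P p.1) (p.2.1, sc s0 p.2.2) then
          u p.1 * rho n s0 K p.2.2 else 0) =
          (fun p : ι × Fin n × Fin K => if p.2.1 ∈ Finset.univ.filter
            (fun z => Wr nx (rmv (σ p.1) i) (σ p.1).Pu (σ p.1).u z) ∧
            (σ p.1).u.1 ∈ Finset.univ.filter (fun ζ => ∃ q, q < sc s0 p.2.2 ∧ ∃ k',
            nx p.2.1 (MP217LB2.hst (nx p.2.1) p.2.1 (fun w' k' => μ w' p.2.1 k') q) = .read ζ k') then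
            u p.1 * (c0 s0 K / n / (sc s0 p.2.2 : ℝ)) else 0) := by
        funext p
        have h2 : Ok nx (σ p.1) i (P p.1) (p.2.1, sc s0 p.2.2) ↔
            (p.2.1 ∈ Finset.univ.filter
              (fun z => Wr nx (rmv (σ p.1) i) (σ p.1).Pu (σ p.1).u z) ∧
            (σ p.1).u.1 ∈ Finset.univ.filter (fun ζ => ∃ q, q < sc s0 p.2.2 ∧ ∃ k',
            nx p.2.1 (MP217LB2.hst (nx p.2.1) p.2.1 (fun w' k' => μ w' p.2.1 k') q) = .read ζ k')) := by
          unfold Ok Rd hh
          simp only [Finset.mem_filter, Finset.mem_univ, true_and]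
          rw [hc, hμ]
        rw [FA3_rho]
        simp only [h2]
      have hQ2 : √(Qf (fun p : ι × Fin n × Fin K =>
          if Ok nx (σ p.1) i (P p.1) (p.2.1, sc s0 p.2.2) then
          u p.1 * rho n s0 K p.2.2 else 0)
          (fun p => (nxt (σ p.1) i (P p.1) (p.2.1, sc s0 p.2.2)).u.1)
          (fun p => (nxt (σ p.1) i (P p.1) (p.2.1, sc s0 p.2.2)).u.2)) ≤
          4 * (c0 s0 K / n) * Q := by
        rw [hfun]
        refine (Real.sqrt_le_sqrt hE).trans ?_
        have h3 := Qf_nonneg hu (fun h => (σ h).u.1) (fun h => (σ h).u.2)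
        rw [hQ, Real.sqrt_mul (by positivity)]
        refine mul_le_mul_of_nonneg_right ?_ (Real.sqrt_nonneg _)
        apply Real.sqrt_le_iff.mpr
        constructor
        · positivity
        · have : 0 ≤ (c0 s0 K / n) ^ 2 := by positivity
          nlinarith
      calc _ ≤ 12 * 2 ^ ((st.length - i.1) + if i.2.1 then 1 else 0) *
            (1 + 48 * c0 s0 K / ↑n) ^ r * (1 / ↑n * √(↑n * ↑s)) *
              (4 * (c0 s0 K / n) * Q) := by
            refine mul_le_mul_of_nonneg_left hQ2 ?_
            positivity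
        _ = _ := by
            rw [hD]
            ring
    -- assembly
    have hsum : ∑ h, u h * V nx s0 K s (r + 1) (σ h) (P h) =
        ∑ z : Fin n, ∑ k ∈ range K, rho n s0 K k *
          (∑ h, u h * V nx s0 K s r (σ h) ((z, sc s0 k) :: P h)) +
        ∑ i ∈ I, ∑ p : ι × Fin n × Fin K,
          (if Ok nx (σ p.1) i (P p.1) (p.2.1, sc s0 p.2.2) then
            u p.1 * rho n s0 K p.2.2 else 0) *
          V nx s0 K s r (nxt (σ p.1) i (P p.1) (p.2.1, sc s0 p.2.2))
            ((p.2.1, sc s0 p.2.2) :: P p.1) := by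
      have e1 : ∀ h, u h * V nx s0 K s (r + 1) (σ h) (P h) =
          ∑ z : Fin n, ∑ k ∈ range K, rho n s0 K k *
            (u h * V nx s0 K s r (σ h) ((z, sc s0 k) :: P h)) +
          ∑ i ∈ I, ∑ z : Fin n, ∑ k ∈ range K,
            (if Ok nx (σ h) i (P h) (z, sc s0 k) then u h * rho n s0 K k else 0) *
              V nx s0 K s r (nxt (σ h) i (P h) (z, sc s0 k)) ((z, sc s0 k) :: P h) := by
        intro h
        rw [Finset.sum_comm (s := I), V, ← Finset.sum_add_distrib, Finset.mul_sum]
        refine Finset.sum_congr rfl fun z _ => ?_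
        rw [Finset.sum_comm (s := I), ← Finset.sum_add_distrib, Finset.mul_sum]
        refine Finset.sum_congr rfl fun k _ => ?_
        rw [hins h, mul_add, mul_add, Finset.mul_sum, Finset.mul_sum]
        congr 1
        · ring
        · refine Finset.sum_congr rfl fun i _ => ?_
          split_ifs
          · ring
          · ring
      rw [Finset.sum_congr rfl fun h _ => e1 h, Finset.sum_add_distrib]
      congr 1
      · rw [Finset.sum_comm]
        refine Finset.sum_congr rfl fun z _ => ?_
        rw [Finset.sum_comm]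
        refine Finset.sum_congr rfl fun k _ => ?_
        rw [Finset.mul_sum]
      · rw [Finset.sum_comm]
        refine Finset.sum_congr rfl fun i _ => ?_
        rw [Fintype.sum_prod_type]
        refine Finset.sum_congr rfl fun h _ => ?_
        rw [Fintype.sum_prod_type]
        refine Finset.sum_congr rfl fun z _ => ?_
        rw [← Fin.sum_univ_eq_sum_range (fun k =>
          (if Ok nx (σ h) i (P h) (z, sc s0 k) then u h * rho n s0 K k else 0) *
              V nx s0 K s r (nxt (σ h) i (P h) (z, sc s0 k)) ((z, sc s0 k) :: P h)) K]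
    rw [hsum]
    have h1 : ∑ z : Fin n, ∑ k ∈ range K, rho n s0 K k *
          (∑ h, u h * V nx s0 K s r (σ h) ((z, sc s0 k) :: P h)) ≤
        12 * 2 ^ st.length * D * Q := by
      calc _ ≤ ∑ z : Fin n, ∑ k ∈ range K, rho n s0 K k * (12 * 2 ^ st.length * D * Q) := by
            refine Finset.sum_le_sum fun z _ => Finset.sum_le_sum fun k _ => ?_
            exact mul_le_mul_of_nonneg_left (hskip z k) (rho_nonneg _ _ _)
        _ = (∑ z : Fin n, ∑ k ∈ range K, rho n s0 K k) * (12 * 2 ^ st.length * D * Q) := by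
            rw [Finset.sum_mul]
            refine Finset.sum_congr rfl fun z _ => ?_
            rw [Finset.sum_mul]
        _ = _ := by rw [sum_rho s0 K hn hs0 hK, one_mul]
    have h2 := Finset.sum_le_sum htake
    have h3 := FA3_pow_sum st.length
    have h4 : ∑ i ∈ I, 12 * (2 : ℝ) ^ ((st.length - i.1) + if i.2.1 then 1 else 0) * D *
        (4 * (c0 s0 K / n) * Q) ≤ 12 * (12 * 2 ^ st.length) * D * (4 * (c0 s0 K / n) * Q) := by
      rw [hI]
      calc _ = 12 * (∑ i ∈ Finset.range (st.length + 1) ×ˢ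
            ((Finset.univ : Finset Bool) ×ˢ (Finset.univ : Finset Bool)),
            (2 : ℝ) ^ ((st.length - i.1) + if i.2.1 then 1 else 0)) * D *
            (4 * (c0 s0 K / n) * Q) := by
            rw [Finset.mul_sum, Finset.sum_mul, Finset.sum_mul]
        _ ≤ _ := by
            gcongr
    calc _ ≤ 12 * 2 ^ st.length * D * Q +
          12 * (12 * 2 ^ st.length) * D * (4 * (c0 s0 K / n) * Q) :=
          add_le_add h1 (h2.trans h4)
      _ = 12 * 2 ^ st.length * (1 + 48 * c0 s0 K / n) ^ (r + 1) *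
          (1 / n * √((n : ℝ) * s)) * Q := by
          rw [hD, pow_succ]
          ring
      _ = _ := by rw [hQ]

/-- The bound for the expected effort of a fixed slot, if it belongs to the closure. -/
noncomputable def BB (n s0 K v : ℕ) : ℝ :=
  12 * (1 + 48 * c0 s0 K / n) ^ v * (c0 s0 K * K * sc s0 (K - 1) / n)

private theorem FA4_sc {s0 : ℕ} {i j : ℕ} (h : i ≤ j) : sc s0 i ≤ sc s0 j :=
  Nat.mul_le_mul_left _ (Nat.pow_le_pow_right (by norm_num) h)

private theorem FA4_BB_nonneg (s0 K v : ℕ) : 0 ≤ BB n s0 K v := by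
  unfold BB
  have := c0_nonneg s0 K
  positivity

private theorem FA4_BB_mono (s0 K : ℕ) {r v : ℕ} (h : r ≤ v) :
    12 * (1 + 48 * c0 s0 K / n) ^ r * (c0 s0 K * K * sc s0 (K - 1) / n) ≤ BB n s0 K v := by
  unfold BB
  have h0 := c0_nonneg s0 K
  have h1 : (1 : ℝ) ≤ 1 + 48 * c0 s0 K / n := by
    have : 0 ≤ 48 * c0 s0 K / n := by positivity
    linarith
  have h2 := pow_le_pow_right₀ h1 h
  gcongr

private theorem FA4_eq {s0 K κ : ℕ} (hn : 0 < n) (hs0 : 1 ≤ s0) (hκ : κ < K) (r v : ℕ) (hr : r < v)
    (P : List (Slot n)) (hP : P.length = a) :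
    Fut s0 K (r + 1) (fun P => cnt nx a P (fun σ => σ.w * V nx s0 K (sc s0 κ) 0 σ P)) P ≤
      BB n s0 K v := by
  have hn' : (0 : ℝ) < n := by exact_mod_cast hn
  have hs0' : (0 : ℝ) < s0 := by exact_mod_cast hs0
  have hc0 := c0_nonneg s0 K
  have hscpos : ∀ k, (0 : ℝ) < sc s0 k := fun k => by
    unfold sc
    push_cast
    positivity
  have e1 : ∀ (z : Fin n) (k : ℕ), rho n s0 K k * Fut s0 K r (fun P' => cnt nx a P'
        (fun σ => σ.w * V nx s0 K (sc s0 κ) 0 σ P')) ((z, sc s0 k) :: P) =
        (c0 s0 K / n) * V nx s0 K (sc s0 κ) r (start (z, sc s0 k) P) ((z, sc s0 k) :: P) := by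
    intro z k
    rw [Fut_cnt r _ (by rw [List.length_cons]; omega)]
    simp only [cnt]
    rw [if_pos hP, cnt_of_le (by omega), add_zero]
    show rho n s0 K k * ((sc s0 k : ℝ) * _) = _
    unfold rho
    have := hscpos k
    field_simp
  simp only [Fut, e1]
  have h1 := fam (nx := nx) (ι := Fin n × Fin K) s0 K (sc s0 κ) hn hs0 (by omega) r
    (fun _ => c0 s0 K / n) (fun _ => by positivity)
    (fun p => (p.1, sc s0 p.2) :: P) (fun p => start (p.1, sc s0 p.2) P) (a + 1) [a] []
    (mw nx [a] P) (fun p => by rw [List.length_cons, hP])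
    (fun p => by
      show [P.length] = [a]
      rw [hP]) (fun p => rfl)
    (fun j hj => by
      rw [List.mem_singleton] at hj
      omega)
    (fun p => by
      simp only [mw]
      rw [if_pos (by rw [hP]; exact List.mem_singleton_self a)])
  rw [Fintype.sum_prod_type] at h1
  have e2 : ∑ z : Fin n, ∑ k ∈ range K, (c0 s0 K / n) *
      V nx s0 K (sc s0 κ) r (start (z, sc s0 k) P) ((z, sc s0 k) :: P) =
      ∑ z : Fin n, ∑ k : Fin K, (c0 s0 K / n) *
      V nx s0 K (sc s0 κ) r (start (z, sc s0 (k : ℕ)) P) ((z, sc s0 (k : ℕ)) :: P) := by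
    refine sum_congr rfl fun z _ => ?_
    exact (Fin.sum_univ_eq_sum_range (fun k => (c0 s0 K / n) *
      V nx s0 K (sc s0 κ) r (start (z, sc s0 k) P) ((z, sc s0 k) :: P)) K).symm
  rw [e2]
  refine h1.trans ?_
  have h2 := energy_start (n := n) s0 K (c0 s0 K / n) (by positivity)
  have h3 : √((n : ℝ) * sc s0 κ) * √(Qf (n := n) (ι := Fin n × Fin K) (fun _ => c0 s0 K / n)
      (fun p => p.1) (fun p => sc s0 p.2)) ≤ c0 s0 K * K * sc s0 (K - 1) := by
    rw [← Real.sqrt_mul (by positivity)]
    refine Real.sqrt_le_iff.mpr ⟨by positivity, ?_⟩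
    have h4 : (sc s0 κ : ℝ) ≤ sc s0 (K - 1) := by exact_mod_cast FA4_sc (by omega)
    have hQ0 : 0 ≤ Qf (n := n) (ι := Fin n × Fin K) (fun _ => c0 s0 K / n)
        (fun p => p.1) (fun p => sc s0 p.2) := Qf_nonneg (fun _ => by positivity) _ _
    calc (n : ℝ) * sc s0 κ * Qf (n := n) (ι := Fin n × Fin K) (fun _ => c0 s0 K / n)
          (fun p => p.1) (fun p => sc s0 p.2)
        ≤ (n : ℝ) * sc s0 (K - 1) * (n * (c0 s0 K / n) ^ 2 * K ^ 2 * sc s0 (K - 1)) := by
          gcongr
      _ = (c0 s0 K * K * sc s0 (K - 1)) ^ 2 := by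
          field_simp
  refine le_trans ?_ (FA4_BB_mono (n := n) s0 K (show r ≤ v by omega))
  rw [List.length_nil, pow_zero, mul_one]
  calc 12 * (1 + 48 * c0 s0 K / n) ^ r * (1 / n * √((n : ℝ) * sc s0 κ)) *
        √(Qf (n := n) (ι := Fin n × Fin K) (fun _ => c0 s0 K / n)
          (fun p => p.1) (fun p => sc s0 p.2))
      = 12 * (1 + 48 * c0 s0 K / n) ^ r * (1 / n) * (√((n : ℝ) * sc s0 κ) *
        √(Qf (n := n) (ι := Fin n × Fin K) (fun _ => c0 s0 K / n)
          (fun p => p.1) (fun p => sc s0 p.2))) := by ring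
    _ ≤ 12 * (1 + 48 * c0 s0 K / n) ^ r * (1 / n) * (c0 s0 K * K * sc s0 (K - 1)) := by
        gcongr
    _ = _ := by ring

/-- **Module FA4.**  If `v ≤ a` then `cnt = 0`.  Otherwise, by induction on the number of slots before
the position `a`, it is enough to consider `P` with `P.length = a`, and then
`Fut (r + 1) .. P = ∑ z k, rho k * sc s0 k * V r (start (z, sc s0 k) P) ((z, sc s0 k) :: P)`
(`Fut_cnt`; `cnt` of a list with `P.length = a` has only the summand `start`): `fam` with
`ι = Fin n × Fin K`, `u = c0 / n`, `c = [a]`, `st = []`, and `energy_start`;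
`√(n * sc s0 κ) * √(n * (c0 / n) ^ 2 * K ^ 2 * sc s0 (K - 1)) ≤ c0 * K * sc s0 (K - 1)`. -/
theorem Fut_cnt_le {s0 K κ : ℕ} (hn : 0 < n) (hs0 : 1 ≤ s0) (hκ : κ < K) (v : ℕ) :
    Fut s0 K v (fun P => cnt nx a P (fun σ => σ.w * V nx s0 K (sc s0 κ) 0 σ P)) [] ≤
      BB n s0 K v := by
  suffices H : ∀ r, r ≤ v → ∀ P : List (Slot n), P.length ≤ a →
      Fut s0 K r (fun P => cnt nx a P (fun σ => σ.w * V nx s0 K (sc s0 κ) 0 σ P)) P ≤
        BB n s0 K v from H v le_rfl [] (Nat.zero_le _)
  intro r
  induction r with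
  | zero =>
    intro _ P hP
    show cnt nx a P _ ≤ _
    rw [cnt_of_le hP]
    exact FA4_BB_nonneg s0 K v
  | succ r ih =>
    intro hr P hP
    rcases Nat.lt_or_ge P.length a with h | h
    · simp only [Fut]
      have h1 : ∀ (z : Fin n) (k : ℕ), rho n s0 K k * Fut s0 K r (fun P' => cnt nx a P'
        (fun σ => σ.w * V nx s0 K (sc s0 κ) 0 σ P')) ((z, sc s0 k) :: P) ≤
          rho n s0 K k * BB n s0 K v := fun z k =>
        mul_le_mul_of_nonneg_left (ih (by omega) _ (by rw [List.length_cons]; omega))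
          (rho_nonneg s0 K k)
      refine (sum_le_sum fun z _ => sum_le_sum fun k _ => h1 z k).trans (le_of_eq ?_)
      have h2 := Fut_const (n := n) (s0 := s0) (K := K) hn hs0 (by omega) 1 (BB n s0 K v) []
      simpa only [Fut] using h2
    · exact FA4_eq hn hs0 hκ r v (by omega) P (by omega)

end Pool.Agent.MP217LB2
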