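import Pool.Agent.MP217Upper.Model

set_option autoImplicit false

/-!
# Consensus from single-reader single-writer registers: `W(n) ≥ c n (log n)²`, definitions

A SLOT is a pair (name, effort): the processor with this name is scheduled effort times in a row.
A list of slots is read from the right to the left: the head of the list is the LAST slot, the
POSITION of the slot `y` in `y :: P` is `P.length`, and `P` is its past.  `(y :: P') <:+ P` says
that `y` is the slot with the position `P'.length` in `P`, and `P'` is its past.

`R : List ℕ` is a list of removed positions: the world `R` is the execution in which the slots with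
positions in `R` do not take place.
-/

namespace Pool.Agent.MP217LB2

open Pool.Agent.MP217Upper.Model
open scoped Classical

/-- The programs of all names (inputs and coins are fixed). -/
abbrev Prot (n : ℕ) := Fin n → List (Option ℕ) → Act n

/-- A slot: name and effort. -/
abbrev Slot (n : ℕ) := Fin n × ℕ

variable {n : ℕ}

/-- The contents of the register `(z, r, k)` after the history `h` of the processor `z` with the
program `f`. -/
def mem (f : List (Option ℕ) → Act n) : List (Option ℕ) → Fin n → ℕ → ℕ
  | [], _, _ => 0
  | _ :: h, r, k =>
    match f h with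
    | .write r' k' v => if r = r' ∧ k = k' then v else mem f h r k
    | _ => mem f h r k

/-- The history of the processor `z` with the program `f` after `q` steps in a row, when the
registers `(w, z, k)` have the contents `E w k` for `w ≠ z`. -/
def hst (f : List (Option ℕ) → Act n) (z : Fin n) (E : Fin n → ℕ → ℕ) : ℕ → List (Option ℕ)
  | 0 => []
  | q + 1 =>
    match f (hst f z E q) with
    | .read w k => some (if w = z then mem f (hst f z E q) z k else E w k) :: hst f z E q
    | .write _ _ _ => none :: hst f z E q
    | .output _ => hst f z E q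

/-- The contents of the registers after the slots `P` in the world `R`. -/
def mw (nx : Prot n) (R : List ℕ) : List (Slot n) → Fin n → Fin n → ℕ → ℕ
  | [] => fun _ _ _ => 0
  | y :: P =>
    if P.length ∈ R then mw nx R P
    else fun w r k => mw nx R P w r k +
      (if w = y.1 then
        mem (nx y.1) (hst (nx y.1) y.1 (fun w' k' => mw nx R P w' y.1 k') y.2) r k else 0)

/-- The history of a slot with the past `P` and the name `z` after `q` steps, in the world `R`. -/
def hh (nx : Prot n) (R : List ℕ) (P : List (Slot n)) (z : Fin n) (q : ℕ) : List (Option ℕ) :=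
  hst (nx z) z (fun w k => mw nx R P w z k) q

/-- The slot `y` with the past `P` writes to the name `z` in the world `R`. -/
def Wr (nx : Prot n) (R : List ℕ) (P : List (Slot n)) (y : Slot n) (z : Fin n) : Prop :=
  ∃ q, q < y.2 ∧ ∃ k v, nx y.1 (hh nx R P y.1 q) = .write z k v

/-- The slot `y` with the past `P` reads a register written by `z` in the world `R`. -/
def Rd (nx : Prot n) (R : List ℕ) (P : List (Slot n)) (y : Slot n) (z : Fin n) : Prop :=
  ∃ q, q < y.2 ∧ ∃ k, nx y.1 (hh nx R P y.1 q) = .read z k

/-- The slot `y` with the past `P` hears the slot `y'` with the past `P'` (nothing removed). -/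
def Hr (nx : Prot n) (y' : Slot n) (P' : List (Slot n)) (y : Slot n) (P : List (Slot n)) : Prop :=
  ∃ q, q < y.2 ∧ ∃ k, nx y.1 (hh nx [] P y.1 q) = .read y'.1 k ∧
    mem (nx y'.1) (hh nx [] P' y'.1 y'.2) y.1 k ≠ 0

/-- The position `a` belongs to the message closure of the slot `y` with the past `P`. -/
inductive InT (nx : Prot n) (a : ℕ) : Slot n → List (Slot n) → Prop
  | self (y : Slot n) (P : List (Slot n)) : P.length = a → InT nx a y P
  | hear (y : Slot n) (P : List (Slot n)) (y' : Slot n) (P' : List (Slot n)) :
      (y' :: P') <:+ P → Hr nx y' P' y P → InT nx a y' P' → InT nx a y P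

/-- The effort of the slot with the position `a`. -/
def eff : List (Slot n) → ℕ → ℕ
  | [], _ => 0
  | y :: P, a => if P.length = a then y.2 else eff P a

/-! ### Chains -/

/-- The state of a chain: `w` is the effort of its first slot, `c` the list of its positions (the
last one first), `st` the stack, `u` the last slot of the chain and `Pu` its past. -/
structure St (n : ℕ) where
  w : ℕ
  c : List ℕ
  st : List (List ℕ)
  u : Slot n
  Pu : List (Slot n)

/-- Instructions: the number of pops, whether to push, and which of two worlds. -/
abbrev Ins := ℕ × Bool × Bool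

/-- The stack after the instruction. -/
def st2 (σ : St n) (i : Ins) : List (List ℕ) :=
  if i.2.1 then σ.c :: σ.st.drop i.1 else σ.st.drop i.1

/-- The world in which the write condition is evaluated. -/
def rmv (σ : St n) (i : Ins) : List ℕ :=
  match st2 σ i with
  | [] => []
  | l :: _ => if i.2.2 then l else l.tail

/-- The slot `y` with the past `P` can be appended to the chain `σ` with the instruction `i`. -/
def Ok (nx : Prot n) (σ : St n) (i : Ins) (P : List (Slot n)) (y : Slot n) : Prop :=
  Wr nx (rmv σ i) σ.Pu σ.u y.1 ∧ Rd nx σ.c P y σ.u.1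

/-- The chain after the slot `y` with the past `P` has been appended. -/
def nxt (σ : St n) (i : Ins) (P : List (Slot n)) (y : Slot n) : St n :=
  ⟨σ.w, P.length :: σ.c, st2 σ i, y, P⟩

/-- The chain which consists of the slot `y` with the past `P`. -/
def start (y : Slot n) (P : List (Slot n)) : St n := ⟨y.2, [P.length], [], y, P⟩

/-- The instructions. -/
def ins (σ : St n) : Finset Ins :=
  Finset.range (σ.st.length + 1) ×ˢ (Finset.univ ×ˢ Finset.univ)

/-- The chains in `P` which start with the position `a`. -/
inductive Rch (nx : Prot n) (a : ℕ) : List (Slot n) → St n → Prop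
  | start (y : Slot n) (P : List (Slot n)) : P.length = a → Rch nx a (y :: P) (start y P)
  | skip (y : Slot n) (P : List (Slot n)) (σ : St n) : Rch nx a P σ → Rch nx a (y :: P) σ
  | take (y : Slot n) (P : List (Slot n)) (σ : St n) (i : Ins) :
      Rch nx a P σ → i.1 ≤ σ.st.length → Ok nx σ i P y → Rch nx a (y :: P) (nxt σ i P y)

/-- The sum of `f` over the chains in `P` which start with the position `a`. -/
noncomputable def cnt (nx : Prot n) (a : ℕ) : List (Slot n) → (St n → ℝ) → ℝ
  | [], _ => 0
  | y :: P, f => (if P.length = a then f (start y P) else 0) +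
      cnt nx a P (fun σ => f σ + ∑ i ∈ ins σ, if Ok nx σ i P y then f (nxt σ i P y) else 0)

/-! ### Random slots -/

/-- The efforts. -/
def sc (s0 k : ℕ) : ℕ := s0 * 4 ^ k

/-- The normalizing constant. -/
noncomputable def c0 (s0 K : ℕ) : ℝ := s0 / ∑ k ∈ Finset.range K, (1 / 4 : ℝ) ^ k

/-- The probability of the slot `(z, sc s0 k)`. -/
noncomputable def rho (n s0 K k : ℕ) : ℝ := c0 s0 K / (sc s0 k * n)

/-- The expectation of `f` after `r` more random slots. -/
noncomputable def Fut (s0 K : ℕ) : ℕ → (List (Slot n) → ℝ) → List (Slot n) → ℝ
  | 0, f, P => f P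
  | r + 1, f, P => ∑ z : Fin n, ∑ k ∈ Finset.range K,
      rho n s0 K k * Fut s0 K r f ((z, sc s0 k) :: P)

/-- The expected number of continuations of the chain `σ` in `P` over `r` more random slots, followed
by a slot with a random name and the effort `s` which is appended to the chain. -/
noncomputable def V (nx : Prot n) (s0 K s : ℕ) : ℕ → St n → List (Slot n) → ℝ
  | 0, σ, P => (1 / n) * ∑ z : Fin n, ∑ i ∈ ins σ, if Ok nx σ i P (z, s) then 1 else 0
  | r + 1, σ, P => ∑ z : Fin n, ∑ k ∈ Finset.range K, rho n s0 K k *
      (V nx s0 K s r σ ((z, sc s0 k) :: P) + ∑ i ∈ ins σ,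
        if Ok nx σ i P (z, sc s0 k) then
          V nx s0 K s r (nxt σ i P (z, sc s0 k)) ((z, sc s0 k) :: P) else 0)

/-- The energy of a finite family with weights `u`, names `z` and efforts `t`. -/
noncomputable def Qf {ι : Type*} [Fintype ι] (u : ι → ℝ) (z : ι → Fin n) (t : ι → ℕ) : ℝ :=
  ∑ h, ∑ h', if z h = z h' then u h * u h' * (min (t h) (t h') : ℕ) else 0

/-! ### Executions -/

/-- The programs for the inputs `b` and the coins `c`. -/
def prot (A : Alg n) (b : Fin n → Bool) (c : Fin n → ℕ → Bool) : Prot n :=
  fun z h => A.next z (b z) (c z) h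

/-- The schedule of the slots `P` in the world `R`. -/
def bl (R : List ℕ) : List (Slot n) → List (Fin n)
  | [] => []
  | y :: P => if P.length ∈ R then bl R P else bl R P ++ List.replicate y.2 y.1

/-- The configuration after the schedule `l`. -/
def runL (A : Alg n) (b : Fin n → Bool) (c : Fin n → ℕ → Bool) (l : List (Fin n)) : Config n :=
  l.foldl (fun C i => step A b c i C) (Config.init n)

/-- The infinite schedule `l`, `z`, `z`, `z`, ... -/
def sch (l : List (Fin n)) (z : Fin n) (t : ℕ) : Fin n := l.getD t z

/-- The slot `y` with the past `P` has produced an output (nothing removed). -/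
def Dc (nx : Prot n) (y : Slot n) (P : List (Slot n)) : Prop :=
  ∃ o, nx y.1 (hh nx [] P y.1 y.2) = .output o

/-- The work of the undecided slots. -/
noncomputable def wk (nx : Prot n) : List (Slot n) → ℝ
  | [] => 0
  | y :: P => wk nx P + if Dc nx y P then 0 else (y.2 : ℝ)

/-- The total effort. -/
def tot : List (Slot n) → ℝ
  | [] => 0
  | y :: P => tot P + (y.2 : ℝ)

/-- The number of pairs of slots with the same name. -/
noncomputable def nd : List (Slot n) → ℝ
  | [] => 0
  | y :: P => nd P + ((P.map Prod.fst).count y.1 : ℝ)

/-- The total effort of the decided slots whose names are new. -/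
noncomputable def bad (nx : Prot n) : List (Slot n) → ℝ
  | [] => 0
  | y :: P => bad nx P +
      if ((y :: P).map Prod.fst).Nodup ∧ Dc nx y P then (y.2 : ℝ) else 0

/-- The coins `c` are typical: agreement and validity for all schedules of the form `l, z, z, ...`
and termination of solo executions. -/
structure Good (A : Alg n) (c : Fin n → ℕ → Bool) : Prop where
  agr : ∀ (q z : Fin n) (l : List (Fin n)) (t t' : ℕ) (i j : Fin n) (v v' : Bool),
    Outputs A (fun i => decide (i = q)) c (sch l z) t i v →
      Outputs A (fun i => decide (i = q)) c (sch l z) t' j v' → v = v'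
  val : ∀ (z : Fin n) (l : List (Fin n)) (t : ℕ) (i : Fin n) (v : Bool),
    Outputs A (fun _ => false) c (sch l z) t i v → v = false
  val1 : ∀ (z : Fin n) (l : List (Fin n)) (t : ℕ) (i : Fin n) (v : Bool),
    Outputs A (fun _ => true) c (sch l z) t i v → v = true
  term : ∀ z : Fin n, ∃ t v, Outputs A (fun _ => true) c (sch [] z) t z v

end Pool.Agent.MP217LB2
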