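import Pool.Agent.MP217LB2.Defs

set_option autoImplicit false

/-!
# The energy of families
-/

namespace Pool.Agent.MP217LB2

open Finset
open scoped Classical

variable {n : ℕ}

/-- `2 ^ (-|k - l|)` -/
private noncomputable def lb_EN1_w (k l : ℕ) : ℝ := (1 / 2 : ℝ) ^ ((k - l) + (l - k))

private theorem lb_EN1_symm (k l : ℕ) : lb_EN1_w k l = lb_EN1_w l k := by
  unfold lb_EN1_w
  rw [add_comm]

private theorem lb_EN1_sum1 (k K : ℕ) (h : K ≤ k) :
    ∑ l ∈ range K, lb_EN1_w k l ≤ (1 / 2 : ℝ) ^ (k - K) := by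
  induction K with
  | zero =>
    rw [range_zero, sum_empty]
    positivity
  | succ K ih =>
    rw [sum_range_succ]
    have h1 := ih (by omega)
    have h2 : lb_EN1_w k K = (1 / 2 : ℝ) ^ (k - (K + 1)) * (1 / 2) := by
      unfold lb_EN1_w
      rw [← pow_succ]
      congr 1
      omega
    have h3 : (1 / 2 : ℝ) ^ (k - K) = (1 / 2 : ℝ) ^ (k - (K + 1)) * (1 / 2) := by
      rw [← pow_succ]
      congr 1
      omega
    rw [h3] at h1
    rw [h2]
    linarith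

private theorem lb_EN1_sum2 (k m : ℕ) :
    ∑ l ∈ range (k + 1 + m), lb_EN1_w k l ≤ 3 - (1 / 2 : ℝ) ^ m := by
  induction m with
  | zero =>
    rw [add_zero, sum_range_succ]
    have h1 := lb_EN1_sum1 k k le_rfl
    have h2 : lb_EN1_w k k = 1 := by
      unfold lb_EN1_w
      rw [Nat.sub_self, add_zero, pow_zero]
    rw [Nat.sub_self, pow_zero] at h1
    rw [h2, pow_zero]
    linarith
  | succ m ih =>
    rw [← add_assoc, sum_range_succ]
    have h2 : lb_EN1_w k (k + 1 + m) = (1 / 2 : ℝ) ^ (m + 1) := by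
      unfold lb_EN1_w
      congr 1
      omega
    have h3 : (1 / 2 : ℝ) ^ m = 2 * (1 / 2 : ℝ) ^ (m + 1) := by
      rw [pow_succ]
      ring
    rw [h2]
    linarith

private theorem lb_EN1_sum (k K : ℕ) : ∑ l ∈ range K, lb_EN1_w k l ≤ 3 := by
  rcases Nat.lt_or_ge k K with h | h
  · obtain ⟨m, rfl⟩ := Nat.exists_eq_add_of_le (Nat.succ_le_of_lt h)
    have h1 := lb_EN1_sum2 k m
    have h2 : (0 : ℝ) ≤ (1 / 2 : ℝ) ^ m := by positivity
    rw [Nat.succ_eq_add_one]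
    linarith
  · have h1 := lb_EN1_sum1 k K h
    have h2 : (1 / 2 : ℝ) ^ (k - K) ≤ 1 := pow_le_one₀ (by norm_num) (by norm_num)
    linarith

private theorem lb_EN1_le (s0 : ℕ) (hs0 : 1 ≤ s0) (A : ℕ → ℝ) {k l : ℕ} (h : k ≤ l) :
    A k * A l / (sc s0 l : ℝ) ≤
      lb_EN1_w k l * (A k ^ 2 / (sc s0 k : ℝ) + A l ^ 2 / (sc s0 l : ℝ)) / 2 := by
  obtain ⟨d, rfl⟩ := Nat.exists_eq_add_of_le h
  have h1 : lb_EN1_w k (k + d) = ((2 : ℝ) ^ d)⁻¹ := by
    unfold lb_EN1_w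
    rw [one_div, inv_pow]
    congr 2
    omega
  have h2 : (0 : ℝ) < (sc s0 k : ℝ) := by
    have : 0 < sc s0 k := Nat.mul_pos (by omega) (pow_pos (by norm_num) k)
    exact_mod_cast this
  have h3 : (sc s0 (k + d) : ℝ) = (sc s0 k : ℝ) * ((2 : ℝ) ^ d) ^ 2 := by
    unfold sc
    push_cast
    rw [pow_add, ← pow_mul, mul_comm d 2, pow_mul]
    norm_num
    ring
  rw [h1, h3]
  have h4 : (0 : ℝ) < (2 : ℝ) ^ d := by positivity
  set x : ℝ := (2 : ℝ) ^ d
  set s : ℝ := (sc s0 k : ℝ)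
  have h5 : x⁻¹ * (A k ^ 2 / s + A (k + d) ^ 2 / (s * x ^ 2)) / 2 - A k * A (k + d) / (s * x ^ 2) =
      (x * A k - A (k + d)) ^ 2 / (2 * s * x ^ 3) := by
    field_simp
    ring
  have h6 : 0 ≤ (x * A k - A (k + d)) ^ 2 / (2 * s * x ^ 3) := by positivity
  linarith

/-- **Module EN1.**  With `e k = A k / √(s k)` the summand is `2 ^ (-|k - l|) * e k * e l`, at most
`2 ^ (-|k - l|) * (e k ^ 2 + e l ^ 2) / 2`. -/
theorem kernel_max (s0 K : ℕ) (hs0 : 1 ≤ s0) (A : ℕ → ℝ) (hA : ∀ k, 0 ≤ A k) :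
    ∑ k ∈ range K, ∑ l ∈ range K, A k * A l / (sc s0 (max k l) : ℝ) ≤
      3 * ∑ k ∈ range K, A k ^ 2 / (sc s0 k : ℝ) := by
  have hF : ∀ k, 0 ≤ A k ^ 2 / (sc s0 k : ℝ) := fun k => by positivity
  have h1 : ∀ k ∈ range K, ∀ l ∈ range K, A k * A l / (sc s0 (max k l) : ℝ) ≤
      lb_EN1_w k l * (A k ^ 2 / (sc s0 k : ℝ) + A l ^ 2 / (sc s0 l : ℝ)) / 2 := by
    intro k _ l _
    rcases le_total k l with h | h
    · rw [max_eq_right h]
      exact lb_EN1_le s0 hs0 A h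
    · rw [max_eq_left h, lb_EN1_symm, mul_comm (A k), add_comm]
      exact lb_EN1_le s0 hs0 A h
  have h2 : ∑ k ∈ range K, ∑ l ∈ range K,
      lb_EN1_w k l * (A k ^ 2 / (sc s0 k : ℝ) + A l ^ 2 / (sc s0 l : ℝ)) / 2 =
      ∑ k ∈ range K, (∑ l ∈ range K, lb_EN1_w k l) * (A k ^ 2 / (sc s0 k : ℝ)) := by
    have e1 : ∑ k ∈ range K, ∑ l ∈ range K, lb_EN1_w k l * (A l ^ 2 / (sc s0 l : ℝ)) =
        ∑ k ∈ range K, ∑ l ∈ range K, lb_EN1_w k l * (A k ^ 2 / (sc s0 k : ℝ)) := by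
      rw [Finset.sum_comm]
      refine Finset.sum_congr rfl fun k _ => Finset.sum_congr rfl fun l _ => ?_
      rw [lb_EN1_symm]
    have e2 : ∀ k l : ℕ, lb_EN1_w k l * (A k ^ 2 / (sc s0 k : ℝ) + A l ^ 2 / (sc s0 l : ℝ)) / 2 =
        lb_EN1_w k l * (A k ^ 2 / (sc s0 k : ℝ)) / 2 +
          lb_EN1_w k l * (A l ^ 2 / (sc s0 l : ℝ)) / 2 := fun k l => by ring
    simp only [e2, Finset.sum_add_distrib, ← Finset.sum_div, e1]
    rw [add_halves]
    refine Finset.sum_congr rfl fun k _ => ?_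
    rw [Finset.sum_mul]
  calc _ ≤ ∑ k ∈ range K, ∑ l ∈ range K,
        lb_EN1_w k l * (A k ^ 2 / (sc s0 k : ℝ) + A l ^ 2 / (sc s0 l : ℝ)) / 2 :=
        Finset.sum_le_sum fun k hk => Finset.sum_le_sum fun l hl => h1 k hk l hl
    _ = _ := h2
    _ ≤ ∑ k ∈ range K, 3 * (A k ^ 2 / (sc s0 k : ℝ)) :=
        Finset.sum_le_sum fun k _ => mul_le_mul_of_nonneg_right (lb_EN1_sum k K) (hF k)
    _ = _ := by rw [← Finset.mul_sum]

/-- **Module EN2.**  Induction: with `E k = (∑ z ∈ R k, a z) ^ 2 / s k` we have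
`∑ k ∈ range (K + 1), E k + E K ≤ 4 * ∑ z ∈ R K, a z ^ 2`, because
`E (k + 1) ≤ E k / 2 + 2 * ∑ z ∈ R (k + 1) \ R k, a z ^ 2` (`(x + y)² ≤ 2 x² + 2 y²`, Cauchy-Schwarz). -/
theorem kernel_blocks (s0 K : ℕ) (hs0 : 1 ≤ s0) (a : Fin n → ℝ)
    (R : ℕ → Finset (Fin n)) (hR : ∀ k, k < K → (R k).card ≤ sc s0 k)
    (hRm : ∀ k l, k ≤ l → R k ⊆ R l) :
    ∑ k ∈ range K, (∑ z ∈ R k, a z) ^ 2 / (sc s0 k : ℝ) ≤ 4 * ∑ z, a z ^ 2 := by
  have hs : ∀ k, (0 : ℝ) < (sc s0 k : ℝ) := by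
    intro k
    have : 0 < sc s0 k := Nat.mul_pos (by omega) (pow_pos (by norm_num) k)
    exact_mod_cast this
  have hcs : ∀ (S : Finset (Fin n)) (k : ℕ), S.card ≤ sc s0 k →
      (∑ z ∈ S, a z) ^ 2 / (sc s0 k : ℝ) ≤ ∑ z ∈ S, a z ^ 2 := by
    intro S k hS
    rw [div_le_iff₀ (hs k)]
    have h1 := sq_sum_le_card_mul_sum_sq (s := S) (f := a)
    have h2 : (0 : ℝ) ≤ ∑ z ∈ S, a z ^ 2 := sum_nonneg fun z _ => sq_nonneg _
    have h3 : (S.card : ℝ) ≤ (sc s0 k : ℝ) := by exact_mod_cast hS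
    nlinarith
  have h4 : ∀ k, (sc s0 (k + 1) : ℝ) = 4 * (sc s0 k : ℝ) := by
    intro k
    unfold sc
    push_cast
    ring
  have key : ∀ m, m < K → ∑ k ∈ range (m + 1), (∑ z ∈ R k, a z) ^ 2 / (sc s0 k : ℝ) +
      (∑ z ∈ R m, a z) ^ 2 / (sc s0 m : ℝ) ≤ 4 * ∑ z ∈ R m, a z ^ 2 := by
    intro m
    induction m with
    | zero =>
      intro hm
      rw [sum_range_one]
      have h1 := hcs (R 0) 0 (hR 0 hm)
      have h2 : (0 : ℝ) ≤ ∑ z ∈ R 0, a z ^ 2 := sum_nonneg fun z _ => sq_nonneg _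
      linarith
    | succ m ih =>
      intro hm
      have ih := ih (by omega)
      have hsub : R m ⊆ R (m + 1) := hRm m (m + 1) (by omega)
      have e1 : ∑ z ∈ R (m + 1), a z = ∑ z ∈ R (m + 1) \ R m, a z + ∑ z ∈ R m, a z :=
        (sum_sdiff hsub).symm
      have e2 : ∑ z ∈ R (m + 1), a z ^ 2 =
          ∑ z ∈ R (m + 1) \ R m, a z ^ 2 + ∑ z ∈ R m, a z ^ 2 := (sum_sdiff hsub).symm
      have h1 := hcs (R (m + 1) \ R m) (m + 1)
        ((card_le_card sdiff_subset).trans (hR (m + 1) hm))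
      have h2 : (∑ z ∈ R (m + 1), a z) ^ 2 / (sc s0 (m + 1) : ℝ) ≤
          (∑ z ∈ R m, a z) ^ 2 / (sc s0 m : ℝ) / 2 +
            2 * ((∑ z ∈ R (m + 1) \ R m, a z) ^ 2 / (sc s0 (m + 1) : ℝ)) := by
        rw [e1, h4]
        set x := ∑ z ∈ R (m + 1) \ R m, a z
        set y := ∑ z ∈ R m, a z
        have h5 := hs m
        set s : ℝ := (sc s0 m : ℝ)
        have h6 : y ^ 2 / s / 2 + 2 * (x ^ 2 / (4 * s)) - (x + y) ^ 2 / (4 * s) =
            (x - y) ^ 2 / (4 * s) := by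
          field_simp
          ring
        have h7 : 0 ≤ (x - y) ^ 2 / (4 * s) := by positivity
        linarith
      rw [sum_range_succ, e2]
      linarith
  rcases Nat.eq_zero_or_pos K with hK | hK
  · rw [hK, range_zero, sum_empty]
    have h2 : (0 : ℝ) ≤ ∑ z, a z ^ 2 := sum_nonneg fun z _ => sq_nonneg _
    linarith
  · obtain ⟨m, rfl⟩ := Nat.exists_eq_add_of_le hK
    have h1 := key m (by omega)
    have h2 : (0 : ℝ) ≤ (∑ z ∈ R m, a z) ^ 2 / (sc s0 m : ℝ) := by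
      have := hs m
      positivity
    have h3 : ∑ z ∈ R m, a z ^ 2 ≤ ∑ z, a z ^ 2 :=
      sum_le_sum_of_subset_of_nonneg (subset_univ _) fun z _ _ => sq_nonneg _
    rw [add_comm 1 m]
    linarith

/-- Lemma O. -/
theorem kernel (s0 K : ℕ) (hs0 : 1 ≤ s0) (a : Fin n → ℝ) (ha : ∀ z, 0 ≤ a z)
    (R : ℕ → Finset (Fin n)) (hR : ∀ k, k < K → (R k).card ≤ sc s0 k)
    (hRm : ∀ k l, k ≤ l → R k ⊆ R l) :
    ∑ k ∈ range K, ∑ l ∈ range K,
      (∑ z ∈ R k, a z) * (∑ z ∈ R l, a z) / (sc s0 (max k l) : ℝ) ≤ 12 * ∑ z, a z ^ 2 := by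
  have h1 := kernel_max s0 K hs0 (fun k => ∑ z ∈ R k, a z) (fun k => sum_nonneg fun z _ => ha z)
  have h2 := kernel_blocks s0 K hs0 a R hR hRm
  calc _ ≤ 3 * ∑ k ∈ range K, (∑ z ∈ R k, a z) ^ 2 / (sc s0 k : ℝ) := h1
    _ ≤ 3 * (4 * ∑ z, a z ^ 2) := by gcongr
    _ = _ := by ring

theorem Qf_nonneg {ι : Type*} [Fintype ι] {u : ι → ℝ} (hu : ∀ h, 0 ≤ u h) (z : ι → Fin n)
    (t : ι → ℕ) : 0 ≤ Qf u z t := by
  unfold Qf
  refine sum_nonneg fun h _ => sum_nonneg fun h' _ => ?_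
  split_ifs
  · have := hu h
    have := hu h'
    positivity
  · exact le_rfl

/-- **Module EN3.**  The squares of the numbers of visits: `a w ζ = ∑ h, [z h = ζ] [w ∈ W h] u h`.
`∑ w ∑ ζ (a w ζ)² = ∑ h ∑ h' [z h = z h'] u h u h' |W h ∩ W h'|`. -/
theorem sum_sq_le {ι : Type*} [Fintype ι] (u : ι → ℝ) (hu : ∀ h, 0 ≤ u h) (z : ι → Fin n)
    (t : ι → ℕ) (W : ι → Finset (Fin n)) (hW : ∀ h, (W h).card ≤ t h) :
    ∑ w : Fin n, ∑ ζ : Fin n, (∑ h, if z h = ζ ∧ w ∈ W h then u h else 0) ^ 2 ≤ Qf u z t := by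
  have h1 : ∀ w ζ : Fin n, (∑ h, if z h = ζ ∧ w ∈ W h then u h else 0) ^ 2 =
      ∑ h, ∑ h', (if z h = ζ ∧ z h' = ζ then (if w ∈ W h ∧ w ∈ W h' then u h * u h' else 0)
        else 0) := by
    intro w ζ
    rw [sq, Finset.sum_mul_sum]
    refine sum_congr rfl fun h _ => sum_congr rfl fun h' _ => ?_
    by_cases a1 : z h = ζ <;> by_cases a2 : z h' = ζ <;> by_cases a3 : w ∈ W h <;>
      by_cases a4 : w ∈ W h' <;> simp [a1, a2, a3, a4]
  have h2 : ∑ w : Fin n, ∑ ζ : Fin n, (∑ h, if z h = ζ ∧ w ∈ W h then u h else 0) ^ 2 =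
      ∑ h, ∑ h', ∑ w : Fin n, ∑ ζ : Fin n, (if z h = ζ ∧ z h' = ζ then
        (if w ∈ W h ∧ w ∈ W h' then u h * u h' else 0) else 0) := by
    calc _ = ∑ w : Fin n, ∑ h, ∑ h', ∑ ζ : Fin n, (if z h = ζ ∧ z h' = ζ then
        (if w ∈ W h ∧ w ∈ W h' then u h * u h' else 0) else 0) := by
          refine sum_congr rfl fun w _ => ?_
          rw [sum_congr rfl fun ζ _ => h1 w ζ, sum_comm]
          refine sum_congr rfl fun h _ => ?_
          rw [sum_comm]
      _ = _ := by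
          rw [sum_comm]
          refine sum_congr rfl fun h _ => ?_
          rw [sum_comm]
  rw [h2]
  unfold Qf
  refine sum_le_sum fun h _ => sum_le_sum fun h' _ => ?_
  have h3 : ∀ w : Fin n, ∑ ζ : Fin n, (if z h = ζ ∧ z h' = ζ then
        (if w ∈ W h ∧ w ∈ W h' then u h * u h' else 0) else 0) =
        if z h = z h' then (if w ∈ W h ∧ w ∈ W h' then u h * u h' else 0) else 0 := by
    intro w
    by_cases a1 : z h = z h'
    · rw [if_pos a1, Finset.sum_eq_single (z h)]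
      · simp [a1]
      · intro ζ _ hζ
        rw [if_neg]
        exact fun h4 => hζ h4.1.symm
      · intro h4
        exact absurd (Finset.mem_univ _) h4
    · rw [if_neg a1]
      refine Finset.sum_eq_zero fun ζ _ => ?_
      rw [if_neg]
      exact fun h4 => a1 (h4.1.trans h4.2.symm)
  rw [sum_congr rfl fun w _ => h3 w]
  by_cases a1 : z h = z h'
  · simp only [a1, if_true]
    have h5 : ∑ w : Fin n, (if w ∈ W h ∧ w ∈ W h' then u h * u h' else 0) =
        u h * u h' * ((W h ∩ W h').card : ℝ) := by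
      rw [← Finset.sum_filter, Finset.sum_const, nsmul_eq_mul, mul_comm]
      congr 2
      congr 1
      ext w
      simp
    rw [h5]
    refine mul_le_mul_of_nonneg_left ?_ (mul_nonneg (hu h) (hu h'))
    norm_cast
    refine le_min ?_ ?_
    · exact (card_le_card inter_subset_left).trans (hW h)
    · exact (card_le_card inter_subset_right).trans (hW h')
  · simp [a1]

/-- **Module EN4.**  One more slot.  For a fixed new name `w` let
`a ζ = ∑ h, if z h = ζ ∧ w ∈ W h then u h else 0`; the sum of the new weights over `h` for the effort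
`k` is `x / s k * ∑ ζ ∈ R w k, a ζ`; `min (s k) (s l) = s k * s l / s (max k l)`; use `kernel` and
`sum_sq_le`. -/
theorem energy_take {ι : Type} [Fintype ι] (s0 K : ℕ) (hs0 : 1 ≤ s0) (u : ι → ℝ)
    (hu : ∀ h, 0 ≤ u h) (z : ι → Fin n) (t : ι → ℕ) (W : ι → Finset (Fin n))
    (hW : ∀ h, (W h).card ≤ t h) (R : Fin n → ℕ → Finset (Fin n))
    (hR : ∀ w k, k < K → (R w k).card ≤ sc s0 k) (hRm : ∀ w k l, k ≤ l → R w k ⊆ R w l)
    (x : ℝ) (hx : 0 ≤ x) :
    Qf (ι := ι × Fin n × Fin K)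
      (fun p => if p.2.1 ∈ W p.1 ∧ z p.1 ∈ R p.2.1 p.2.2 then u p.1 * (x / sc s0 p.2.2) else 0)
      (fun p => p.2.1) (fun p => sc s0 p.2.2) ≤ 12 * x ^ 2 * Qf u z t := by
  obtain ⟨a, ha⟩ : ∃ a : Fin n → Fin n → ℝ,
      a = fun w ζ => ∑ h, if z h = ζ ∧ w ∈ W h then u h else 0 := ⟨_, rfl⟩
  have ha0 : ∀ w ζ, 0 ≤ a w ζ := by
    intro w ζ
    rw [ha]
    refine sum_nonneg fun h _ => ?_
    split_ifs
    · exact hu h
    · exact le_rfl
  have hs : ∀ k, (0 : ℝ) < sc s0 k := by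
    intro k
    unfold sc
    have : 0 < s0 := hs0
    positivity
  -- the sum of the weights with a fixed name and effort
  have hG : ∀ (w : Fin n) (k : ℕ), ∑ h, (if w ∈ W h ∧ z h ∈ R w k then
      u h * (x / sc s0 k) else 0) = (∑ ζ ∈ R w k, a w ζ) * (x / sc s0 k) := by
    intro w k
    rw [ha]
    simp only
    rw [sum_comm, sum_mul]
    refine sum_congr rfl fun h _ => ?_
    by_cases h1 : w ∈ W h
    · by_cases h2 : z h ∈ R w k
      · rw [if_pos ⟨h1, h2⟩, Finset.sum_eq_single (z h)]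
        · simp [h1]
        · intro ζ _ hζ
          rw [if_neg]
          exact fun h4 => hζ h4.1.symm
        · intro h4
          exact absurd h2 h4
      · rw [if_neg (fun h4 => h2 h4.2), Finset.sum_eq_zero, zero_mul]
        intro ζ hζ
        rw [if_neg]
        rintro ⟨h4, -⟩
        rw [h4] at h2
        exact h2 hζ
    · rw [if_neg (fun h4 => h1 h4.1), Finset.sum_eq_zero, zero_mul]
      intro ζ _
      rw [if_neg (fun h4 => h1 h4.2)]
  have hmin : ∀ k l, (x / sc s0 k) * (x / sc s0 l) * ((min (sc s0 k) (sc s0 l) : ℕ) : ℝ) =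
      x ^ 2 * (1 / (sc s0 (max k l) : ℝ)) := by
    intro k l
    have h1 := hs k
    have h2 := hs l
    rcases le_total k l with h | h
    · have h3 : sc s0 k ≤ sc s0 l := by
        unfold sc
        exact Nat.mul_le_mul_left _ (Nat.pow_le_pow_right (by norm_num) h)
      rw [min_eq_left h3, max_eq_right h]
      field_simp
    · have h3 : sc s0 l ≤ sc s0 k := by
        unfold sc
        exact Nat.mul_le_mul_left _ (Nat.pow_le_pow_right (by norm_num) h)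
      rw [min_eq_right h3, max_eq_left h]
      field_simp
  have hQ : Qf (ι := ι × Fin n × Fin K)
      (fun p => if p.2.1 ∈ W p.1 ∧ z p.1 ∈ R p.2.1 p.2.2 then u p.1 * (x / sc s0 p.2.2) else 0)
      (fun p => p.2.1) (fun p => sc s0 p.2.2) =
      ∑ w : Fin n, ∑ k ∈ range K, ∑ l ∈ range K, x ^ 2 *
        ((∑ ζ ∈ R w k, a w ζ) * (∑ ζ ∈ R w l, a w ζ) / (sc s0 (max k l) : ℝ)) := by
    unfold Qf
    rw [Fintype.sum_prod_type, sum_comm, Fintype.sum_prod_type]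
    refine sum_congr rfl fun w _ => ?_
    rw [← Fin.sum_univ_eq_sum_range (fun k => ∑ l ∈ range K, x ^ 2 *
        ((∑ ζ ∈ R w k, a w ζ) * (∑ ζ ∈ R w l, a w ζ) / (sc s0 (max k l) : ℝ))) K]
    refine sum_congr rfl fun k _ => ?_
    have h1 : ∀ h : ι, ∑ p' : ι × Fin n × Fin K, (if w = p'.2.1 then
        (if w ∈ W h ∧ z h ∈ R w k then u h * (x / sc s0 k) else 0) *
        (if p'.2.1 ∈ W p'.1 ∧ z p'.1 ∈ R p'.2.1 p'.2.2 then u p'.1 * (x / sc s0 p'.2.2) else 0) *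
        ((min (sc s0 k) (sc s0 p'.2.2) : ℕ) : ℝ) else 0) =
        ∑ l ∈ range K, (if w ∈ W h ∧ z h ∈ R w k then u h * (x / sc s0 k) else 0) *
          ((∑ ζ ∈ R w l, a w ζ) * (x / sc s0 l)) * ((min (sc s0 k) (sc s0 l) : ℕ) : ℝ) := by
      intro h
      rw [Fintype.sum_prod_type, sum_comm, Fintype.sum_prod_type, Finset.sum_eq_single w]
      · rw [← Fin.sum_univ_eq_sum_range (fun l => (if w ∈ W h ∧ z h ∈ R w k then
          u h * (x / sc s0 k) else 0) *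
          ((∑ ζ ∈ R w l, a w ζ) * (x / sc s0 l)) * ((min (sc s0 k) (sc s0 l) : ℕ) : ℝ)) K]
        refine sum_congr rfl fun l _ => ?_
        simp only [if_true]
        rw [← hG w l, Finset.mul_sum, Finset.sum_mul]
      · intro w' _ hw'
        refine sum_eq_zero fun l _ => sum_eq_zero fun h' _ => ?_
        rw [if_neg]
        exact fun h5 => hw' h5.symm
      · intro h5
        exact absurd (Finset.mem_univ _) h5
    rw [sum_congr rfl fun h _ => h1 h, sum_comm]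
    refine sum_congr rfl fun l _ => ?_
    rw [← Finset.sum_mul, ← Finset.sum_mul, hG w k]
    have h6 := hmin k l
    calc _ = (∑ ζ ∈ R w k, a w ζ) * (∑ ζ ∈ R w l, a w ζ) *
        ((x / sc s0 k) * (x / sc s0 l) * ((min (sc s0 k) (sc s0 l) : ℕ) : ℝ)) := by ring
      _ = _ := by
        rw [h6]
        ring
  rw [hQ]
  have hk : ∀ w : Fin n, ∑ k ∈ range K, ∑ l ∈ range K, x ^ 2 *
        ((∑ ζ ∈ R w k, a w ζ) * (∑ ζ ∈ R w l, a w ζ) / (sc s0 (max k l) : ℝ)) ≤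
      x ^ 2 * (12 * ∑ ζ, a w ζ ^ 2) := by
    intro w
    have h1 := kernel s0 K hs0 (a w) (ha0 w) (R w) (hR w) (hRm w)
    calc _ = x ^ 2 * ∑ k ∈ range K, ∑ l ∈ range K,
        ((∑ ζ ∈ R w k, a w ζ) * (∑ ζ ∈ R w l, a w ζ) / (sc s0 (max k l) : ℝ)) := by
          rw [Finset.mul_sum]
          refine sum_congr rfl fun k _ => ?_
          rw [Finset.mul_sum]
      _ ≤ _ := by
          gcongr
  have hS := sum_sq_le u hu z t W hW
  calc _ ≤ ∑ w : Fin n, x ^ 2 * (12 * ∑ ζ, a w ζ ^ 2) := sum_le_sum fun w _ => hk w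
    _ = 12 * x ^ 2 * ∑ w : Fin n, ∑ ζ, a w ζ ^ 2 := by
        rw [Finset.mul_sum]
        refine sum_congr rfl fun w _ => ?_
        ring
    _ ≤ 12 * x ^ 2 * Qf u z t := by
        rw [ha]
        gcongr

/-- **Module EN5.**  The last slot: Cauchy-Schwarz with at most `n * s` pairs `(w, ζ)`, `ζ ∈ R w`, and
`sum_sq_le`. -/
theorem energy_last {ι : Type} [Fintype ι] (u : ι → ℝ) (hu : ∀ h, 0 ≤ u h) (z : ι → Fin n)
    (t : ι → ℕ) (W : ι → Finset (Fin n)) (hW : ∀ h, (W h).card ≤ t h)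
    (R : Fin n → Finset (Fin n)) (s : ℕ) (hR : ∀ w, (R w).card ≤ s) :
    ∑ w : Fin n, ∑ h, (if w ∈ W h ∧ z h ∈ R w then u h else 0) ≤
      √((n : ℝ) * s) * √(Qf u z t) := by
  obtain ⟨a, ha⟩ : ∃ a : Fin n → Fin n → ℝ,
      a = fun w ζ => ∑ h, if z h = ζ ∧ w ∈ W h then u h else 0 := ⟨_, rfl⟩
  have hG : ∀ w : Fin n, ∑ h, (if w ∈ W h ∧ z h ∈ R w then u h else 0) =
      ∑ ζ, (if ζ ∈ R w then (1 : ℝ) else 0) * a w ζ := by
    intro w
    have e1 : ∀ ζ, (if ζ ∈ R w then (1 : ℝ) else 0) * a w ζ =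
        ∑ h, (if z h = ζ ∧ w ∈ W h ∧ ζ ∈ R w then u h else 0) := by
      intro ζ
      rw [ha, Finset.mul_sum]
      refine sum_congr rfl fun h _ => ?_
      by_cases a1 : ζ ∈ R w <;> by_cases a2 : z h = ζ ∧ w ∈ W h
      · simp [a1, a2]
      · rw [if_neg a2, mul_zero, if_neg (fun h5 => a2 ⟨h5.1, h5.2.1⟩)]
      · simp [a1]
      · simp [a1]
    rw [sum_congr rfl fun ζ _ => e1 ζ, sum_comm]
    refine sum_congr rfl fun h _ => ?_
    by_cases h1 : w ∈ W h ∧ z h ∈ R w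
    · rw [if_pos h1, Finset.sum_eq_single (z h)]
      · rw [if_pos ⟨rfl, h1⟩]
      · intro ζ _ hζ
        rw [if_neg]
        exact fun h4 => hζ h4.1.symm
      · intro h4
        exact absurd (Finset.mem_univ _) h4
    · rw [if_neg h1]
      symm
      refine Finset.sum_eq_zero fun ζ _ => ?_
      rw [if_neg]
      rintro ⟨rfl, h4⟩
      exact h1 h4
  rw [sum_congr rfl fun w _ => hG w]
  have e2 : ∑ w : Fin n, ∑ ζ, (if ζ ∈ R w then (1 : ℝ) else 0) * a w ζ =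
      ∑ p : Fin n × Fin n, (if p.2 ∈ R p.1 then (1 : ℝ) else 0) * a p.1 p.2 := by
    rw [Fintype.sum_prod_type]
  rw [e2]
  have hCS := Finset.sum_mul_sq_le_sq_mul_sq (Finset.univ : Finset (Fin n × Fin n))
    (fun p => if p.2 ∈ R p.1 then (1 : ℝ) else 0) (fun p => a p.1 p.2)
  have h1 : ∑ p : Fin n × Fin n, (if p.2 ∈ R p.1 then (1 : ℝ) else 0) ^ 2 ≤ (n : ℝ) * s := by
    rw [Fintype.sum_prod_type]
    calc ∑ w : Fin n, ∑ ζ : Fin n, (if ζ ∈ R w then (1 : ℝ) else 0) ^ 2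
        = ∑ w : Fin n, ((R w).card : ℝ) := by
          refine sum_congr rfl fun w _ => ?_
          have : ∀ ζ : Fin n, (if ζ ∈ R w then (1 : ℝ) else 0) ^ 2 =
              if ζ ∈ R w then (1 : ℝ) else 0 := by
            intro ζ
            split_ifs <;> simp
          rw [sum_congr rfl fun ζ _ => this ζ]
          simp
      _ ≤ ∑ _w : Fin n, (s : ℝ) := sum_le_sum fun w _ => by exact_mod_cast hR w
      _ = _ := by simp
  have h2 : ∑ p : Fin n × Fin n, a p.1 p.2 ^ 2 ≤ Qf u z t := by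
    rw [Fintype.sum_prod_type, ha]
    exact sum_sq_le u hu z t W hW
  have h3 : (∑ p : Fin n × Fin n, (if p.2 ∈ R p.1 then (1 : ℝ) else 0) * a p.1 p.2) ^ 2 ≤
      ((n : ℝ) * s) * Qf u z t := by
    refine hCS.trans ?_
    refine mul_le_mul h1 h2 ?_ (by positivity)
    exact sum_nonneg fun p _ => sq_nonneg _
  rw [← Real.sqrt_mul (by positivity)]
  exact Real.le_sqrt_of_sq_le h3

/-- **Module EN6.**  The first slot. -/
theorem energy_start (s0 K : ℕ) (x : ℝ) (hx : 0 ≤ x) :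
    Qf (n := n) (ι := Fin n × Fin K) (fun _ => x) (fun p => p.1) (fun p => sc s0 p.2) ≤
      n * x ^ 2 * K ^ 2 * sc s0 (K - 1) := by
  unfold Qf
  have h1 : ∀ p : Fin n × Fin K, ∑ p' : Fin n × Fin K, (if p.1 = p'.1 then
      x * x * ((min (sc s0 p.2) (sc s0 p'.2) : ℕ) : ℝ) else 0) ≤
      K * (x ^ 2 * sc s0 (K - 1)) := by
    intro p
    rw [Fintype.sum_prod_type, Finset.sum_eq_single p.1]
    · simp only [if_true]
      calc ∑ l : Fin K, x * x * ((min (sc s0 p.2) (sc s0 l) : ℕ) : ℝ)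
          ≤ ∑ _l : Fin K, x ^ 2 * (sc s0 (K - 1) : ℝ) := by
            refine sum_le_sum fun l _ => ?_
            rw [← sq]
            refine mul_le_mul_of_nonneg_left ?_ (sq_nonneg x)
            norm_cast
            refine (min_le_right _ _).trans ?_
            unfold sc
            refine Nat.mul_le_mul_left _ (Nat.pow_le_pow_right (by norm_num) ?_)
            have := l.2
            omega
        _ = _ := by simp
    · intro w _ hw
      refine sum_eq_zero fun l _ => ?_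
      rw [if_neg]
      exact fun h5 => hw h5.symm
    · intro h5
      exact absurd (Finset.mem_univ _) h5
  calc _ ≤ ∑ _p : Fin n × Fin K, K * (x ^ 2 * sc s0 (K - 1) : ℝ) := sum_le_sum fun p _ => h1 p
    _ = _ := by
      rw [sum_const, card_univ, Fintype.card_prod, Fintype.card_fin, Fintype.card_fin,
        nsmul_eq_mul]
      push_cast
      ring

/-! ### The normalizing constant -/

/-- **Module EN6.**  Geometric sum. -/
theorem c0_le (s0 K : ℕ) (hK : 1 ≤ K) : c0 s0 K ≤ s0 := by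
  unfold c0
  have h1 : (1 : ℝ) ≤ ∑ k ∈ range K, (1 / 4 : ℝ) ^ k := by
    have h2 : (1 / 4 : ℝ) ^ 0 ≤ ∑ k ∈ range K, (1 / 4 : ℝ) ^ k :=
      single_le_sum (f := fun k => (1 / 4 : ℝ) ^ k) (fun k _ => by positivity)
        (mem_range.mpr (by omega))
    simpa using h2
  exact div_le_self (Nat.cast_nonneg _) h1

/-- **Module EN6.** -/
theorem le_c0 (s0 K : ℕ) (hK : 1 ≤ K) : 3 / 4 * (s0 : ℝ) ≤ c0 s0 K := by
  unfold c0
  have h1 : (1 : ℝ) ≤ ∑ k ∈ range K, (1 / 4 : ℝ) ^ k := by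
    have h2 : (1 / 4 : ℝ) ^ 0 ≤ ∑ k ∈ range K, (1 / 4 : ℝ) ^ k :=
      single_le_sum (f := fun k => (1 / 4 : ℝ) ^ k) (fun k _ => by positivity)
        (mem_range.mpr (by omega))
    simpa using h2
  have h3 : ∑ k ∈ range K, (1 / 4 : ℝ) ^ k ≤ 4 / 3 := by
    rw [geom_sum_eq (by norm_num)]
    have : (0 : ℝ) ≤ (1 / 4) ^ K := by positivity
    rw [div_le_iff_of_neg (by norm_num)]
    linarith
  rw [le_div_iff₀ (by linarith)]
  have h4 : (0 : ℝ) ≤ s0 := Nat.cast_nonneg _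
  nlinarith

/-- **Module EN6.** -/
theorem c0_nonneg (s0 K : ℕ) : 0 ≤ c0 s0 K := by
  unfold c0
  exact div_nonneg (Nat.cast_nonneg _) (sum_nonneg fun k _ => by positivity)

/-- **Module EN6.** -/
theorem sum_rho (s0 K : ℕ) (hn : 0 < n) (hs0 : 1 ≤ s0) (hK : 1 ≤ K) :
    ∑ _z : Fin n, ∑ k ∈ range K, rho n s0 K k = 1 := by
  have hn' : (0 : ℝ) < n := by exact_mod_cast hn
  have hs' : (0 : ℝ) < s0 := by exact_mod_cast hs0
  have h1 : (0 : ℝ) < ∑ k ∈ range K, (1 / 4 : ℝ) ^ k := by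
    apply sum_pos
    · intro k _
      positivity
    · exact ⟨0, mem_range.mpr (by omega)⟩
  have h2 : ∀ k, rho n s0 K k = (1 / 4 : ℝ) ^ k / (n * ∑ k ∈ range K, (1 / 4 : ℝ) ^ k) := by
    intro k
    unfold rho c0 sc
    push_cast
    rw [one_div, inv_pow]
    have h3 : (0 : ℝ) < 4 ^ k := by positivity
    field_simp
  rw [sum_const, card_univ, Fintype.card_fin, nsmul_eq_mul, sum_congr rfl fun k _ => h2 k,
    ← sum_div]
  field_simp

/-- **Module EN6.**  The mean effort. -/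
theorem sum_rho_sc (s0 K : ℕ) (hn : 0 < n) (hs0 : 1 ≤ s0) :
    ∑ _z : Fin n, ∑ k ∈ range K, rho n s0 K k * sc s0 k = c0 s0 K * K := by
  have hn' : (0 : ℝ) < n := by exact_mod_cast hn
  have hs : ∀ k, (0 : ℝ) < sc s0 k := by
    intro k
    unfold sc
    have : 0 < s0 := hs0
    positivity
  have h2 : ∀ k, rho n s0 K k * sc s0 k = c0 s0 K / n := by
    intro k
    unfold rho
    have := hs k
    field_simp
  rw [sum_const, card_univ, Fintype.card_fin, nsmul_eq_mul, sum_congr rfl fun k _ => h2 k,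
    sum_const, card_range, nsmul_eq_mul]
  field_simp

theorem rho_nonneg (s0 K k : ℕ) : 0 ≤ rho n s0 K k := by
  unfold rho
  have := c0_nonneg s0 K
  positivity

end Pool.Agent.MP217LB2
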