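import Pool.Agent.MP217LB2.Basic
import Pool.Agent.MP217LB2.Cnt

set_option autoImplicit false

/-!
# Executions of burst schedules
-/

namespace Pool.Agent.MP217LB2

open Pool.Agent.MP217Upper.Model
open MeasureTheory
open scoped Classical ENNReal

variable {n : ℕ} (A : Alg n) (b : Fin n → Bool) (c : Fin n → ℕ → Bool)

/-- **Module LK1.** -/
theorem step_hist_ne {i j : Fin n} (h : j ≠ i) (C : Config n) :
    (step A b c i C).hist j = C.hist j := by
  unfold step
  split <;> simp [Function.update_of_ne h]

/-- **Module LK1.** -/
theorem step_mem_ne {i w : Fin n} (hw : w ≠ i) (C : Config n) (r : Fin n) (k : ℕ) :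
    (step A b c i C).mem w r k = C.mem w r k := by
  unfold step
  split
  · rfl
  · simp only [Function.update_of_ne hw]
  · rfl

private theorem LK1_runL_snoc (l : List (Fin n)) (z : Fin n) :
    runL A b c (l ++ [z]) = step A b c z (runL A b c l) := by
  unfold runL
  rw [List.foldl_append]
  rfl

private theorem LK1_step (i : Fin n) (C : Config n)
    (hC : ∀ w r k, C.mem w r k = mem (prot A b c w) (C.hist w) r k) (w r : Fin n) (k : ℕ) :
    (step A b c i C).mem w r k = mem (prot A b c w) ((step A b c i C).hist w) r k := by
  by_cases hw : w = i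
  · subst hw
    have hnx : prot A b c w (C.hist w) = A.next w (b w) (c w) (C.hist w) := rfl
    unfold step
    cases hact : A.next w (b w) (c w) (C.hist w) with
    | read w' k' =>
      simp only [Function.update_self]
      rw [mem, hnx, hact]
      exact hC w r k
    | write r' k' v' =>
      simp only [Function.update_self]
      rw [mem, hnx, hact]
      dsimp only
      by_cases hr : r = r'
      · subst hr
        by_cases hk : k = k'
        · subst hk
          simp
        · simp only [Function.update_self, Function.update_of_ne hk, hk, and_false, if_false]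
          exact hC w r k
      · simp only [Function.update_of_ne hr, hr, false_and, if_false]
        exact hC w r k
    | output v' => exact hC w r k
  · rw [step_mem_ne A b c hw, step_hist_ne A b c hw]
    exact hC w r k

/-- **Module LK1.**  The registers written by `w` are determined by its history.  Induction over the
list from the right (`List.reverseRecOn`). -/
theorem mem_runL (l : List (Fin n)) (w r : Fin n) (k : ℕ) :
    (runL A b c l).mem w r k = mem (prot A b c w) ((runL A b c l).hist w) r k := by
  induction l using List.reverseRecOn generalizing w r k with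
  | nil => rfl
  | append_singleton l z ih =>
    rw [LK1_runL_snoc]
    exact LK1_step A b c z _ ih w r k

/-- **Module LK2.**  A burst of `z` after the schedule `l`, in which `z` has not occurred.  Induction on
`q` (`List.replicate_succ'`, `List.foldl_append`). -/
theorem burst (l : List (Fin n)) {z : Fin n} (hz : z ∉ l) (q : ℕ) :
    (runL A b c (l ++ List.replicate q z)).hist z =
      hst (prot A b c z) z (fun w k => (runL A b c l).mem w z k) q ∧
    (∀ w, w ≠ z → (runL A b c (l ++ List.replicate q z)).hist w = (runL A b c l).hist w) ∧
    (∀ w, w ≠ z → (runL A b c (l ++ List.replicate q z)).mem w = (runL A b c l).mem w) := by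
  have h0 : ∀ l' : List (Fin n), z ∉ l' → (runL A b c l').hist z = [] := by
    intro l'
    induction l' using List.reverseRecOn with
    | nil => intro _; rfl
    | append_singleton l' x ih =>
      intro h
      rw [List.mem_append, List.mem_singleton, not_or] at h
      rw [LK1_runL_snoc, step_hist_ne A b c h.2]
      exact ih h.1
  induction q with
  | zero =>
    rw [List.replicate_zero, List.append_nil]
    exact ⟨h0 l hz, fun _ _ => rfl, fun _ _ => rfl⟩
  | succ q ih =>
    obtain ⟨ih1, ih2, ih3⟩ := ih
    rw [List.replicate_succ', ← List.append_assoc, LK1_runL_snoc]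
    refine ⟨?_, ?_, ?_⟩
    · have hm := mem_runL A b c (l ++ List.replicate q z) z z
      rw [ih1] at hm
      rw [hst]
      have hnx : prot A b c z (hst (prot A b c z) z (fun w k => (runL A b c l).mem w z k) q) =
        A.next z (b z) (c z) ((runL A b c (l ++ List.replicate q z)).hist z) := by
        rw [ih1]
        rfl
      rw [hnx]
      unfold step
      cases hact : A.next z (b z) (c z) ((runL A b c (l ++ List.replicate q z)).hist z) with
      | read w k =>
        simp only [Function.update_self]
        rw [ih1]
        congr 2
        by_cases hw : w = z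
        · subst hw
          rw [if_pos rfl]
          exact hm k
        · rw [if_neg hw, ih3 w hw]
      | write r k v =>
        simp only [Function.update_self]
        rw [ih1]
      | output v => exact ih1
    · intro w hw
      rw [step_hist_ne A b c hw]
      exact ih2 w hw
    · intro w hw
      funext r k
      rw [step_mem_ne A b c hw, ih3 w hw]

/-- **Module LK2.** -/
theorem hist_of_notMem (l : List (Fin n)) {z : Fin n} (hz : z ∉ l) :
    (runL A b c l).hist z = [] := by
  have h := (burst A b c l hz 0).1
  rw [List.replicate_zero, List.append_nil] at h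
  exact h

/-- **Module LK3.** -/
theorem mem_bl {R : List ℕ} {P : List (Slot n)} {z : Fin n} (h : z ∈ bl R P) :
    ∃ y P', (y :: P') <:+ P ∧ P'.length ∉ R ∧ y.1 = z := by
  induction P with
  | nil => exact absurd h (List.not_mem_nil)
  | cons y P ih =>
    unfold bl at h
    split_ifs at h with h1
    · obtain ⟨y', P', h2, h3, h4⟩ := ih h
      exact ⟨y', P', h2.trans (List.suffix_cons y P), h3, h4⟩
    · rw [List.mem_append] at h
      rcases h with h | h
      · obtain ⟨y', P', h2, h3, h4⟩ := ih h
        exact ⟨y', P', h2.trans (List.suffix_cons y P), h3, h4⟩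
      · exact ⟨y, P, List.suffix_refl _, h1, (List.eq_of_mem_replicate h).symm⟩

/-- **Module LK3.**  Executions and the abstract semantics.  Induction on `P`, with `burst`, `mem_runL`. -/
theorem link (R : List ℕ) (P : List (Slot n)) (hP : (P.map Prod.fst).Nodup) :
    (∀ w r k, (runL A b c (bl R P)).mem w r k = mw (prot A b c) R P w r k) ∧
    (∀ y P', (y :: P') <:+ P → P'.length ∉ R →
      (runL A b c (bl R P)).hist y.1 = hh (prot A b c) R P' y.1 y.2) := by
  induction P with
  | nil =>
    refine ⟨fun w r k => rfl, fun y P' h => ?_⟩
    have h1 := h.length_le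
    simp at h1
  | cons y P ih =>
    rw [List.map_cons, List.nodup_cons] at hP
    obtain ⟨ih1, ih2⟩ := ih hP.2
    by_cases h1 : P.length ∈ R
    · have e1 : bl R (y :: P) = bl R P := by
        rw [bl, if_pos h1]
      have e2 : mw (prot A b c) R (y :: P) = mw (prot A b c) R P := by
        rw [mw, if_pos h1]
      rw [e1, e2]
      refine ⟨ih1, fun y' P' h2 h3 => ?_⟩
      rcases List.suffix_cons_iff.1 h2 with h4 | h4
      · rw [List.cons.injEq] at h4
        rw [h4.2] at h3
        exact absurd h1 h3
      · exact ih2 y' P' h4 h3
    · have e1 : bl R (y :: P) = bl R P ++ List.replicate y.2 y.1 := by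
        rw [bl, if_neg h1]
      have hz : y.1 ∉ bl R P := by
        intro h
        obtain ⟨y', P', h2, _, h4⟩ := mem_bl h
        apply hP.1
        rw [← h4]
        exact List.mem_map_of_mem (h2.subset (List.mem_cons_self))
      obtain ⟨b1, b2, b3⟩ := burst A b c (bl R P) hz y.2
      have b1' : (runL A b c (bl R P ++ List.replicate y.2 y.1)).hist y.1 =
          hh (prot A b c) R P y.1 y.2 := by
        rw [b1]
        unfold hh
        congr 1
        funext w k
        exact ih1 w y.1 k
      rw [e1]
      constructor
      · intro w r k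
        rw [mw, if_neg h1]
        by_cases hw : w = y.1
        · subst hw
          have h5 : mw (prot A b c) R P y.1 r k = 0 := by
            rw [← ih1, mem_runL, hist_of_notMem A b c _ hz]
            rfl
          rw [mem_runL, b1']
          show _ = mw (prot A b c) R P y.1 r k + _
          rw [h5, zero_add, if_pos rfl]
          rfl
        · rw [b3 w hw, ih1]
          show _ = mw (prot A b c) R P w r k + _
          rw [if_neg hw, add_zero]
      · intro y' P' h2 h3
        rcases List.suffix_cons_iff.1 h2 with h4 | h4
        · rw [List.cons.injEq] at h4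
          rw [h4.1, h4.2]
          exact b1'
        · have h5 : y'.1 ≠ y.1 := by
            intro h
            apply hP.1
            rw [← h]
            exact List.mem_map_of_mem (h4.subset (List.mem_cons_self))
          rw [b2 _ h5]
          exact ih2 y' P' h4 h3

/-- **Module LK4.** -/
theorem run_sch (l : List (Fin n)) (z : Fin n) (t : ℕ) :
    run A b c (sch l z) (l.length + t) = runL A b c (l ++ List.replicate t z) := by
  have h1 : ∀ s, s ≤ l.length + t →
      run A b c (sch l z) s = runL A b c ((l ++ List.replicate t z).take s) := by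
    intro s
    induction s with
    | zero =>
      intro _
      rw [List.take_zero]
      rfl
    | succ s ih =>
      intro hs
      have hs' : s < (l ++ List.replicate t z).length := by
        rw [List.length_append, List.length_replicate]
        omega
      rw [List.take_succ_eq_append_getElem hs']
      unfold runL
      rw [List.foldl_append]
      have e := ih (by omega)
      unfold runL at e
      rw [← e]
      show step A b c (sch l z s) (run A b c (sch l z) s) = _
      rw [List.foldl_cons, List.foldl_nil]
      congr 1
      unfold sch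
      by_cases h2 : s < l.length
      · rw [List.getD_eq_getElem _ _ h2, List.getElem_append_left h2]
      · rw [List.getD_eq_default _ _ (by omega), List.getElem_append_right (by omega),
          List.getElem_replicate]
  have h2 := h1 (l.length + t) le_rfl
  rw [h2]
  congr 1
  refine List.take_of_length_le ?_
  rw [List.length_append, List.length_replicate]

/-- **Module LK4.**  Only the inputs of the scheduled processors matter. -/
theorem runL_input {b' : Fin n → Bool} (l : List (Fin n)) (h : ∀ z ∈ l, b' z = b z) :
    runL A b' c l = runL A b c l := by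
  have h1 : ∀ (l : List (Fin n)) (C : Config n), (∀ z ∈ l, b' z = b z) →
      l.foldl (fun C i => step A b' c i C) C = l.foldl (fun C i => step A b c i C) C := by
    intro l
    induction l with
    | nil =>
      intro C _
      rfl
    | cons z l ih =>
      intro C hl
      rw [List.foldl_cons, List.foldl_cons]
      have e : step A b' c z C = step A b c z C := by
        unfold step
        rw [hl z (List.mem_cons_self)]
      rw [e]
      exact ih _ fun w hw => hl w (List.mem_cons_of_mem z hw)
  exact h1 l _ h

private theorem lb_LK5_tot (P : List (Slot n)) : 0 ≤ tot P := by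
  induction P with
  | nil => exact le_refl _
  | cons y P ih =>
    unfold tot
    have h1 : (0 : ℝ) ≤ (y.2 : ℝ) := Nat.cast_nonneg _
    linarith

private theorem lb_LK5_nd (P : List (Slot n)) : 0 ≤ nd P := by
  induction P with
  | nil => exact le_refl _
  | cons y P ih =>
    unfold nd
    have h1 : (0 : ℝ) ≤ (((P.map Prod.fst).count y.1 : ℕ) : ℝ) := Nat.cast_nonneg _
    linarith

private theorem lb_LK5_one (P : List (Slot n)) (h : ¬ (P.map Prod.fst).Nodup) : 1 ≤ nd P := by
  induction P with
  | nil => exact absurd List.nodup_nil h
  | cons y P ih =>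
    rw [List.map_cons, List.nodup_cons] at h
    unfold nd
    by_cases h1 : y.1 ∈ P.map Prod.fst
    · have h2 : 1 ≤ (P.map Prod.fst).count y.1 := List.count_pos_iff.2 h1
      have h3 : (1 : ℝ) ≤ (((P.map Prod.fst).count y.1 : ℕ) : ℝ) := by exact_mod_cast h2
      have h4 := lb_LK5_nd P
      linarith
    · have h2 := ih fun h3 => h ⟨h1, h3⟩
      have h3 : (0 : ℝ) ≤ (((P.map Prod.fst).count y.1 : ℕ) : ℝ) := Nat.cast_nonneg _
      linarith

private theorem lb_LK5_bad (nx : Prot n) (P : List (Slot n)) : 0 ≤ bad nx P := by
  induction P with
  | nil => exact le_refl _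
  | cons y P ih =>
    unfold bad
    split_ifs
    · have h1 : (0 : ℝ) ≤ (y.2 : ℝ) := Nat.cast_nonneg _
      linarith
    · linarith

private theorem lb_LK5_nodup (A : Alg n) (b : Fin n → Bool) (c : Fin n → ℕ → Bool)
    (P : List (Slot n)) (hP : (P.map Prod.fst).Nodup) :
    tot P - bad (prot A b c) P ≤
      ((∑ i, ((runL A b c (bl [] P)).hist i).length : ℕ) : ℝ) := by
  induction P with
  | nil =>
    have h1 : tot ([] : List (Slot n)) - bad (prot A b c) [] = 0 := sub_self 0
    rw [h1]
    exact Nat.cast_nonneg _
  | cons y P ih =>
    have hP' := hP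
    rw [List.map_cons, List.nodup_cons] at hP
    have ih := ih hP.2
    have e1 : bl [] (y :: P) = bl [] P ++ List.replicate y.2 y.1 := by
      rw [bl, if_neg (List.not_mem_nil)]
    have hz : y.1 ∉ bl [] P := by
      intro h
      obtain ⟨y', P', h2, _, h4⟩ := mem_bl h
      apply hP.1
      rw [← h4]
      exact List.mem_map_of_mem (h2.subset (List.mem_cons_self))
    obtain ⟨-, b2, -⟩ := burst A b c (bl [] P) hz y.2
    have h2 := (link A b c [] (y :: P) hP').2 y P (List.suffix_refl _) (List.not_mem_nil)
    rw [e1] at h2
    have h3 : ∑ i, ((runL A b c (bl [] (y :: P))).hist i).length =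
        ∑ i, ((runL A b c (bl [] P)).hist i).length +
          (hh (prot A b c) [] P y.1 y.2).length := by
      rw [e1, ← Finset.add_sum_erase Finset.univ _ (Finset.mem_univ y.1),
        ← Finset.add_sum_erase Finset.univ
          (fun i => ((runL A b c (bl [] P)).hist i).length) (Finset.mem_univ y.1), h2,
        hist_of_notMem A b c _ hz, List.length_nil, zero_add, add_comm]
      congr 1
      refine Finset.sum_congr rfl fun i hi => ?_
      rw [b2 i (Finset.ne_of_mem_erase hi)]
    rw [h3, Nat.cast_add]
    unfold tot bad
    have h4 : (y.2 : ℝ) - (if ((y :: P).map Prod.fst).Nodup ∧ Dc (prot A b c) y P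
        then (y.2 : ℝ) else 0) ≤ ((hh (prot A b c) [] P y.1 y.2).length : ℝ) := by
      by_cases hD : Dc (prot A b c) y P
      · rw [if_pos ⟨hP', hD⟩, sub_self]
        exact Nat.cast_nonneg _
      · rw [if_neg fun h => hD h.2, sub_zero]
        have h5 : (hh (prot A b c) [] P y.1 y.2).length = y.2 := hst_length hD
        rw [h5]
    linarith

/-- **Module LK5.**  The real work is at least `tot - bad - tot * nd`.  If the names are not distinct,
the right side is nonpositive (`one_le_nd`, prove it here again if needed).  If they are: for every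
suffix `y :: P'` of `P` the history of `y.1` has the length `y.2` unless `Dc nx y P'` (`link`, `hst_length`),
and the names are distinct. -/
theorem work_ge (P : List (Slot n)) :
    tot P - bad (prot A b c) P - tot P * nd P ≤
      ((∑ i, ((runL A b c (bl [] P)).hist i).length : ℕ) : ℝ) := by
  by_cases hP : (P.map Prod.fst).Nodup
  · have h1 := lb_LK5_nodup A b c P hP
    have h2 := mul_nonneg (lb_LK5_tot P) (lb_LK5_nd P)
    linarith
  · have h1 := lb_LK5_one P hP
    have h2 := lb_LK5_bad (prot A b c) P
    have h3 := lb_LK5_tot P
    have h4 : tot P ≤ tot P * nd P := by nlinarith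
    have h5 : (0 : ℝ) ≤ ((∑ i, ((runL A b c (bl [] P)).hist i).length : ℕ) : ℝ) :=
      Nat.cast_nonneg _
    linarith

/-! ### Coverage -/

/-- **Module CO1.**  In the execution in which the slots of `P` with positions not in `R` take place,
let a slot `y` end with an output.  Then every name `q` which is not the name of a slot of this
execution is written to by one of its slots.  (Otherwise: the output is `false` (`Good.val`, with
`runL`, `run_sch`).  The memory `(w, q, k)` is `0` for all `w`, `k` after the schedule `bl R P`
(`link`, `mw`: every contribution is `0`, `wr_of_mem`).  With the inputs `decide (i = q)` the schedule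
`bl R P` gives the same configuration (`runL_input`, `mem_bl`), and then `q` runs alone: its history is the
one of the solo execution with all inputs `true` (`burst` for `l = bl R P` and for `l = []`, both
environments are `0`), so by `Good.term`, `Good.val1` it outputs `true`: contradiction to `Good.agr`.) -/
theorem coverage_one {A : Alg n} {c : Fin n → ℕ → Bool} (hc : Good A c) (R : List ℕ)
    (P : List (Slot n)) (hP : (P.map Prod.fst).Nodup) {y : Slot n} {P' : List (Slot n)}
    (hy : (y :: P') <:+ P) (hR : P'.length ∉ R)
    (hout : ∃ o, prot A (fun _ => false) c y.1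
      (hh (prot A (fun _ => false) c) R P' y.1 y.2) = .output o)
    (q : Fin n) (hq : ∀ y' P'', (y' :: P'') <:+ P → P''.length ∉ R → y'.1 ≠ q) :
    ∃ y' P'', (y' :: P'') <:+ P ∧ P''.length ∉ R ∧
      Wr (prot A (fun _ => false) c) R P'' y' q := by
  by_contra hcon
  push Not at hcon
  have hno : ∀ y' P'', (y' :: P'') <:+ P → P''.length ∉ R →
      ¬ Wr (prot A (fun _ => false) c) R P'' y' q := hcon
  have hmw : ∀ P0, P0 <:+ P → ∀ w k, mw (prot A (fun _ => false) c) R P0 w q k = 0 := by
    intro P0
    induction P0 with
    | nil => exact fun _ _ _ => rfl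
    | cons y0 P0 ih =>
      intro hs w k
      have hs' : P0 <:+ P := (List.suffix_cons y0 P0).trans hs
      rw [mw]
      split_ifs with h1
      · exact ih hs' w k
      · show mw (prot A (fun _ => false) c) R P0 w q k + _ = 0
        rw [ih hs' w k, zero_add]
        split_ifs with h2
        · by_contra h3
          obtain ⟨s, hs1, v, hv⟩ := wr_of_mem h3
          exact hno y0 P0 hs h1 ⟨s, hs1, k, v, hv⟩
        · rfl
  have hqbl : q ∉ bl R P := by
    intro h
    obtain ⟨y', P'', h1, h2, h3⟩ := mem_bl h
    exact hq y' P'' h1 h2 h3
  have hyq : y.1 ≠ q := hq y P' hy hR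
  have hlink := link A (fun _ => false) c R P hP
  obtain ⟨o, ho⟩ := hout
  have e1 : run A (fun _ => false) c (sch (bl R P) q) ((bl R P).length + 0) =
      runL A (fun _ => false) c (bl R P) := by
    rw [run_sch, List.replicate_zero, List.append_nil]
  have hoF : o = false := by
    refine hc.val q (bl R P) ((bl R P).length + 0) y.1 o ?_
    unfold Outputs
    rw [e1, hlink.2 y P' hy hR]
    exact ho
  have hb : ∀ z ∈ bl R P, (fun i => decide (i = q)) z = (fun _ : Fin n => false) z := by
    intro z hz
    have h1 : z ≠ q := fun h => hqbl (h ▸ hz)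
    exact decide_eq_false h1
  have e2 : runL A (fun i => decide (i = q)) c (bl R P) =
      runL A (fun _ => false) c (bl R P) := runL_input A _ c _ hb
  have e3 : run A (fun i => decide (i = q)) c (sch (bl R P) q) ((bl R P).length + 0) =
      runL A (fun _ => false) c (bl R P) := by
    rw [run_sch, List.replicate_zero, List.append_nil, e2]
  have h4 : Outputs A (fun i => decide (i = q)) c (sch (bl R P) q) ((bl R P).length + 0) y.1
      false := by
    unfold Outputs
    rw [e3, hlink.2 y P' hy hR]
    beta_reduce
    rw [decide_eq_false hyq]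
    rw [hoF] at ho
    exact ho
  obtain ⟨t, v, hv⟩ := hc.term q
  have hv1 : v = true := hc.val1 q [] t q v hv
  have h5 : Outputs A (fun i => decide (i = q)) c (sch (bl R P) q) ((bl R P).length + t) q v := by
    unfold Outputs at hv ⊢
    have e4 : run A (fun _ => true) c (sch [] q) t =
        runL A (fun _ => true) c ([] ++ List.replicate t q) := by
      have e5 := run_sch A (fun _ => true) c [] q t
      rwa [List.length_nil, Nat.zero_add] at e5
    rw [e4, (burst A (fun _ => true) c [] (List.not_mem_nil) t).1] at hv
    rw [run_sch, (burst A (fun i => decide (i = q)) c (bl R P) hqbl t).1, e2]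
    have e6 : (fun w k => (runL A (fun _ => false) c (bl R P)).mem w q k) =
        fun w k => (runL A (fun _ => true) c []).mem w q k := by
      funext w k
      rw [hlink.1, hmw P (List.suffix_refl P)]
      rfl
    have e7 : prot A (fun i => decide (i = q)) c q = prot A (fun _ => true) c q := by
      funext h
      show A.next q (decide (q = q)) (c q) h = A.next q true (c q) h
      rw [decide_eq_true rfl]
    rw [e6, e7]
    beta_reduce
    rw [decide_eq_true rfl]
    exact hv
  have h6 := hc.agr q q (bl R P) _ _ _ _ _ _ h4 h5
  rw [hv1] at h6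
  exact Bool.false_ne_true h6

private theorem lb_CO2_trans {nx : Prot n} {a : ℕ} {y : Slot n} {P : List (Slot n)}
    (h : InT nx a y P) : ∀ {y1 : Slot n} {P1 : List (Slot n)}, (y1 :: P1) <:+ (y :: P) →
      P1.length = a → ∀ {y2 : Slot n} {P2 : List (Slot n)}, (y2 :: P2) <:+ P1 →
      Hr nx y2 P2 y1 P1 → InT nx P2.length y P := by
  induction h with
  | self y P h =>
    intro y1 P1 h1 h2 y2 P2 h3 h4
    have h5 : y1 :: P1 = y :: P := h1.eq_of_length (by
      rw [List.length_cons, List.length_cons, h2, h])
    rw [List.cons.injEq] at h5
    obtain ⟨rfl, rfl⟩ := h5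
    exact InT.hear y1 P1 y2 P2 h3 h4 (InT.self y2 P2 rfl)
  | hear y P y' P' hs hH hI ih =>
    intro y1 P1 h1 h2 y2 P2 h3 h4
    have h5 : (y1 :: P1) <:+ (y' :: P') := by
      refine List.suffix_of_suffix_length_le h1 (hs.trans (List.suffix_cons y P)) ?_
      rw [List.length_cons, List.length_cons, h2]
      exact Nat.succ_le_succ hI.le
    exact InT.hear y P y' P' hs hH (ih h5 h2 h3 h4)

/-- **Module CO2.**  `coverage_one` for the list `y :: P` and `R =` the positions `j < P.length` with
`¬ InT nx j y P`; `closed_world` (a slot heard by a slot of the closure belongs to the closure: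
transitivity of `InT`), so the histories of the slots of the closure are those of the world `[]`.
Every name is the name of a slot of the closure or written to by one; `card_Wr`. -/
theorem coverage {A : Alg n} {c : Fin n → ℕ → Bool} (hc : Good A c) (y : Slot n)
    (P : List (Slot n)) (hP : ((y :: P).map Prod.fst).Nodup)
    (hout : Dc (prot A (fun _ => false) c) y P) :
    n ≤ (y.2 + 1) + ∑ a ∈ Finset.range P.length,
      if InT (prot A (fun _ => false) c) a y P then eff P a + 1 else 0 := by
  set nx := prot A (fun _ => false) c with hnx
  obtain ⟨R, hRdef⟩ : ∃ R : List ℕ, ∀ j, j ∈ R ↔ (j < P.length ∧ ¬ InT nx j y P) := by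
    refine ⟨(List.range P.length).filter fun j => ¬ InT nx j y P, fun j => ?_⟩
    rw [List.mem_filter, List.mem_range, decide_eq_true_iff]
  have hInT : ∀ a, a ≤ P.length → a ∉ R → InT nx a y P := by
    intro a ha haR
    rcases Nat.lt_or_ge a P.length with h1 | h1
    · by_contra h2
      exact haR ((hRdef a).2 ⟨h1, h2⟩)
    · exact InT.self y P (le_antisymm h1 ha)
  have hlen : ∀ y' P'', (y' :: P'') <:+ (y :: P) → P''.length ≤ P.length := by
    intro y' P'' h
    have h1 := h.length_le
    rw [List.length_cons, List.length_cons] at h1
    omega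
  have hPR : P.length ∉ R := fun h => absurd ((hRdef _).1 h).1 (lt_irrefl _)
  have hcl : hh nx R P y.1 y.2 = hh nx [] P y.1 y.2 := by
    refine closed_world (P := y :: P) ?_ y P (List.suffix_refl _) hPR y.2 le_rfl
    intro y1 P1 h1 h2 y2 P2 h3 h4 h5
    have h6 := hInT _ (hlen _ _ h1) h2
    have h7 := lb_CO2_trans h6 h1 rfl h3 h4
    exact ((hRdef _).1 h5).2 h7
  have hcov : ∀ q : Fin n, ∃ y' P'', (y' :: P'') <:+ (y :: P) ∧ P''.length ∉ R ∧
      (y'.1 = q ∨ Wr nx R P'' y' q) := by
    intro q
    by_cases hq : ∀ y' P'', (y' :: P'') <:+ (y :: P) → P''.length ∉ R → y'.1 ≠ q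
    · obtain ⟨o, ho⟩ := hout
      obtain ⟨y', P'', h1, h2, h3⟩ := coverage_one hc R (y :: P) hP (List.suffix_refl _) hPR
        ⟨o, by rw [← hnx, hcl]; exact ho⟩ q hq
      exact ⟨y', P'', h1, h2, Or.inr h3⟩
    · push Not at hq
      obtain ⟨y', P'', h1, h2, h3⟩ := hq
      exact ⟨y', P'', h1, h2, Or.inl h3⟩
  have hcard : ∀ a, (Finset.univ.filter fun q : Fin n => ∃ y' P'', (y' :: P'') <:+ (y :: P) ∧
      P''.length = a ∧ (y'.1 = q ∨ Wr nx R P'' y' q)).card ≤ eff (y :: P) a + 1 := by
    intro a
    by_cases ha : ∃ y' P'', (y' :: P'') <:+ (y :: P) ∧ P''.length = a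
    · obtain ⟨y0, P0, h1, h2⟩ := ha
      have h3 : (Finset.univ.filter fun q : Fin n => ∃ y' P'', (y' :: P'') <:+ (y :: P) ∧
          P''.length = a ∧ (y'.1 = q ∨ Wr nx R P'' y' q)) ⊆
          insert y0.1 (Finset.univ.filter fun q => Wr nx R P0 y0 q) := by
        intro q hq
        rw [Finset.mem_filter] at hq
        obtain ⟨-, y', P'', h4, h5, h6⟩ := hq
        have h7 : y' :: P'' = y0 :: P0 := by
          have h8 : (y' :: P'').length = (y0 :: P0).length := by
            rw [List.length_cons, List.length_cons, h5, h2]
          exact (List.suffix_of_suffix_length_le h4 h1 h8.le).eq_of_length h8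
        rw [List.cons.injEq] at h7
        rw [h7.1, h7.2] at h6
        rw [Finset.mem_insert, Finset.mem_filter]
        rcases h6 with h6 | h6
        · exact Or.inl h6.symm
        · exact Or.inr ⟨Finset.mem_univ _, h6⟩
      have h4 := eff_suffix h1
      rw [h2] at h4
      rw [h4]
      refine (Finset.card_le_card h3).trans ((Finset.card_insert_le _ _).trans ?_)
      exact Nat.add_le_add_right (card_Wr R P0 y0) 1
    · have h3 : (Finset.univ.filter fun q : Fin n => ∃ y' P'', (y' :: P'') <:+ (y :: P) ∧
          P''.length = a ∧ (y'.1 = q ∨ Wr nx R P'' y' q)) = ∅ := by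
        rw [Finset.filter_eq_empty_iff]
        rintro q - ⟨y', P'', h4, h5, -⟩
        exact ha ⟨y', P'', h4, h5⟩
      rw [h3, Finset.card_empty]
      exact Nat.zero_le _
  have hsub : (Finset.univ : Finset (Fin n)) ⊆
      ((Finset.range (P.length + 1)).filter fun a => a ∉ R).biUnion fun a =>
        Finset.univ.filter fun q : Fin n => ∃ y' P'', (y' :: P'') <:+ (y :: P) ∧
          P''.length = a ∧ (y'.1 = q ∨ Wr nx R P'' y' q) := by
    intro q _
    obtain ⟨y', P'', h1, h2, h3⟩ := hcov q
    rw [Finset.mem_biUnion]
    refine ⟨P''.length, ?_, ?_⟩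
    · rw [Finset.mem_filter, Finset.mem_range]
      exact ⟨Nat.lt_succ_of_le (hlen _ _ h1), h2⟩
    · rw [Finset.mem_filter]
      exact ⟨Finset.mem_univ _, y', P'', h1, rfl, h3⟩
  have h1 := (Finset.card_le_card hsub).trans Finset.card_biUnion_le
  rw [Finset.card_univ, Fintype.card_fin] at h1
  refine h1.trans ((Finset.sum_le_sum fun a _ => hcard a).trans ?_)
  rw [Finset.sum_filter, Finset.sum_range_succ, if_pos hPR, add_comm]
  refine Nat.add_le_add ?_ ?_
  · have h2 := eff_suffix (List.suffix_refl (y :: P))
    rw [h2]
  · refine Finset.sum_le_sum fun a ha => ?_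
    rw [Finset.mem_range] at ha
    have h2 : eff (y :: P) a = eff P a := eff_of_suffix (List.suffix_cons y P) ha
    rw [h2]
    by_cases h3 : a ∈ R
    · rw [if_neg (not_not.2 h3)]
      exact Nat.zero_le _
    · rw [if_pos h3, if_pos (hInT a ha.le h3)]

/-! ### Typical coins, measurability -/

/-- **Module ME1.**  `ae_all_iff`; `List (Fin n)` is countable. -/
theorem ae_good {A : Alg n} (hA : Solves A) : ∀ᵐ c ∂coins n, Good A c := by
  have h1 : ∀ᵐ c ∂coins n, ∀ (q z : Fin n) (l : List (Fin n)) (t t' : ℕ) (i j : Fin n)
      (v v' : Bool), Outputs A (fun i => decide (i = q)) c (sch l z) t i v →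
      Outputs A (fun i => decide (i = q)) c (sch l z) t' j v' → v = v' := by
    rw [ae_all_iff]
    intro q
    rw [ae_all_iff]
    intro z
    rw [ae_all_iff]
    intro l
    exact hA.agreement _ _
  have h2 : ∀ᵐ c ∂coins n, ∀ (z : Fin n) (l : List (Fin n)) (t : ℕ) (i : Fin n) (v : Bool),
      Outputs A (fun _ => false) c (sch l z) t i v → ∃ _ : Fin n, false = v := by
    rw [ae_all_iff]
    intro z
    rw [ae_all_iff]
    intro l
    exact hA.validity _ _
  have h3 : ∀ᵐ c ∂coins n, ∀ (z : Fin n) (l : List (Fin n)) (t : ℕ) (i : Fin n) (v : Bool),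
      Outputs A (fun _ => true) c (sch l z) t i v → ∃ _ : Fin n, true = v := by
    rw [ae_all_iff]
    intro z
    rw [ae_all_iff]
    intro l
    exact hA.validity _ _
  have h4 : ∀ᵐ c ∂coins n, ∀ z : Fin n, ∃ t v, Outputs A (fun _ => true) c (sch [] z) t z v := by
    rw [ae_all_iff]
    intro z
    exact hA.wait_free _ _ z (fun t => ⟨t, le_rfl, by simp [sch]⟩)
  filter_upwards [h1, h2, h3, h4] with c h1 h2 h3 h4
  refine ⟨h1, ?_, ?_, h4⟩
  · intro z l t i v h
    obtain ⟨_, h⟩ := h2 z l t i v h
    exact h.symm
  · intro z l t i v h
    obtain ⟨_, h⟩ := h3 z l t i v h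
    exact h.symm

/-- What an action does. -/
private def ME2_act (i : Fin n) (a : Act n) (C : Config n) : Config n :=
  match a with
  | .read w k => ⟨C.mem, Function.update C.hist i (some (C.mem w i k) :: C.hist i)⟩
  | .write r k v =>
    ⟨Function.update C.mem i (Function.update (C.mem i) r (Function.update (C.mem i r) k v)),
      Function.update C.hist i (none :: C.hist i)⟩
  | .output _ => C

private theorem ME2_step (i : Fin n) (C : Config n) :
    step A b c i C = ME2_act i (A.next i (b i) (c i) (C.hist i)) C := by
  unfold step ME2_act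
  rfl

/-- A code of the actions. -/
private def ME2_code : Act n → (Fin n × ℕ) ⊕ (Fin n × ℕ × ℕ) ⊕ Bool
  | .read w k => Sum.inl (w, k)
  | .write r k v => Sum.inr (Sum.inl (r, k, v))
  | .output v => Sum.inr (Sum.inr v)

private theorem ME2_countable : Countable (Act n) := by
  refine Function.Injective.countable (f := ME2_code (n := n)) ?_
  intro a a' h
  cases a <;> cases a' <;> simp_all [ME2_code]

/-- **Module ME2.**  By induction on `t` for all sets `S` of configurations: `{c | run A b c σ t ∈ S}` is
measurable.  (`run .. (t + 1) = step ..`, which is determined by `run .. t` and the action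
`A.next (σ t) (b (σ t)) (c (σ t)) h`, `h = (run .. t).hist (σ t)`; countable unions over `h` and over the
actions; `A.measurable_next`; `c ↦ c (σ t)` is measurable.) -/
theorem measurableSet_run (σ : ℕ → Fin n) (t : ℕ) (S : Set (Config n)) :
    MeasurableSet {c : Fin n → ℕ → Bool | run A b c σ t ∈ S} := by
  have : Countable (Act n) := ME2_countable
  induction t generalizing S with
  | zero => exact MeasurableSet.const (Config.init n ∈ S)
  | succ t ih =>
    have e : {c : Fin n → ℕ → Bool | run A b c σ (t + 1) ∈ S} =
        ⋃ h : List (Option ℕ), ⋃ a : Act n,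
          ({c : Fin n → ℕ → Bool | run A b c σ t ∈
              {C : Config n | C.hist (σ t) = h ∧ ME2_act (σ t) a C ∈ S}} ∩
            {c : Fin n → ℕ → Bool | A.next (σ t) (b (σ t)) (c (σ t)) h = a}) := by
      ext c
      simp only [Set.mem_iUnion, Set.mem_inter_iff, Set.mem_ofPred_eq]
      constructor
      · intro h
        refine ⟨(run A b c σ t).hist (σ t), _, ⟨rfl, ?_⟩, rfl⟩
        rw [← ME2_step]
        exact h
      · rintro ⟨h, a, ⟨h1, h2⟩, h3⟩
        have : run A b c σ (t + 1) = step A b c (σ t) (run A b c σ t) := rfl
        rw [this, ME2_step, h1, h3]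
        exact h2
    rw [e]
    refine MeasurableSet.iUnion fun h => MeasurableSet.iUnion fun a => (ih _).inter ?_
    have hm : Measurable fun c : Fin n → ℕ → Bool => c (σ t) := measurable_pi_apply _
    exact hm (A.measurable_next (σ t) (b (σ t)) h a)

/-- **Module ME2.** -/
theorem measurable_work (l : List (Fin n)) :
    Measurable fun c : Fin n → ℕ → Bool =>
      ((∑ i, ((runL A b c l).hist i).length : ℕ) : ℝ) := by
  have h : Measurable fun c : Fin n → ℕ → Bool => (∑ i, ((runL A b c l).hist i).length : ℕ) := by
    rcases l with _ | ⟨x, l⟩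
    · exact (measurable_const : Measurable fun _ : Fin n → ℕ → Bool =>
        (∑ i, ((Config.init n).hist i).length : ℕ))
    · refine measurable_to_countable' fun m => ?_
      have e : (fun c : Fin n → ℕ → Bool =>
          (∑ i, ((runL A b c (x :: l)).hist i).length : ℕ)) ⁻¹' {m} =
          {c : Fin n → ℕ → Bool | run A b c (sch (x :: l) x) ((x :: l).length + 0) ∈
            {C : Config n | (∑ i, (C.hist i).length : ℕ) = m}} := by
        ext c
        simp only [Set.mem_preimage, Set.mem_singleton_iff, Set.mem_ofPred_eq]
        rw [run_sch, List.replicate_zero, List.append_nil]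
      rw [e]
      exact measurableSet_run A b _ _ _
  exact measurable_from_top.comp h

/-- **Module ME3.**  (`work_le`: the number of steps is at most the length of the schedule.) -/
theorem work_le (l : List (Fin n)) :
    ((∑ i, ((runL A b c l).hist i).length : ℕ) : ℝ) ≤ l.length := by
  have key : (∑ i, ((runL A b c l).hist i).length : ℕ) ≤ l.length := by
    induction l using List.reverseRecOn with
    | nil => simp [runL, Config.init]
    | append_singleton l z ih =>
      rw [LK1_runL_snoc, List.length_append, List.length_singleton]
      have h1 : ∀ i, ((step A b c z (runL A b c l)).hist i).length ≤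
          ((runL A b c l).hist i).length + if i = z then 1 else 0 := by
        intro i
        by_cases hi : i = z
        · subst hi
          rw [if_pos rfl]
          unfold step
          split <;> simp
        · rw [step_hist_ne A b c hi, if_neg hi, add_zero]
      refine (Finset.sum_le_sum fun i _ => h1 i).trans ?_
      rw [Finset.sum_add_distrib, Finset.sum_ite_eq' Finset.univ z, if_pos (Finset.mem_univ z)]
      exact Nat.add_le_add_right ih 1
  exact_mod_cast key

/-- **Module ME3.**  The schedule `sch l z` (any `z`), `run_sch` with `t = 0`. -/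
theorem lintegral_work_le (l : List (Fin n)) (hn : 0 < n) :
    ∫⁻ c, ((∑ i, ((runL A b c l).hist i).length : ℕ) : ℝ≥0∞) ∂coins n ≤ cost A := by
  unfold cost
  refine le_iSup₂_of_le b (sch l ⟨0, hn⟩) (lintegral_mono fun c => ?_)
  unfold totalWork
  refine le_trans ?_ (le_iSup _ (l.length + 0))
  rw [run_sch, List.replicate_zero, List.append_nil]

/-- **Module ME4.**  Averages over the random slots.  `C = (cost A).toReal`; for every `P` the integral of
the work of the schedule `bl [] P` is at most `C` (`lintegral_work_le`, `measurable_work`, `work_le`);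
`Fut` is a finite linear combination with nonnegative coefficients of total mass one, so it commutes
with the integral.  (Induction on `r`, for all `P`: `c ↦ Fut s0 K r (work c) P` is measurable, bounded,
and its integral is at most `C`.) -/
theorem cost_ge {s0 K N : ℕ} {X : ℝ} (hn : 0 < n) (hs0 : 1 ≤ s0) (hK : 1 ≤ K)
    (h : ∀ᵐ c ∂coins n, X ≤ Fut s0 K N
      (fun P => ((∑ i, ((runL A (fun _ => false) c (bl [] P)).hist i).length : ℕ) : ℝ)) []) :
    ENNReal.ofReal X ≤ cost A := by
  have : IsProbabilityMeasure (coins n) := by
    unfold coins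
    infer_instance
  by_cases htop : cost A = ⊤
  · rw [htop]
    exact le_top
  obtain ⟨wk, hwk⟩ : ∃ wk : (Fin n → ℕ → Bool) → List (Slot n) → ℝ, wk = fun c P =>
    ((∑ i, ((runL A (fun _ => false) c (bl [] P)).hist i).length : ℕ) : ℝ) := ⟨_, rfl⟩
  have key : ∀ (r : ℕ) (P : List (Slot n)),
      Integrable (fun c => Fut s0 K r (wk c) P) (coins n) ∧
        ∫ c, Fut s0 K r (wk c) P ∂coins n ≤ (cost A).toReal := by
    intro r
    induction r with
    | zero =>
      intro P
      have hm := measurable_work A (fun _ => false) (bl [] P)
      have hI : Integrable (fun c => Fut s0 K 0 (wk c) P) (coins n) := by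
        rw [hwk]
        refine Integrable.of_bound hm.aestronglyMeasurable ((bl [] P).length : ℝ)
          (Filter.Eventually.of_forall fun c => ?_)
        simp only [Fut]
        rw [Real.norm_of_nonneg (Nat.cast_nonneg _)]
        exact work_le A _ c _
      refine ⟨hI, ?_⟩
      rw [integral_eq_lintegral_of_nonneg_ae
        (Filter.Eventually.of_forall fun c => by
          rw [hwk]
          exact Nat.cast_nonneg _) hI.1]
      refine ENNReal.toReal_mono htop ?_
      refine le_trans (le_of_eq ?_) (lintegral_work_le A (fun _ => false) (bl [] P) hn)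
      refine lintegral_congr fun c => ?_
      rw [hwk]
      simp only [Fut]
      rw [ENNReal.ofReal_natCast]
    | succ r ih =>
      intro P
      have e : (fun c => Fut s0 K (r + 1) (wk c) P) = fun c => ∑ z : Fin n,
          ∑ k ∈ Finset.range K, rho n s0 K k * Fut s0 K r (wk c) ((z, sc s0 k) :: P) := by
        funext c
        rw [Fut]
      have hI : ∀ (z : Fin n) (k : ℕ), Integrable (fun c => rho n s0 K k *
          Fut s0 K r (wk c) ((z, sc s0 k) :: P)) (coins n) := fun z k =>
        (ih _).1.const_mul _
      rw [e]
      refine ⟨integrable_finsetSum _ fun z _ => integrable_finsetSum _ fun k _ => hI z k, ?_⟩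
      rw [integral_finsetSum _ fun z _ => integrable_finsetSum _ fun k _ => hI z k]
      calc ∑ z : Fin n, ∫ c, ∑ k ∈ Finset.range K, rho n s0 K k *
            Fut s0 K r (wk c) ((z, sc s0 k) :: P) ∂coins n
          = ∑ z : Fin n, ∑ k ∈ Finset.range K, rho n s0 K k *
            ∫ c, Fut s0 K r (wk c) ((z, sc s0 k) :: P) ∂coins n := by
            refine Finset.sum_congr rfl fun z _ => ?_
            rw [integral_finsetSum _ fun k _ => hI z k]
            refine Finset.sum_congr rfl fun k _ => ?_
            rw [integral_const_mul]
        _ ≤ ∑ z : Fin n, ∑ k ∈ Finset.range K, rho n s0 K k * (cost A).toReal := by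
            refine Finset.sum_le_sum fun z _ => Finset.sum_le_sum fun k _ => ?_
            exact mul_le_mul_of_nonneg_left (ih _).2 (rho_nonneg s0 K k)
        _ = (∑ z : Fin n, ∑ k ∈ Finset.range K, rho n s0 K k) * (cost A).toReal := by
            rw [Finset.sum_mul]
            refine Finset.sum_congr rfl fun z _ => ?_
            rw [Finset.sum_mul]
        _ = (cost A).toReal := by
            rw [sum_rho s0 K hn hs0 hK, one_mul]
  have h1 : X ≤ (cost A).toReal := by
    have h2 : ∫ _c, X ∂coins n ≤ ∫ c, Fut s0 K N (wk c) [] ∂coins n := by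
      refine integral_mono_ae (integrable_const X) (key N []).1 ?_
      rw [hwk]
      exact h
    rw [integral_const, probReal_univ, one_smul] at h2
    exact h2.trans (key N []).2
  calc ENNReal.ofReal X ≤ ENNReal.ofReal (cost A).toReal := ENNReal.ofReal_le_ofReal h1
    _ = cost A := ENNReal.ofReal_toReal htop

end Pool.Agent.MP217LB2
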