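import Pool.Agent.MP217LB2.Clean
import Pool.Agent.MP217LB2.Link

set_option autoImplicit false

/-!
# The lower bound
-/

namespace Pool.Agent.MP217LB2

open Pool.Agent.MP217Upper.Model
open MeasureTheory Finset
open scoped Classical ENNReal

variable {n : ℕ}

private theorem FI1_cnt_nonneg {nx : Prot n} {a : ℕ} (P : List (Slot n)) (f : St n → ℝ)
    (hf : ∀ σ, 0 ≤ f σ) : 0 ≤ cnt nx a P f := by
  induction P generalizing f with
  | nil => exact le_refl _
  | cons y P ih =>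
    simp only [cnt]
    have h1 : 0 ≤ (if P.length = a then f (start y P) else 0) := by
      split_ifs
      · exact hf _
      · exact le_rfl
    have h2 := ih (fun σ => f σ + ∑ i ∈ ins σ, if Ok nx σ i P y then f (nxt σ i P y) else 0)
      (fun σ => add_nonneg (hf σ) (sum_nonneg fun i _ => by
        split_ifs
        · exact hf _
        · exact le_rfl))
    exact add_nonneg h1 h2

/-- **Module FI1.**  `coverage`, `1 ≤ eff` (`InT.eff_pos`), `eff_le_cnt`. -/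
theorem decided_le {A : Alg n} {c : Fin n → ℕ → Bool} (hc : Good A c) (y : Slot n)
    (P : List (Slot n)) (hP : ((y :: P).map Prod.fst).Nodup)
    (hout : Dc (prot A (fun _ => false) c) y P) (hy : 1 ≤ y.2) (hy4 : 4 * y.2 ≤ n) :
    (1 : ℝ) ≤ 4 / n * ∑ a ∈ range P.length, cnt (prot A (fun _ => false) c) a P
      (fun σ => σ.w * ∑ i ∈ ins σ, if Ok (prot A (fun _ => false) c) σ i P y then 1 else 0) := by
  have hn : 0 < n := by omega
  have hn' : (0 : ℝ) < n := by exact_mod_cast hn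
  have h1 := coverage hc y P hP hout
  set nx := prot A (fun _ => false) c with hnx
  set F : ℕ → ℝ := fun a => cnt nx a P
      (fun σ => σ.w * ∑ i ∈ ins σ, if Ok nx σ i P y then 1 else 0) with hF
  have h2 : ((∑ a ∈ Finset.range P.length, if InT nx a y P then eff P a + 1 else 0 : ℕ) : ℝ) ≤
      2 * ∑ a ∈ range P.length, F a := by
    rw [Nat.cast_sum, mul_sum]
    refine sum_le_sum fun a ha => ?_
    have hal : a < P.length := mem_range.mp ha
    by_cases hI : InT nx a y P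
    · rw [if_pos hI]
      have h3 := hI.eff_pos (by omega)
      have h4 := eff_le_cnt hI (by omega)
      have h5 : (1 : ℝ) ≤ (eff P a : ℝ) := by exact_mod_cast h3
      push_cast
      have h6 : (eff P a : ℝ) ≤ F a := h4
      linarith
    · rw [if_neg hI]
      have h3 : 0 ≤ F a := FI1_cnt_nonneg P _ (fun σ => by
        refine mul_nonneg (Nat.cast_nonneg _) (sum_nonneg fun i _ => ?_)
        split_ifs <;> norm_num)
      push_cast
      linarith
  have h3 : (n : ℝ) ≤ (y.2 : ℝ) + 1 + 2 * ∑ a ∈ range P.length, F a := by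
    have h4 : (n : ℝ) ≤ (((y.2 + 1) + ∑ a ∈ Finset.range P.length,
      if InT nx a y P then eff P a + 1 else 0 : ℕ) : ℝ) := by exact_mod_cast h1
    rw [Nat.cast_add] at h4
    push_cast at h4 h2 ⊢
    linarith
  have h5 : (1 : ℝ) ≤ (y.2 : ℝ) := by exact_mod_cast hy
  have h6 : 4 * (y.2 : ℝ) ≤ n := by exact_mod_cast hy4
  have h7 : (n : ℝ) / 4 ≤ ∑ a ∈ range P.length, F a := by linarith
  show (1 : ℝ) ≤ 4 / n * ∑ a ∈ range P.length, F a
  calc (1 : ℝ) = 4 / n * (n / 4) := by field_simp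
    _ ≤ 4 / n * ∑ a ∈ range P.length, F a := by gcongr

private theorem FI2_BB_mono (s0 K : ℕ) {t N : ℕ} (h : t ≤ N) : BB n s0 K t ≤ BB n s0 K N := by
  unfold BB
  have h0 := c0_nonneg s0 K
  have h1 : (1 : ℝ) ≤ 1 + 48 * c0 s0 K / n := by
    have : 0 ≤ 48 * c0 s0 K / n := by positivity
    linarith
  have h2 := pow_le_pow_right₀ h1 h
  gcongr

private theorem FI2_BB_nonneg (s0 K N : ℕ) : 0 ≤ BB n s0 K N := by
  unfold BB
  have := c0_nonneg s0 K
  positivity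

/-- **Module FI2.**  `Fut_step` for `bad`, `decided_le`, `Fut_mono` (lists of length `t`), linearity
(`cnt_sum`, `cnt_mul`, `Fut_sum`, `Fut_mul`), `rho k * sc s0 k = c0 / n`, `V .. 0`, `Fut_cnt_le`; `BB` is monotone
in `v`. -/
theorem Fut_bad {A : Alg n} {c : Fin n → ℕ → Bool} (hc : Good A c) {s0 K : ℕ} (hn : 0 < n)
    (hs0 : 1 ≤ s0) (hK : 1 ≤ K) (h4 : 4 * sc s0 (K - 1) ≤ n) (N : ℕ) :
    Fut s0 K N (bad (prot A (fun _ => false) c)) [] ≤
      (N * (c0 s0 K * K)) * (4 / n * (N * BB n s0 K N)) := by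
  have hn' : (0 : ℝ) < n := by exact_mod_cast hn
  have hs0' : (0 : ℝ) < s0 := by exact_mod_cast hs0
  have hc0 := c0_nonneg s0 K
  set nx := prot A (fun _ => false) c with hnx
  set g : Slot n → List (Slot n) → ℝ := fun y P =>
    if ((y :: P).map Prod.fst).Nodup ∧ Dc nx y P then (y.2 : ℝ) else 0 with hg
  rw [Fut_step hn hs0 hK (bad nx) g (fun y P => rfl)]
  have hbad0 : bad nx ([] : List (Slot n)) = 0 := rfl
  rw [hbad0, zero_add]
  have hsc : ∀ k, k < K → 4 * sc s0 k ≤ n := fun k hk => by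
    have : sc s0 k ≤ sc s0 (K - 1) :=
      Nat.mul_le_mul_left _ (Nat.pow_le_pow_right (by norm_num) (by omega))
    omega
  have hsc1 : ∀ k, 1 ≤ sc s0 k := fun k => Nat.mul_pos (by omega) (by positivity)
  have hterm : ∀ t ∈ range N, Fut s0 K t (fun P' => ∑ z : Fin n, ∑ k ∈ range K,
      rho n s0 K k * g (z, sc s0 k) P') [] ≤ (c0 s0 K * K) * (4 / n * (N * BB n s0 K N)) := by
    intro t ht
    have htN : t < N := mem_range.mp ht
    have h1 : Fut s0 K t (fun P' => ∑ z : Fin n, ∑ k ∈ range K,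
        rho n s0 K k * g (z, sc s0 k) P') [] ≤
        Fut s0 K t (fun P' => ∑ k ∈ range K, ∑ a ∈ range t, (c0 s0 K * (4 / n)) *
          cnt nx a P' (fun σ => σ.w * V nx s0 K (sc s0 k) 0 σ P')) [] := by
      refine Fut_mono fun P' hP' => ?_
      rw [List.length_nil, zero_add] at hP'
      rw [sum_comm]
      refine sum_le_sum fun k hk => ?_
      have hk' := mem_range.mp hk
      have h2 : ∀ z : Fin n, g (z, sc s0 k) P' ≤ (sc s0 k : ℝ) * (4 / n * ∑ a ∈ range t, cnt nx a P'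
          (fun σ => σ.w * ∑ i ∈ ins σ, if Ok nx σ i P' (z, sc s0 k) then 1 else 0)) := by
        intro z
        have hnn : 0 ≤ (4 / n * ∑ a ∈ range t, cnt nx a P'
          (fun σ => σ.w * ∑ i ∈ ins σ, if Ok nx σ i P' (z, sc s0 k) then 1 else 0) : ℝ) := by
          refine mul_nonneg (by positivity) (sum_nonneg fun a _ => FI1_cnt_nonneg P' _ fun σ => ?_)
          refine mul_nonneg (Nat.cast_nonneg _) (sum_nonneg fun i _ => ?_)
          split_ifs <;> norm_num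
        simp only [hg]
        split_ifs with hcond
        · have h3 := decided_le hc (z, sc s0 k) P' hcond.1 hcond.2 (hsc1 k) (hsc k hk')
          rw [hP'] at h3
          calc ((sc s0 k : ℕ) : ℝ) = (sc s0 k : ℝ) * 1 := by ring
            _ ≤ _ := mul_le_mul_of_nonneg_left h3 (Nat.cast_nonneg _)
        · exact mul_nonneg (Nat.cast_nonneg _) hnn
      have h4 : rho n s0 K k * sc s0 k = c0 s0 K / n := by
        unfold rho
        have : (0 : ℝ) < sc s0 k := by exact_mod_cast hsc1 k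
        field_simp
      calc ∑ z : Fin n, rho n s0 K k * g (z, sc s0 k) P'
          ≤ ∑ z : Fin n, rho n s0 K k * ((sc s0 k : ℝ) * (4 / n * ∑ a ∈ range t, cnt nx a P'
          (fun σ => σ.w * ∑ i ∈ ins σ, if Ok nx σ i P' (z, sc s0 k) then 1 else 0))) :=
            sum_le_sum fun z _ => mul_le_mul_of_nonneg_left (h2 z) (rho_nonneg s0 K k)
        _ = ∑ z : Fin n, ∑ a ∈ range t, (c0 s0 K * (4 / n)) * (1 / n * cnt nx a P'
          (fun σ => σ.w * ∑ i ∈ ins σ, if Ok nx σ i P' (z, sc s0 k) then 1 else 0)) := by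
            refine sum_congr rfl fun z _ => ?_
            rw [← mul_assoc, h4, mul_sum, mul_sum]
            refine sum_congr rfl fun a _ => ?_
            ring
        _ = ∑ a ∈ range t, (c0 s0 K * (4 / n)) * ∑ z : Fin n, (1 / n * cnt nx a P'
          (fun σ => σ.w * ∑ i ∈ ins σ, if Ok nx σ i P' (z, sc s0 k) then 1 else 0)) := by
            rw [sum_comm]
            refine sum_congr rfl fun a _ => ?_
            rw [mul_sum]
        _ = _ := by
            refine sum_congr rfl fun a _ => ?_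
            congr 1
            have e : (fun σ : St n => (σ.w : ℝ) * V nx s0 K (sc s0 k) 0 σ P') =
                (fun σ => ∑ z : Fin n, (1 / n : ℝ) *
                  (σ.w * ∑ i ∈ ins σ, if Ok nx σ i P' (z, sc s0 k) then 1 else 0)) := by
              funext σ
              simp only [V]
              rw [mul_sum, mul_sum]
              refine sum_congr rfl fun z _ => ?_
              ring
            rw [e, cnt_sum]
            refine sum_congr rfl fun z _ => ?_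
            rw [cnt_mul]
    refine h1.trans ?_
    rw [Fut_sum]
    have h5 : ∀ k ∈ range K, Fut s0 K t (fun P' => ∑ a ∈ range t, (c0 s0 K * (4 / n)) *
          cnt nx a P' (fun σ => σ.w * V nx s0 K (sc s0 k) 0 σ P')) [] ≤
          (c0 s0 K) * (4 / n * (N * BB n s0 K N)) := by
      intro k hk
      have hk' := mem_range.mp hk
      rw [Fut_sum]
      have h6 : ∀ a ∈ range t, Fut s0 K t (fun P' => (c0 s0 K * (4 / n)) *
          cnt nx a P' (fun σ => σ.w * V nx s0 K (sc s0 k) 0 σ P')) [] ≤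
          (c0 s0 K * (4 / n)) * BB n s0 K N := by
        intro a _
        rw [Fut_mul]
        refine mul_le_mul_of_nonneg_left ?_ (by positivity)
        exact (Fut_cnt_le hn hs0 hk' t).trans (FI2_BB_mono s0 K htN.le)
      refine (sum_le_sum h6).trans ?_
      rw [sum_const, card_range, nsmul_eq_mul]
      have h7 : (t : ℝ) ≤ N := by exact_mod_cast htN.le
      have h8 := FI2_BB_nonneg (n := n) s0 K N
      calc (t : ℝ) * (c0 s0 K * (4 / n) * BB n s0 K N)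
          ≤ N * (c0 s0 K * (4 / n) * BB n s0 K N) := mul_le_mul_of_nonneg_right h7 (by positivity)
        _ = _ := by ring
    refine (sum_le_sum h5).trans (le_of_eq ?_)
    rw [sum_const, card_range, nsmul_eq_mul]
    ring
  refine (sum_le_sum hterm).trans (le_of_eq ?_)
  rw [sum_const, card_range, nsmul_eq_mul]
  ring

/-- **Module FI3.**  `Fut_mono` with `work_ge`, `Fut_tot`, `Fut_bad`, `Fut_tot_nd`. -/
theorem Fut_work {A : Alg n} {c : Fin n → ℕ → Bool} (hc : Good A c) {s0 K : ℕ} (hn : 0 < n)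
    (hs0 : 1 ≤ s0) (hK : 1 ≤ K) (h4 : 4 * sc s0 (K - 1) ≤ n) (N : ℕ) :
    (N * (c0 s0 K * K)) * (1 - (N : ℝ) ^ 2 / (2 * n) - 4 / n * (N * BB n s0 K N)) ≤
      Fut s0 K N (fun P =>
        ((∑ i, ((runL A (fun _ => false) c (bl [] P)).hist i).length : ℕ) : ℝ)) [] := by
  set nx := prot A (fun _ => false) c with hnx
  have h1 : Fut s0 K N (fun P => tot P + ((-1 : ℝ) * bad nx P + (-1 : ℝ) * (tot P * nd P))) [] ≤
      Fut s0 K N (fun P =>
        ((∑ i, ((runL A (fun _ => false) c (bl [] P)).hist i).length : ℕ) : ℝ)) [] := by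
    refine Fut_mono fun P _ => ?_
    have h := work_ge A (fun _ => false) c P
    simp only [← hnx] at h
    linarith
  refine le_trans ?_ h1
  rw [Fut_add, Fut_add, Fut_mul, Fut_mul, Fut_tot hn hs0 hK]
  have h2 := Fut_bad hc hn hs0 hK h4 N
  have h3 := Fut_tot_nd (n := n) hn hs0 hK N
  simp only [← hnx] at h2
  linarith

private theorem FI4_exp (x : ℝ) (N : ℕ) (g : ℕ) (hx : 0 ≤ x) (h : N * x ≤ 3 / 4 * g) :
    (1 + x) ^ N ≤ 4 ^ g := by
  have h1 : (1 + x) ^ N ≤ Real.exp (N * x) := by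
    rw [Real.exp_nat_mul]
    refine pow_le_pow_left₀ (by positivity) ?_ N
    rw [add_comm]
    exact Real.add_one_le_exp x
  have h2 : Real.exp (N * x) ≤ Real.exp (g * 1) := by
    apply Real.exp_le_exp.mpr
    have : (0 : ℝ) ≤ g := Nat.cast_nonneg g
    linarith
  have h3 : Real.exp (g * 1) = Real.exp 1 ^ g := Real.exp_nat_mul 1 g
  have h4 : Real.exp 1 ^ g ≤ 4 ^ g := by
    refine pow_le_pow_left₀ (Real.exp_pos 1).le ?_ g
    have := Real.exp_one_lt_d9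
    linarith
  linarith

private theorem FI4_t1 (n G g N : ℝ) (hn : 0 < n) (hG : 32 ≤ G) (hN : 0 ≤ N)
    (hNN : N ≤ n * g / (64 * G ^ 5)) (hsq : g ^ 2 ≤ G) (h2 : n ≤ 65536 * G ^ 8) :
    N ^ 2 / (2 * n) ≤ 1 / 4 := by
  have hG0 : 0 < G := by linarith
  rw [div_le_iff₀ (by positivity)]
  have h3 : N ^ 2 ≤ (n * g / (64 * G ^ 5)) ^ 2 := pow_le_pow_left₀ hN hNN 2
  refine h3.trans ?_
  have h4 : (n * g / (64 * G ^ 5)) ^ 2 = n * (n * g ^ 2 / (4096 * G ^ 10)) := by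
    field_simp
    ring
  rw [h4]
  have h5 : n * g ^ 2 / (4096 * G ^ 10) ≤ 1 / 2 := by
    rw [div_le_iff₀ (by positivity)]
    have a1 : n * g ^ 2 ≤ (65536 * G ^ 8) * G := mul_le_mul h2 hsq (by positivity) (by positivity)
    have a2 : (65536 : ℝ) * G ^ 9 ≤ (2048 * G) * G ^ 9 :=
      mul_le_mul_of_nonneg_right (by linarith) (by positivity)
    have a3 : (65536 * G ^ 8) * G = 65536 * G ^ 9 := by ring
    have a4 : (2048 * G) * G ^ 9 = 1 / 2 * (4096 * G ^ 10) := by ring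
    linarith
  have h6 := mul_le_mul_of_nonneg_left h5 hn.le
  linarith

private theorem FI4_t3 (n C G g N x : ℝ) (hn : 0 < n) (hG : 0 < G) (hg : 0 ≤ g) (hN : 0 ≤ N)
    (hC : 0 ≤ C) (hCG : C ≤ G ^ 5) (hNN : N ≤ n * g / (64 * G ^ 5)) (hx0 : 0 ≤ x) (hx : x ≤ G)
    (hsq : g ^ 2 ≤ G) (h1 : G ^ 8 ≤ n) :
    4 / n * (N * (12 * x * (C * g * (G ^ 6 / 4) / n))) ≤ 1 / 4 := by
  have a1 : 12 * x * (C * g * (G ^ 6 / 4) / n) ≤ 12 * G * (G ^ 5 * g * (G ^ 6 / 4) / n) := by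
    gcongr
  have a2 : N * (12 * x * (C * g * (G ^ 6 / 4) / n)) ≤
      (n * g / (64 * G ^ 5)) * (12 * G * (G ^ 5 * g * (G ^ 6 / 4) / n)) :=
    mul_le_mul hNN a1 (by positivity) (by positivity)
  have a3 : 4 / n * ((n * g / (64 * G ^ 5)) * (12 * G * (G ^ 5 * g * (G ^ 6 / 4) / n))) =
      3 / 16 * (g ^ 2 * G ^ 7) / n := by
    field_simp
    ring
  have a4 : 4 / n * (N * (12 * x * (C * g * (G ^ 6 / 4) / n))) ≤ 3 / 16 * (g ^ 2 * G ^ 7) / n := by
    rw [← a3]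
    exact mul_le_mul_of_nonneg_left a2 (by positivity)
  have a5 : 3 / 16 * (g ^ 2 * G ^ 7) / n ≤ 3 / 16 := by
    rw [div_le_iff₀ hn]
    have a6 : g ^ 2 * G ^ 7 ≤ G * G ^ 7 := mul_le_mul_of_nonneg_right hsq (by positivity)
    have a7 : G * G ^ 7 = G ^ 8 := by ring
    nlinarith
  linarith

private theorem FI4_t4 (n C G g N : ℝ) (hg : 0 ≤ g) (hN : 0 ≤ N)
    (hNge : n * g ≤ N * (128 * G ^ 5)) (hc : 3 / 4 * G ^ 5 ≤ C) :
    3 * n * g ^ 2 / 512 ≤ N * (C * g) := by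
  have a1 : (3 / 512 * g) * (n * g) ≤ (3 / 512 * g) * (N * (128 * G ^ 5)) :=
    mul_le_mul_of_nonneg_left hNge (by positivity)
  have a2 : N * (3 / 4 * G ^ 5 * g) ≤ N * (C * g) :=
    mul_le_mul_of_nonneg_left (mul_le_mul_of_nonneg_right hc hg) hN
  nlinarith

private theorem FI4_fin (n C G g N x : ℝ) (hn : 0 < n) (hG : 32 ≤ G) (hg : 0 ≤ g) (hN : 0 ≤ N)
    (hC : 0 ≤ C) (hCG : C ≤ G ^ 5) (hc : 3 / 4 * G ^ 5 ≤ C) (hNN : N * (64 * G ^ 5) ≤ n * g)
    (hNge : n * g ≤ N * (128 * G ^ 5)) (hx0 : 0 ≤ x) (hx : x ≤ G)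
    (hsq : g ^ 2 ≤ G) (h1 : G ^ 8 ≤ n) (h2 : n ≤ 65536 * G ^ 8) :
    3 * n * g ^ 2 / 1024 ≤ (N * (C * g)) *
      (1 - N ^ 2 / (2 * n) - 4 / n * (N * (12 * x * (C * g * (G ^ 6 / 4) / n)))) := by
  have hG0 : 0 < G := by linarith
  have hNN' : N ≤ n * g / (64 * G ^ 5) := by
    rw [le_div_iff₀ (by positivity)]
    exact hNN
  have t1 := FI4_t1 n G g N hn hG hN hNN' hsq h2
  have t3 := FI4_t3 n C G g N x hn hG0 hg hN hC hCG hNN' hx0 hx hsq h1
  have t4 := FI4_t4 n C G g N hg hN hNge hc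
  have t6 : (0 : ℝ) ≤ N * (C * g) := by positivity
  have t7 := mul_le_mul_of_nonneg_left
    (show (1 : ℝ) / 2 ≤ 1 - N ^ 2 / (2 * n) -
      4 / n * (N * (12 * x * (C * g * (G ^ 6 / 4) / n))) by linarith) t6
  linarith

private theorem FI4_sq (g : ℕ) : (g : ℝ) ^ 2 ≤ 4 ^ g := by
  have h1 : g ≤ 2 ^ g := Nat.lt_two_pow_self.le
  have h2 : (g : ℝ) ≤ 2 ^ g := by exact_mod_cast h1
  calc (g : ℝ) ^ 2 ≤ (2 ^ g) ^ 2 := pow_le_pow_left₀ (Nat.cast_nonneg g) h2 2
    _ = 4 ^ g := by rw [← pow_mul, mul_comm, pow_mul]; norm_num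

private theorem FI4_N (n g s : ℕ) (hs : 0 < s) (h : 2 * s ≤ n * g) :
    n * g / s * s ≤ n * g ∧ n * g ≤ n * g / s * (2 * s) := by
  have h1 := Nat.div_mul_le_self (n * g) s
  have h2 := Nat.lt_mul_div_succ (n * g) hs
  have h3 : s * (n * g / s + 1) = n * g / s * s + s := by ring
  have h4 : n * g / s * (2 * s) = 2 * (n * g / s * s) := by ring
  omega

private theorem FI4_sc (g : ℕ) (hg : 1 ≤ g) : 4 * sc (4 ^ (5 * g)) (g - 1) = 4 ^ (6 * g) := by
  obtain ⟨j, rfl⟩ : ∃ j, g = j + 1 := ⟨g - 1, by omega⟩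
  unfold sc
  rw [Nat.add_sub_cancel]
  ring

/-- **Module FI4.**  `s0 = 4 ^ (5 g)`, `K = g`, `N = n g / (64 s0)` (floor).  `c0 N / n ≤ g / 64`,
`(1 + 48 c0 / n) ^ N ≤ exp (48 c0 N / n) ≤ exp (3 g / 4) ≤ 4 ^ g`; `N² / (2 n) ≤ 8 g² / 2 ^ (4 g) ≤ 1/4`;
`4 / n * (N * BB) ≤ (3/16) g² / 4 ^ g ≤ 1/4`; `N ≥ n g / (128 s0)`, `c0 ≥ 3/4 s0`. -/
theorem params {g : ℕ} (hg : 5 ≤ g) (h1 : 2 ^ (16 * g) ≤ n) (h2 : n < 2 ^ (16 * g + 16)) :
    ∃ s0 K N : ℕ, 1 ≤ s0 ∧ 1 ≤ K ∧ 4 * sc s0 (K - 1) ≤ n ∧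
      3 * (n : ℝ) * (g : ℝ) ^ 2 / 1024 ≤
        (N * (c0 s0 K * K)) * (1 - (N : ℝ) ^ 2 / (2 * n) - 4 / n * (N * BB n s0 K N)) := by
  have hG32 : (32 : ℝ) ≤ 4 ^ g := by
    calc (32 : ℝ) ≤ 4 ^ 5 := by norm_num
      _ ≤ 4 ^ g := pow_le_pow_right₀ (by norm_num) hg
  have hn : 0 < n := lt_of_lt_of_le (by positivity) h1
  have hn' : (0 : ℝ) < n := by exact_mod_cast hn
  have h1N : 4 ^ (8 * g) ≤ n := by
    rw [show 4 ^ (8 * g) = 2 ^ (16 * g) by
      rw [show (4 : ℕ) = 2 ^ 2 by norm_num, ← pow_mul]; congr 1; ring]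
    exact h1
  have h2N : n ≤ 65536 * 4 ^ (8 * g) := by
    rw [show 4 ^ (8 * g) = 2 ^ (16 * g) by
      rw [show (4 : ℕ) = 2 ^ 2 by norm_num, ← pow_mul]; congr 1; ring]
    rw [pow_add] at h2
    omega
  have h1' : ((4 : ℝ) ^ g) ^ 8 ≤ n := by
    rw [← pow_mul, mul_comm g 8]
    exact_mod_cast h1N
  have h2' : (n : ℝ) ≤ 65536 * ((4 : ℝ) ^ g) ^ 8 := by
    rw [← pow_mul, mul_comm g 8]
    exact_mod_cast h2N
  have hbig : 2 * (64 * 4 ^ (5 * g)) ≤ n * g := by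
    have a1 : 2 * (64 * 4 ^ (5 * g)) ≤ 4 ^ (8 * g) := by
      calc 2 * (64 * 4 ^ (5 * g)) = 128 * 4 ^ (5 * g) := by ring
        _ ≤ 4 ^ (3 * g) * 4 ^ (5 * g) := Nat.mul_le_mul_right _ (by
            calc 128 ≤ 4 ^ 4 := by norm_num
              _ ≤ 4 ^ (3 * g) := Nat.pow_le_pow_right (by norm_num) (by omega))
        _ = 4 ^ (8 * g) := by rw [← pow_add]; congr 1; ring
    calc 2 * (64 * 4 ^ (5 * g)) ≤ n := a1.trans h1N
      _ = n * 1 := (mul_one n).symm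
      _ ≤ n * g := Nat.mul_le_mul_left _ (by omega)
  have hNN := FI4_N n g (64 * 4 ^ (5 * g)) (by positivity) hbig
  obtain ⟨N, hN⟩ : ∃ N : ℕ, n * g / (64 * 4 ^ (5 * g)) = N := ⟨_, rfl⟩
  rw [hN] at hNN
  have hs : (((4 : ℝ) ^ g) ^ 5) = ((4 ^ (5 * g) : ℕ) : ℝ) := by
    rw [← pow_mul, mul_comm g 5]
    push_cast
    rfl
  have hN1 : (N : ℝ) * (64 * ((4 : ℝ) ^ g) ^ 5) ≤ n * g := by
    rw [hs]
    exact_mod_cast hNN.1
  have hN2 : (n : ℝ) * g ≤ N * (128 * ((4 : ℝ) ^ g) ^ 5) := by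
    rw [hs]
    have := hNN.2
    have e : N * (2 * (64 * 4 ^ (5 * g))) = N * (128 * 4 ^ (5 * g)) := by ring
    rw [e] at this
    exact_mod_cast this
  have hc1 := c0_le (4 ^ (5 * g)) g (by omega)
  have hc2 := le_c0 (4 ^ (5 * g)) g (by omega)
  have hc0 := c0_nonneg (4 ^ (5 * g)) g
  rw [← hs] at hc1 hc2
  have hx0 : 0 ≤ 48 * c0 (4 ^ (5 * g)) g / n := div_nonneg (mul_nonneg (by norm_num) hc0) hn'.le
  have hx : (1 + 48 * c0 (4 ^ (5 * g)) g / n) ^ N ≤ 4 ^ g := by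
    refine FI4_exp _ N g hx0 ?_
    rw [← mul_div_assoc, div_le_iff₀ hn']
    calc (N : ℝ) * (48 * c0 (4 ^ (5 * g)) g) ≤ N * (48 * ((4 : ℝ) ^ g) ^ 5) :=
          mul_le_mul_of_nonneg_left (mul_le_mul_of_nonneg_left hc1 (by norm_num)) (Nat.cast_nonneg N)
      _ = 3 / 4 * (N * (64 * ((4 : ℝ) ^ g) ^ 5)) := by ring
      _ ≤ 3 / 4 * (n * g) := mul_le_mul_of_nonneg_left hN1 (by norm_num)
      _ = 3 / 4 * g * n := by ring
  have hsc := FI4_sc g (by omega)
  have hsc' : (sc (4 ^ (5 * g)) (g - 1) : ℝ) = ((4 : ℝ) ^ g) ^ 6 / 4 := by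
    have a1 : (4 : ℝ) * (sc (4 ^ (5 * g)) (g - 1) : ℝ) = (4 : ℝ) ^ (6 * g) := by exact_mod_cast hsc
    rw [← pow_mul, mul_comm g 6]
    linarith
  refine ⟨4 ^ (5 * g), g, N, Nat.one_le_pow _ _ (by norm_num), by omega, ?_, ?_⟩
  · rw [hsc]
    exact (Nat.pow_le_pow_right (by norm_num) (by omega)).trans h1N
  · unfold BB
    rw [hsc']
    exact FI4_fin n (c0 (4 ^ (5 * g)) g) (4 ^ g) g N _ hn' hG32 (Nat.cast_nonneg g)
      (Nat.cast_nonneg N) hc0 hc1 hc2 hN1 hN2 (pow_nonneg (by linarith) N) hx (FI4_sq g) h1' h2'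

private theorem FI5_len {A : Alg n} {c : Fin n → ℕ → Bool} (hc : Good A c) (hn : 2 ≤ n)
    (z : Fin n) : (hh (prot A (fun _ => false) c) [] [] z (n - 1)).length = n - 1 := by
  obtain ⟨m, rfl⟩ : ∃ m, n = m + 2 := ⟨n - 2, by omega⟩
  have h1 : ¬ Dc (prot A (fun _ => false) c) (z, m) [] := by
    intro hD
    have h2 := coverage hc (z, m) [] (by simp) hD
    simp at h2
  set nx := prot A (fun _ => false) c with hnx
  have h3 : (hh nx [] [] z m).length = m := hst_length h1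
  have h4 : ∀ o, nx z (hh nx [] [] z m) ≠ .output o := fun o ho => h1 ⟨o, ho⟩
  show (hst (nx z) z (fun w k => mw nx [] [] w z k) (m + 1)).length = m + 1
  simp only [hst]
  have h5 : hst (nx z) z (fun w k => mw nx [] [] w z k) m = hh nx [] [] z m := rfl
  rw [h5]
  cases hx : nx z (hh nx [] [] z m) with
  | read w k => simp [h3]
  | write r k v => simp [h3]
  | output o => exact absurd hx (h4 o)

/-- **Module FI5.**  A solo execution: if `(z, s)` is decided then `n ≤ s + 1` (`coverage` with `P = []`), so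
the history after `n - 1` steps has the length `n - 1`; `cost_ge` with `K = 1`, `s0 = n - 1`, `N = 1`. -/
theorem small {A : Alg n} (hA : Solves A) (hn : 2 ≤ n) : ((n - 1 : ℕ) : ℝ≥0∞) ≤ cost A := by
  have hn0 : 0 < n := by omega
  have h := cost_ge (A := A) (s0 := n - 1) (K := 1) (N := 1) (X := ((n - 1 : ℕ) : ℝ)) hn0
    (by omega) le_rfl ?_
  · rwa [ENNReal.ofReal_natCast] at h
  filter_upwards [ae_good hA] with c hc
  have h2 := Fut_const (n := n) (s0 := n - 1) (K := 1) hn0 (by omega) le_rfl 1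
    ((n - 1 : ℕ) : ℝ) []
  rw [← h2]
  simp only [Fut]
  refine sum_le_sum fun z _ => sum_le_sum fun k hk => mul_le_mul_of_nonneg_left ?_
    (rho_nonneg _ _ _)
  have hk0 : k = 0 := by
    have := mem_range.mp hk
    omega
  subst hk0
  have hsc : sc (n - 1) 0 = n - 1 := by
    unfold sc
    rw [pow_zero, mul_one]
  rw [hsc]
  have h3 := (link A (fun _ => false) c [] [(z, n - 1)] (by simp)).2 (z, n - 1) []
    (List.suffix_refl _) (by simp)
  have h4 : ((runL A (fun _ => false) c (bl [] [(z, n - 1)])).hist z).length = n - 1 := by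
    rw [h3]
    exact FI5_len hc hn z
  have h5 : n - 1 ≤ ∑ i, ((runL A (fun _ => false) c (bl [] [(z, n - 1)])).hist i).length := by
    calc n - 1 = ((runL A (fun _ => false) c (bl [] [(z, n - 1)])).hist z).length := h4.symm
      _ ≤ _ := single_le_sum (f := fun i =>
          ((runL A (fun _ => false) c (bl [] [(z, n - 1)])).hist i).length)
          (fun i _ => Nat.zero_le _) (mem_univ z)
  exact_mod_cast h5

/-- **Module FI6.**  For large `n`: `cost_ge`, `ae_good`, `Fut_work`, `params` with `g = Nat.log 2 n / 16`. -/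
theorem large {A : Alg n} (hA : Solves A) {g : ℕ} (hg : 5 ≤ g) (h1 : 2 ^ (16 * g) ≤ n)
    (h2 : n < 2 ^ (16 * g + 16)) :
    ENNReal.ofReal (3 * (n : ℝ) * (g : ℝ) ^ 2 / 1024) ≤ cost A := by
  obtain ⟨s0, K, N, hs0, hK, h4, hX⟩ := params hg h1 h2
  have hn : 0 < n := lt_of_lt_of_le (by positivity) h1
  refine cost_ge A hn hs0 hK (N := N) ?_
  filter_upwards [ae_good hA] with c hc
  exact hX.trans (Fut_work hc hn hs0 hK h4 N)

private theorem FI6_log (L g : ℕ) (hg : 5 ≤ g) (h : L ≤ 16 * g + 15) : (L : ℝ) ^ 2 ≤ 361 * (g : ℝ) ^ 2 := by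
  have h1 : L ≤ 19 * g := by omega
  have h2 : (L : ℝ) ≤ 19 * g := by exact_mod_cast h1
  have h3 := pow_le_pow_left₀ (Nat.cast_nonneg L) h2 2
  calc (L : ℝ) ^ 2 ≤ (19 * (g : ℝ)) ^ 2 := h3
    _ = 361 * (g : ℝ) ^ 2 := by ring

private theorem FI6_alg {n : ℕ} {A : Alg n} (hA : Solves A) :
    (n : ℝ≥0∞) * (Nat.log 2 n : ℝ≥0∞) ^ 2 ≤ 2 ^ 19 * cost A := by
  rcases Nat.lt_or_ge n 2 with h | h
  · have h0 : Nat.log 2 n = 0 := Nat.log_of_lt h
    rw [h0]
    simp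
  · have hlog := Nat.pow_log_le_self 2 (show n ≠ 0 by omega)
    have hlog2 := Nat.lt_pow_succ_log_self (b := 2) (by norm_num) n
    set L := Nat.log 2 n with hL
    rcases Nat.lt_or_ge L 80 with h80 | h80
    · have h1 := small hA h
      have h2 : n * L ^ 2 ≤ 2 ^ 19 * (n - 1) := by
        have h3 : L ^ 2 ≤ 79 ^ 2 := Nat.pow_le_pow_left (by omega) 2
        have h4 : n ≤ 2 * (n - 1) := by omega
        calc n * L ^ 2 ≤ (2 * (n - 1)) * 79 ^ 2 := Nat.mul_le_mul h4 h3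
          _ ≤ 2 ^ 19 * (n - 1) := by
            rw [show 2 * (n - 1) * 79 ^ 2 = (2 * 79 ^ 2) * (n - 1) by ring]
            exact Nat.mul_le_mul_right _ (by norm_num)
      calc (n : ℝ≥0∞) * (L : ℝ≥0∞) ^ 2 = ((n * L ^ 2 : ℕ) : ℝ≥0∞) := by push_cast; ring
        _ ≤ ((2 ^ 19 * (n - 1) : ℕ) : ℝ≥0∞) := by exact_mod_cast h2
        _ = 2 ^ 19 * ((n - 1 : ℕ) : ℝ≥0∞) := by push_cast; ring
        _ ≤ 2 ^ 19 * cost A := by gcongr
    · set g := L / 16 with hg
      have hg5 : 5 ≤ g := by omega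
      have h1 : 2 ^ (16 * g) ≤ n := (Nat.pow_le_pow_right (by norm_num) (by omega)).trans hlog
      have h2 : n < 2 ^ (16 * g + 16) :=
        lt_of_lt_of_le hlog2 (Nat.pow_le_pow_right (by norm_num) (by omega))
      have h3 := large hA hg5 h1 h2
      have h4 := FI6_log L g hg5 (by omega)
      have h5 : (n : ℝ) * (L : ℝ) ^ 2 ≤ 2 ^ 19 * (3 * (n : ℝ) * (g : ℝ) ^ 2 / 1024) := by
        calc (n : ℝ) * (L : ℝ) ^ 2 ≤ n * (361 * (g : ℝ) ^ 2) := by gcongr
          _ ≤ n * (1536 * (g : ℝ) ^ 2) := by gcongr; norm_num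
          _ = 2 ^ 19 * (3 * (n : ℝ) * (g : ℝ) ^ 2 / 1024) := by ring
      calc (n : ℝ≥0∞) * (L : ℝ≥0∞) ^ 2 = ENNReal.ofReal ((n : ℝ) * (L : ℝ) ^ 2) := by
            rw [ENNReal.ofReal_mul (Nat.cast_nonneg n), ENNReal.ofReal_pow (Nat.cast_nonneg L),
              ENNReal.ofReal_natCast, ENNReal.ofReal_natCast]
        _ ≤ ENNReal.ofReal (2 ^ 19 * (3 * (n : ℝ) * (g : ℝ) ^ 2 / 1024)) :=
            ENNReal.ofReal_le_ofReal h5
        _ = 2 ^ 19 * ENNReal.ofReal (3 * (n : ℝ) * (g : ℝ) ^ 2 / 1024) := by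
            rw [ENNReal.ofReal_mul (by positivity)]
            congr 1
            rw [ENNReal.ofReal_pow (by norm_num)]
            norm_num
        _ ≤ 2 ^ 19 * cost A := by gcongr

/-- **Module FI6.**  `W(n) ≥ n (log₂ n)² / 2 ^ 19`. -/
theorem main (n : ℕ) : (n : ℝ≥0∞) * (Nat.log 2 n : ℝ≥0∞) ^ 2 ≤ 2 ^ 19 * W n := by
  unfold W
  rw [ENNReal.mul_iInf_of_ne (by norm_num) (by norm_num)]
  refine le_iInf fun A => ?_
  rw [ENNReal.mul_iInf_of_ne (by norm_num) (by norm_num)]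
  exact le_iInf fun hA => FI6_alg hA

end Pool.Agent.MP217LB2
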